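import Pool.Agent.R58.ApexGraph

set_option autoImplicit false

/-!
The big graph has no 3-colouring with clustering at most `c`.
-/

namespace Pool.Agent.R58

open Gd

/-- The colouring `χ` of `G` has clustering at most `c`: every monochromatic component, that is,
every connected component of the subgraph induced by one colour class, has at most `c` vertices. -/
def Clustered {V : Type} (G : SimpleGraph V) (χ : V → Fin 3) (c : ℕ) : Prop :=
  ∀ (i : Fin 3) (C : (G.induce {v | χ v = i}).ConnectedComponent), C.supp.ncard ≤ c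

/-- Monochromatic steps. -/
def Step {V : Type} (G : SimpleGraph V) (χ : V → Fin 3) (x y : V) : Prop :=
  G.Adj x y ∧ χ x = χ y

/-- A consequence of clustering which is easier to use. -/
def WCl {V : Type} (G : SimpleGraph V) (χ : V → Fin 3) (c : ℕ) : Prop :=
  ∀ (v : V) (S : Finset V), (∀ w ∈ S, Relation.ReflTransGen (Step G χ) v w) → S.card ≤ c

theorem Clustered.wcl {V : Type} [Finite V] {G : SimpleGraph V} {χ : V → Fin 3} {c : ℕ}
    (h : Clustered G χ c) : WCl G χ c := by
  intro v S hS
  have key : ∀ w, Relation.ReflTransGen (Step G χ) v w → ∃ e : χ w = χ v,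
      (G.induce {x | χ x = χ v}).Reachable ⟨v, rfl⟩ ⟨w, e⟩ := by
    intro w hw
    induction hw with
    | refl => exact ⟨rfl, SimpleGraph.Reachable.refl _⟩
    | tail _ hbc ih =>
      obtain ⟨e, hr⟩ := ih
      refine ⟨hbc.2.symm.trans e, hr.trans ?_⟩
      apply SimpleGraph.Adj.reachable
      exact hbc.1
  have hsub : (S : Set V) ⊆ Subtype.val ''
      ((G.induce {x | χ x = χ v}).connectedComponentMk ⟨v, rfl⟩).supp := by
    intro w hw
    obtain ⟨e, hr⟩ := key w (hS w hw)
    exact ⟨⟨w, e⟩, SimpleGraph.ConnectedComponent.sound hr.symm, rfl⟩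
  have h1 := Set.ncard_le_ncard hsub (Set.toFinite _)
  rw [Set.ncard_coe_finset] at h1
  exact h1.trans ((Set.ncard_image_le (Set.toFinite _)).trans (h _ _))

/-- A family of distinct vertices joined by monochromatic paths to a vertex is small. -/
theorem WCl.fam {V : Type} {G : SimpleGraph V} {χ : V → Fin 3} {c : ℕ}
    (h : WCl G χ c) {ι : Type} [DecidableEq V] (S : Finset ι) (f : ι → V)
    (hf : Function.Injective f) (v : V)
    (hS : ∀ i ∈ S, Relation.ReflTransGen (Step G χ) v (f i)) : S.card ≤ c := by
  have h1 := h v (S.image f) (by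
    intro w hw
    obtain ⟨i, hi, rfl⟩ := Finset.mem_image.1 hw
    exact hS i hi)
  rwa [Finset.card_image_of_injective _ hf] at h1

/-- The neighbours of `v` with the colour of `v`. -/
theorem WCl.nbr {V : Type} {G : SimpleGraph V} {χ : V → Fin 3} {c : ℕ}
    (h : WCl G χ c) {ι : Type} [DecidableEq V] (S : Finset ι) (f : ι → V)
    (hf : Function.Injective f) (v : V)
    (hS : ∀ i ∈ S, G.Adj v (f i) ∧ χ (f i) = χ v) : S.card ≤ c :=
  h.fam S f hf v fun i hi => Relation.ReflTransGen.single ⟨(hS i hi).1, (hS i hi).2.symm⟩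

/-- Common neighbours of two vertices, each with the colour of one of them. -/
theorem WCl.two {V : Type} {G : SimpleGraph V} {χ : V → Fin 3} {c : ℕ}
    (h : WCl G χ c) [DecidableEq V] (f : Fin (2 * c + 1) → V)
    (hf : Function.Injective f) (v w : V) (hv : ∀ i, G.Adj v (f i)) (hw : ∀ i, G.Adj w (f i))
    (hS : ∀ i, χ (f i) = χ v ∨ χ (f i) = χ w) : False := by
  have h1 := h.nbr (Finset.univ.filter fun i => χ (f i) = χ v) f hf v
    (fun i hi => ⟨hv i, (Finset.mem_filter.1 hi).2⟩)
  have h2 := h.nbr (Finset.univ.filter fun i => χ (f i) = χ w) f hf w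
    (fun i hi => ⟨hw i, (Finset.mem_filter.1 hi).2⟩)
  have h3 : (Finset.univ : Finset (Fin (2 * c + 1))) ⊆
      (Finset.univ.filter fun i => χ (f i) = χ v) ∪ (Finset.univ.filter fun i => χ (f i) = χ w) := by
    intro i _
    rcases hS i with h4 | h4 <;> simp [h4]
  have h4 := (Finset.card_le_card h3).trans (Finset.card_union_le _ _)
  rw [Finset.card_univ, Fintype.card_fin] at h4
  omega

/-- A monochromatic path is short. -/
theorem WCl.path {V : Type} {G : SimpleGraph V} {χ : V → Fin 3} {c : ℕ}
    (h : WCl G χ c) [DecidableEq V] (f : Fin (2 * c + 1) → V)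
    (hf : Function.Injective f)
    (hs : ∀ i j : Fin (2 * c + 1), j.val = i.val + 1 → Relation.ReflTransGen (Step G χ) (f i) (f j)) :
    False := by
  have key : ∀ (m : ℕ) (hm : m < 2 * c + 1),
      Relation.ReflTransGen (Step G χ) (f ⟨0, by omega⟩) (f ⟨m, hm⟩) := by
    intro m
    induction m with
    | zero => intro _; exact Relation.ReflTransGen.refl
    | succ m ih => intro hm; exact (ih (by omega)).trans (hs ⟨m, by omega⟩ ⟨m + 1, hm⟩ rfl)
  have h1 := h.fam Finset.univ f hf (f ⟨0, by omega⟩) (fun i _ => key i.val i.isLt)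
  rw [Finset.card_univ, Fintype.card_fin] at h1
  omega

theorem fin3 {a b x y : Fin 3} (h1 : x ≠ a) (h2 : y ≠ a) (h3 : x ≠ y) (h4 : b ≠ a) :
    b = x ∨ b = y := by
  revert a b x y; decide

/-- The core: one copy of the gadget has no 3-colouring with clustering `c` in which the vertices
of type `s` avoid the colour `ap s`. -/
theorem core (c : ℕ) (ψ : Gd (2 * c + 1) → Fin 3) (ap : Bool → Fin 3)
    (hψ : WCl (gr (2 * c + 1)) ψ c) (hap : ∀ x s, ty x s → ψ x ≠ ap s) : False := by
  by_cases hab : ap false = ap true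
  · -- both apex vertices have the same colour
    have hty : ∀ x s, ty x s → ψ x ≠ ap false := by
      intro x s h
      cases s
      · exact hap x _ h
      · rw [hab]; exact hap x _ h
    have hu : ∀ i j, ψ (u i j) ≠ ap false := fun i j => hty _ j.val.bodd rfl
    have hp : ∀ i j l, ψ (p i j l) ≠ ap false := fun i j l => hty _ (!j.val.bodd) rfl
    have hv : ∀ i, ψ (v i) = ap false := by
      intro i
      by_contra hne
      have hvu : ∀ j, ψ (u i j) = ψ (v i) := by
        intro j
        by_contra hne2
        refine hψ.two (fun l => p i j l) (fun a b e => ?_) (v i) (u i j) ?_ ?_ ?_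
        · simpa using e
        · intro l; exact Or.inl rfl
        · intro l; exact Or.inr ⟨rfl, rfl⟩
        · intro l
          exact fin3 hne (hu i j) (fun e => hne2 e.symm) (hp i j l)
      refine hψ.path (fun j => u i j) (fun a b e => by simpa using e) ?_
      intro j j' hj
      exact Relation.ReflTransGen.single ⟨Or.inl ⟨rfl, hj⟩, by rw [hvu, hvu]⟩
    refine hψ.path (fun i => v i) (fun a b e => by simpa using e) ?_
    intro i i' hi
    exact Relation.ReflTransGen.single ⟨Or.inl hi, by rw [hv, hv]⟩
  · -- the two apex vertices have different colours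
    obtain ⟨g, hg⟩ : ∃ g : Fin 3, ∀ x : Fin 3, x ≠ ap false → x ≠ ap true → x = g := by
      generalize ap false = a at hab
      generalize ap true = b at hab
      revert a b; decide
    have hT : ∀ i j l, ψ (T i j l) = g := fun i j l => hg _ (hap _ _ trivial) (hap _ _ trivial)
    have hA : ∀ l, ψ (A l) = g := fun l => hg _ (hap _ _ trivial) (hap _ _ trivial)
    have hB : ∀ i l, ψ (B i l) = g := fun i l => hg _ (hap _ _ trivial) (hap _ _ trivial)
    have hw : ψ w ≠ g := by
      intro e
      have h1 := hψ.nbr Finset.univ (fun l => A l) (fun a b e => by simpa using e) w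
        (fun l _ => ⟨Or.inl trivial, by rw [hA, e]⟩)
      rw [Finset.card_univ, Fintype.card_fin] at h1
      omega
    have hU : ∀ i, ψ (U i) ≠ g := by
      intro i e
      have h1 := hψ.nbr Finset.univ (fun l => B i l) (fun a b e => by simpa using e) (U i)
        (fun l _ => ⟨Or.inr rfl, by rw [hB, e]⟩)
      rw [Finset.card_univ, Fintype.card_fin] at h1
      omega
    have hUw : ∀ i, ψ (U i) = ψ w := by
      intro i
      by_contra hne
      have hP : ∀ j, ∃ l, ψ (P i j l) ≠ g := by
        intro j
        by_contra hcon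
        push Not at hcon
        refine hψ.path (fun l => P i j l) (fun a b e => by simpa using e) ?_
        intro l l' hl
        refine (Relation.ReflTransGen.single (b := T i j l) ⟨Or.inl ⟨rfl, rfl, rfl⟩, ?_⟩).trans
          (Relation.ReflTransGen.single ⟨Or.inl ⟨rfl, rfl, hl⟩, ?_⟩)
        · rw [hcon, hT]
        · rw [hcon, hT]
      choose l hl using hP
      refine hψ.two (fun j => P i j (l j)) (fun a b e => ?_) w (U i) ?_ ?_ ?_
      · simp only [P.injEq] at e
        exact e.2.1
      · intro j; exact Or.inl trivial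
      · intro j; exact Or.inr rfl
      · intro j
        exact fin3 hw (hU i) (fun e => hne e.symm) (hl j)
    refine hψ.path (fun i => U i) (fun a b e => by simpa using e) ?_
    intro i i' hi
    exact Relation.ReflTransGen.single ⟨Or.inl hi, by rw [hUw, hUw]⟩

theorem big_not (c : ℕ) (χ : Bool ⊕ (Fin (2 * c + 1) × Gd (2 * c + 1)) → Fin 3)
    (h : WCl (big (2 * c + 1)) χ c) : False := by
  classical
  -- the copies in which some vertex has the colour of the apex vertex `s`
  have hbad : ∀ s : Bool, (Finset.univ.filter fun k : Fin (2 * c + 1) =>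
      ∃ x, ty x s ∧ χ (Sum.inr (k, x)) = χ (Sum.inl s)).card ≤ c := by
    intro s
    have : ∀ k : Fin (2 * c + 1), ∃ x : Gd (2 * c + 1),
        (∃ x, ty x s ∧ χ (Sum.inr (k, x)) = χ (Sum.inl s)) →
          ty x s ∧ χ (Sum.inr (k, x)) = χ (Sum.inl s) := by
      intro k
      by_cases hk : ∃ x, ty x s ∧ χ (Sum.inr (k, x)) = χ (Sum.inl s)
      · obtain ⟨x, hx⟩ := hk
        exact ⟨x, fun _ => hx⟩
      · exact ⟨w, fun h => absurd h hk⟩
    choose g hg using this
    refine h.nbr _ (fun k => Sum.inr (k, g k)) (fun a b e => ?_) (Sum.inl s) ?_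
    · simp only [Sum.inr.injEq, Prod.mk.injEq] at e
      exact e.1
    · intro k hk
      exact hg k (Finset.mem_filter.1 hk).2
  obtain ⟨k, hk⟩ : ∃ k : Fin (2 * c + 1), ∀ s x, ty x s → χ (Sum.inr (k, x)) ≠ χ (Sum.inl s) := by
    by_contra hcon
    push Not at hcon
    have h3 : (Finset.univ : Finset (Fin (2 * c + 1))) ⊆
        (Finset.univ.filter fun k : Fin (2 * c + 1) =>
          ∃ x, ty x false ∧ χ (Sum.inr (k, x)) = χ (Sum.inl false)) ∪
        (Finset.univ.filter fun k : Fin (2 * c + 1) =>
          ∃ x, ty x true ∧ χ (Sum.inr (k, x)) = χ (Sum.inl true)) := by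
      intro k _
      obtain ⟨s, x, h1, h2⟩ := hcon k
      rw [Finset.mem_union, Finset.mem_filter, Finset.mem_filter]
      cases s
      · exact Or.inl ⟨Finset.mem_univ _, x, h1, h2⟩
      · exact Or.inr ⟨Finset.mem_univ _, x, h1, h2⟩
    have h4 := (Finset.card_le_card h3).trans (Finset.card_union_le _ _)
    rw [Finset.card_univ, Fintype.card_fin] at h4
    have h5 := hbad false
    have h6 := hbad true
    omega
  refine core c (fun x => χ (Sum.inr (k, x))) (fun s => χ (Sum.inl s)) ?_ (fun x s hx => hk s x hx)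
  intro v S hS
  refine h.fam S (fun x => Sum.inr (k, x)) (fun a b e => ?_) (Sum.inr (k, v)) ?_
  · simp only [Sum.inr.injEq, Prod.mk.injEq] at e
    exact e.2
  · intro x hx
    have h1 := hS x hx
    clear hx
    induction h1 with
    | refl => exact Relation.ReflTransGen.refl
    | tail _ hbc ih => exact ih.tail ⟨⟨rfl, hbc.1⟩, hbc.2⟩

end Pool.Agent.R58
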