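import Pool.Agent.R58.PlaneDraw

set_option autoImplicit false

/-!
The gadget for the failure of clustered 3-colouring of triangle-free 2-apex graphs.
-/

namespace Pool.Agent.R58

/-- Vertices of one copy of the gadget. -/
inductive Gd (n : ℕ) : Type
  | v (i : Fin n)
  | u (i j : Fin n)
  | p (i j l : Fin n)
  | w
  | U (i : Fin n)
  | P (i j l : Fin n)
  | T (i j l : Fin n)
  | A (l : Fin n)
  | B (i l : Fin n)
  deriving DecidableEq, Fintype

namespace Gd

variable {n : ℕ}

/-- Directed edges of one copy (they are made symmetric below). -/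
def R : Gd n → Gd n → Prop
  | v i, v i' => i'.val = i.val + 1
  | v i, p i' _ _ => i = i'
  | p i j _, u i' j' => i = i' ∧ j = j'
  | u i j, u i' j' => i = i' ∧ j'.val = j.val + 1
  | w, A _ => True
  | w, P _ _ _ => True
  | P i _ _, U i' => i = i'
  | B i _, U i' => i = i'
  | U i, U i' => i'.val = i.val + 1
  | P i j l, T i' j' l' => i = i' ∧ j = j' ∧ l = l'
  | T i j l, P i' j' l' => i = i' ∧ j = j' ∧ l'.val = l.val + 1
  | _, _ => False

/-- The level of a vertex. -/
def lvl : Gd n → ℤ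
  | v _ => 0
  | u _ _ => 2
  | p _ _ _ => 1
  | w => 0
  | U _ => 2
  | P _ _ _ => 1
  | T _ _ _ => 1
  | A _ => 1
  | B _ _ => 1

/-- Adjacency to the two apex vertices `false`, `true`. -/
def ty : Gd n → Bool → Prop
  | u _ j, s => s = j.val.bodd
  | p _ j _, s => s = !j.val.bodd
  | T _ _ _, _ => True
  | A _, _ => True
  | B _ _, _ => True
  | _, _ => False

/-- The heights: the lexicographic order of the following five numbers. -/
def ht : Gd n → ℕ ×ₗ ℕ ×ₗ ℕ ×ₗ ℕ ×ₗ ℕ
  | v i => toLex (0, toLex (i.val, toLex (0, toLex (0, 0))))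
  | u i j => toLex (0, toLex (i.val, toLex (j.val, toLex (0, 0))))
  | p i j l => toLex (0, toLex (i.val, toLex (j.val, toLex (l.val, 0))))
  | w => toLex (1, toLex (0, toLex (0, toLex (0, 0))))
  | U i => toLex (1, toLex (i.val, toLex (0, toLex (0, 0))))
  | P i j l => toLex (1, toLex (i.val, toLex (j.val, toLex (l.val, 0))))
  | T i j l => toLex (1, toLex (i.val, toLex (j.val, toLex (l.val, 1))))
  | A l => toLex (1, toLex (n, toLex (0, toLex (l.val, 0))))
  | B i l => toLex (1, toLex (i.val, toLex (n, toLex (l.val, 0))))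

theorem R_irrefl (x : Gd n) : ¬ R x x := by
  cases x <;> simp [R]

/-- The graph of one copy. -/
def gr (n : ℕ) : SimpleGraph (Gd n) where
  Adj x y := R x y ∨ R y x
  symm := ⟨fun _ _ h => h.symm⟩
  loopless := ⟨fun x h => R_irrefl x (h.elim id id)⟩

theorem lvl_of_R {x y : Gd n} (h : R x y) : lvl y = lvl x ∨ lvl y = lvl x + 1 := by
  cases x <;> cases y <;> simp [R, lvl] at h ⊢

theorem ht_inj {x y : Gd n} (h1 : lvl x = lvl y) (h2 : ht x = ht y) : x = y := by
  cases x <;> cases y <;> simp [lvl, ht, Prod.ext_iff, Fin.ext_iff] at h1 h2 ⊢ <;> omega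

theorem gr_vert {x y z : Gd n} (h : R x y) (h1 : lvl x = lvl y) (h2 : lvl z = lvl x)
    (h3 : ht x < ht z) (h4 : ht z < ht y) : False := by
  cases x <;> cases y <;> simp [R, lvl] at h h1 <;> cases z <;>
    simp [lvl, ht, Prod.Lex.lt_iff] at h2 h3 h4 <;> omega

theorem gr_vert' {x y : Gd n} (h : R x y) (h1 : lvl x = lvl y) : ht x < ht y := by
  cases x <;> cases y <;> simp [R, lvl] at h h1 <;> 
    simp [ht, Prod.Lex.lt_iff] <;> omega

theorem gr_cross {x x' y y' : Gd n} (h : R x x') (h' : R y y') (h1 : lvl x' = lvl x + 1)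
    (h2 : lvl y = lvl x) (h3 : lvl y' = lvl x + 1) (h4 : ht x < ht y) : ht x' ≤ ht y' := by
  cases x <;> cases x' <;> simp [R, lvl] at h h1 <;> cases y <;> simp [lvl] at h2 <;>
    cases y' <;> simp [R, lvl] at h' h3 <;> 
    simp [ht, Prod.Lex.lt_iff, Prod.Lex.le_iff, Fin.ext_iff] at h h' h4 ⊢ <;> omega

end Gd

end Pool.Agent.R58
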