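import Pool.Agent.R58.ApexCore

set_option autoImplicit false

/-!
The triangle-free 2-apex graph, its planarity after deleting the two apex vertices.
-/

namespace Pool.Agent.R58

open Gd

/-- `n` disjoint copies of the gadget. -/
def cp (n : ℕ) : SimpleGraph (Fin n × Gd n) where
  Adj a b := a.1 = b.1 ∧ (gr n).Adj a.2 b.2
  symm := ⟨fun _ _ h => ⟨h.1.symm, h.2.symm⟩⟩
  loopless := ⟨fun _ h => (gr n).loopless.irrefl _ h.2⟩

theorem cp_layout (n : ℕ) : IsLayout (cp n) (fun a => lvl a.2)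
    (fun a => (toLex (a.1.val, ht a.2) : ℕ ×ₗ (ℕ ×ₗ ℕ ×ₗ ℕ ×ₗ ℕ ×ₗ ℕ))) := by
  refine ⟨?_, ?_, ?_, ?_⟩
  · rintro ⟨k, x⟩ ⟨k', y⟩ h1 h2
    simp only [EmbeddingLike.apply_eq_iff_eq, Prod.mk.injEq] at h2
    simp only at h1
    exact Prod.ext (Fin.ext h2.1) (ht_inj h1 h2.2)
  · rintro ⟨k, x⟩ ⟨k', y⟩ ⟨-, h | h⟩
    · rcases lvl_of_R h with h1 | h1
      · exact Or.inl h1
      · exact Or.inr (Or.inl h1)
    · rcases lvl_of_R h with h1 | h1
      · exact Or.inl h1.symm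
      · exact Or.inr (Or.inr h1)
  · rintro ⟨k, x⟩ ⟨k', y⟩ ⟨k'', z⟩ ⟨h0, h⟩ h1 h2 h3 h4
    simp only at h0 h h1 h2 h3 h4
    subst h0
    rw [Prod.Lex.lt_iff] at h3 h4
    simp only [ofLex_toLex] at h3 h4
    have hk : k.val = k''.val := by omega
    have h3' : ht x < ht z := by
      rcases h3 with h3 | h3
      · omega
      · exact h3.2
    have h4' : ht z < ht y := by
      rcases h4 with h4 | h4
      · omega
      · exact h4.2
    rcases h with h | h
    · exact gr_vert h h1 h2 h3' h4'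
    · exact absurd ((gr_vert' h h1.symm).trans (h3'.trans h4')) (lt_irrefl _)
  · rintro ⟨k, x⟩ ⟨k1, x'⟩ ⟨k2, y⟩ ⟨k3, y'⟩ ⟨h0, h⟩ ⟨h0', h'⟩ h1 h2 h3 h4
    simp only at h0 h0' h h' h1 h2 h3 h4
    subst h0 h0'
    have hR : R x x' := by
      rcases h with h | h
      · exact h
      · rcases lvl_of_R h with h5 | h5 <;> omega
    have hR' : R y y' := by
      rcases h' with h' | h'
      · exact h'
      · rcases lvl_of_R h' with h5 | h5 <;> omega
    rw [Prod.Lex.lt_iff] at h4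
    rw [Prod.Lex.le_iff]
    simp only [ofLex_toLex] at h4 ⊢
    rcases h4 with h4 | ⟨h4, h5⟩
    · exact Or.inl h4
    · exact Or.inr ⟨h4, gr_cross hR hR' h1 h2 h3 h5⟩

theorem countable_lex {α : Type} [Countable α] : Countable (Lex α) :=
  (toLex (α := α)).symm.injective.countable

theorem cp_planar (n : ℕ) : Planar (cp n) := by
  have : Countable (ℕ ×ₗ ℕ) := countable_lex
  have : Countable (ℕ ×ₗ ℕ ×ₗ ℕ) := countable_lex
  have : Countable (ℕ ×ₗ ℕ ×ₗ ℕ ×ₗ ℕ) := countable_lex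
  have : Countable (ℕ ×ₗ ℕ ×ₗ ℕ ×ₗ ℕ ×ₗ ℕ) := countable_lex
  have : Countable (ℕ ×ₗ ℕ ×ₗ ℕ ×ₗ ℕ ×ₗ ℕ ×ₗ ℕ) := countable_lex
  exact (cp_layout n).planar

/-- Adjacency of the big graph. -/
def bigAdj (n : ℕ) : Bool ⊕ (Fin n × Gd n) → Bool ⊕ (Fin n × Gd n) → Prop
  | .inl _, .inl _ => False
  | .inl s, .inr a => ty a.2 s
  | .inr a, .inl s => ty a.2 s
  | .inr a, .inr b => (cp n).Adj a b

/-- `n` disjoint copies of the gadget, with two more vertices. -/
def big (n : ℕ) : SimpleGraph (Bool ⊕ (Fin n × Gd n)) where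
  Adj := bigAdj n
  symm := ⟨by
    rintro (s | a) (t | b) h
    · exact h
    · exact h
    · exact h
    · exact (cp n).symm.symm _ _ h⟩
  loopless := ⟨by
    rintro (s | a) h
    · exact h
    · exact (cp n).loopless.irrefl _ h⟩

/-- The two apex vertices. -/
def apx (n : ℕ) : Set (Bool ⊕ (Fin n × Gd n)) := Set.range Sum.inl

theorem big_planar (n : ℕ) : Planar ((big n).induce (apx n)ᶜ) := by
  have hx : ∀ x : ((apx n)ᶜ : Set (Bool ⊕ (Fin n × Gd n))), ∃ a, x.1 = Sum.inr a := by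
    rintro ⟨s | a, h⟩
    · exact absurd ⟨s, rfl⟩ h
    · exact ⟨a, rfl⟩
  choose f hf using hx
  refine (cp_planar n).of_injective f ?_ ?_
  · intro x y hxy
    apply Subtype.ext
    rw [hf x, hf y, hxy]
  · intro x y hxy
    have h1 : (big n).Adj x.1 y.1 := hxy
    rw [hf x, hf y] at h1
    exact h1

theorem ty_disj {n : ℕ} {x y : Gd n} (h : R x y) {s : Bool} (h1 : ty x s) (h2 : ty y s) : False := by
  cases x <;> cases y <;> simp [R, ty] at h h1 h2
  · obtain ⟨rfl, h⟩ := h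
    rw [h1, h, Nat.bodd_succ] at h2
    simp at h2
  · obtain ⟨rfl, rfl⟩ := h
    rw [h1] at h2
    simp at h2

theorem gr_tri {n : ℕ} {x y z : Gd n} (h1 : (gr n).Adj x y) (h2 : (gr n).Adj y z)
    (h3 : (gr n).Adj x z) : False := by
  rcases h1 with h1 | h1 <;> rcases h2 with h2 | h2 <;> rcases h3 with h3 | h3 <;>
    cases x <;> cases y <;> simp [R] at h1 <;> cases z <;> simp [R] at h2 h3 <;> omega

theorem big_tri (n : ℕ) : (big n).CliqueFree 3 := by
  intro S hS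
  rw [SimpleGraph.is3Clique_iff] at hS
  obtain ⟨a, b, c, hab, hac, hbc, -⟩ := hS
  have key : ∀ (s : Bool) (x y : Fin n × Gd n), ty x.2 s → ty y.2 s → ¬ (cp n).Adj x y := by
    rintro s x y h1 h2 ⟨-, h | h⟩
    · exact ty_disj h h1 h2
    · exact ty_disj h h2 h1
  rcases a with s | a <;> rcases b with t | b <;> rcases c with r | c
  · exact hab
  · exact hab
  · exact hac
  · exact key s b c hab hac hbc
  · exact hbc
  · exact key t a c hab hbc hac
  · exact key r a b hac hbc hab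
  · exact gr_tri hab.2 hbc.2 hac.2

end Pool.Agent.R58
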