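import Mathlib

/-! A bent function from which the minus type extremal distribution cannot be reached by adding
linear maps: counting argument over a finite field. -/

namespace Pool.Agent.R58.BentType

open Finset

lemma num_ineq (k : ℕ) (hk : 6 ≤ k) : 2 * (k + 1) * (k + 1) + (k + 1) + 1 < 2 ^ (k + 1) := by
  obtain ⟨j, rfl⟩ : ∃ j, k = j + 6 := ⟨k - 6, by omega⟩
  clear hk
  induction j with
  | zero => norm_num
  | succ j ih =>
    have : 2 ^ (j + 1 + 6 + 1) = 2 * 2 ^ (j + 6 + 1) := by ring
    rw [this]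
    nlinarith [ih]

section Core

variable {K : Type*} [Field K] [Fintype K] [DecidableEq K] [Module (ZMod 2) K]

/-- number of nonzero kernel elements of `x ↦ x y + l x` -/
def cc (l : K →ₗ[ZMod 2] K) (y : K) : ℕ :=
  (univ.filter (fun x : K => x ≠ 0 ∧ x * y + l x = 0)).card

lemma sum_cc (l : K →ₗ[ZMod 2] K) : ∑ y, cc l y = Fintype.card K - 1 := by
  unfold cc
  simp only [Finset.card_filter]
  rw [Finset.sum_comm]
  have h : ∀ x : K, ∑ y : K, (if x ≠ 0 ∧ x * y + l x = 0 then 1 else 0) = if x ≠ 0 then 1 else 0 := by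
    intro x
    by_cases hx : x = 0
    · simp [hx]
    · rw [Finset.sum_eq_single (-(l x) / x)]
      · rw [if_pos, if_pos hx]
        refine ⟨hx, ?_⟩
        field_simp
        ring
      · intro y _ hy
        rw [if_neg]
        rintro ⟨_, h⟩
        apply hy
        rw [eq_div_iff hx]
        linear_combination h
      · intro h; exact absurd (Finset.mem_univ _) h
  rw [Finset.sum_congr rfl (fun x _ => h x), ← Finset.card_filter]
  have : univ.filter (fun x : K => x ≠ 0) = univ.erase 0 := by ext x; simp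
  rw [this, Finset.card_erase_of_mem (Finset.mem_univ _), Finset.card_univ]

/-- the additive map `x ↦ x y + l x` -/
def TT (l : K →ₗ[ZMod 2] K) (y : K) : K →+ K := AddMonoidHom.mulRight y + l.toAddMonoidHom

omit [Fintype K] [DecidableEq K] in
lemma TT_apply (l : K →ₗ[ZMod 2] K) (y x : K) : TT l y x = x * y + l x := rfl

lemma card_ker (l : K →ₗ[ZMod 2] K) (y : K) : Nat.card (TT l y).ker = cc l y + 1 := by
  have h1 : Nat.card (TT l y).ker = (univ.filter (fun x : K => x * y + l x = 0)).card := by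
    rw [← Nat.card_eq_finsetCard]
    apply Nat.card_congr
    refine Equiv.subtypeEquivRight ?_
    intro x
    rw [AddMonoidHom.mem_ker, TT_apply]
    simp
  have h2 : univ.filter (fun x : K => x * y + l x = 0) =
      insert 0 (univ.filter (fun x : K => x ≠ 0 ∧ x * y + l x = 0)) := by
    ext x
    simp only [mem_filter, mem_univ, true_and, mem_insert]
    by_cases hx : x = 0
    · simp [hx]
    · simp [hx]
  rw [h1, h2, card_insert_of_notMem (by simp)]
  rfl

lemma surj_of_cc (l : K →ₗ[ZMod 2] K) (y : K) (h : cc l y = 0) (z : K) :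
    ∃ x, x * y + l x = z := by
  have h1 := card_ker l y
  rw [h, zero_add] at h1
  have hinj : Function.Injective (TT l y) := by
    rw [← AddMonoidHom.ker_eq_bot_iff]
    exact AddSubgroup.eq_bot_of_card_eq _ h1
  obtain ⟨x, hx⟩ := (Finite.injective_iff_surjective.mp hinj) z
  exact ⟨x, hx⟩

lemma card_missed (l : K →ₗ[ZMod 2] K) (y : K) (h : cc l y = 1) (z : K) :
    2 * (univ.filter (fun r : K => ∀ x, x * y + l x ≠ z + r)).card = Fintype.card K := by
  have h1 := card_ker l y
  rw [h] at h1
  have h2 := AddSubgroup.card_mul_index (TT l y).ker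
  rw [h1, AddSubgroup.index_ker, Nat.card_eq_fintype_card (α := K)] at h2
  have h3 : Nat.card (TT l y).range = (univ.filter (fun r : K => ∃ x, x * y + l x = z + r)).card := by
    rw [← Nat.card_eq_finsetCard]
    apply Nat.card_congr
    refine
      { toFun := fun w => ⟨w.1 - z, ?_⟩
        invFun := fun r => ⟨z + r.1, ?_⟩
        left_inv := ?_
        right_inv := ?_ }
    · obtain ⟨x, hx⟩ := AddMonoidHom.mem_range.mp w.2
      rw [mem_filter]
      refine ⟨mem_univ _, x, ?_⟩
      rw [← TT_apply, hx]; ring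
    · have := r.2
      rw [mem_filter] at this
      obtain ⟨x, hx⟩ := this.2
      exact AddMonoidHom.mem_range.mpr ⟨x, hx⟩
    · intro w; ext; simp
    · intro r; ext; simp
  have h4 := Finset.card_filter_add_card_filter_not (s := (univ : Finset K))
    (fun r : K => ∃ x, x * y + l x = z + r)
  rw [Finset.card_univ] at h4
  have h5 : univ.filter (fun r : K => ¬ ∃ x, x * y + l x = z + r) =
      univ.filter (fun r : K => ∀ x, x * y + l x ≠ z + r) := by
    ext r; simp
  rw [h5] at h4
  rw [h3] at h2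
  omega

/-- the condition to be avoided -/
def Bad (l μ : K →ₗ[ZMod 2] K) (α : K) (ρ : K → K) : Prop :=
  (univ.filter (fun p : K × K => p.1 * p.2 + ρ p.2 + (l p.1 + μ p.2) = α)).card = 1

lemma bad_struct (l μ : K →ₗ[ZMod 2] K) (α : K) (ρ : K → K) (h : Bad l μ α ρ) :
    ∃ y0, cc l y0 = 0 ∧ ∀ y, y ≠ y0 → cc l y = 1 ∧ ∀ x, x * y + l x ≠ (α - μ y) + -(ρ y) := by
  unfold Bad at h
  rw [Finset.card_eq_one] at h
  obtain ⟨⟨x0, y0⟩, hp⟩ := h
  have hmiss : ∀ y, y ≠ y0 → ∀ x, x * y + l x ≠ (α - μ y) + -(ρ y) := by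
    intro y hy x hx
    have : (x, y) ∈ univ.filter (fun p : K × K => p.1 * p.2 + ρ p.2 + (l p.1 + μ p.2) = α) := by
      rw [mem_filter]
      refine ⟨mem_univ _, ?_⟩
      simp only
      linear_combination hx
    rw [hp, mem_singleton, Prod.mk.injEq] at this
    exact hy this.2
  have hge : ∀ y, y ≠ y0 → 1 ≤ cc l y := by
    intro y hy
    by_contra hcon
    obtain ⟨x, hx⟩ := surj_of_cc l y (by omega) ((α - μ y) + -(ρ y))
    exact hmiss y hy x hx
  have hsum := sum_cc l
  rw [← Finset.add_sum_erase _ _ (Finset.mem_univ y0)] at hsum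
  have hcard : (univ.erase y0).card = Fintype.card K - 1 := by
    rw [Finset.card_erase_of_mem (Finset.mem_univ _), Finset.card_univ]
  have h1 : ∑ y ∈ univ.erase y0, cc l y = (univ.erase y0).card +
      ∑ y ∈ univ.erase y0, (cc l y - 1) := by
    rw [Finset.card_eq_sum_ones, ← Finset.sum_add_distrib]
    apply Finset.sum_congr rfl
    intro y hy
    have := hge y (Finset.ne_of_mem_erase hy)
    omega
  have h2 : ∑ y ∈ univ.erase y0, (cc l y - 1) = 0 := by omega
  refine ⟨y0, by omega, ?_⟩
  intro y hy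
  refine ⟨?_, hmiss y hy⟩
  have := (Finset.sum_eq_zero_iff.mp h2) y (Finset.mem_erase.mpr ⟨hy, Finset.mem_univ _⟩)
  have := hge y hy
  omega

open Classical in
lemma card_bad (q : ℕ) (hq : Fintype.card K = 2 * q) (l μ : K →ₗ[ZMod 2] K) (α : K) :
    (univ.filter (fun ρ : K → K => Bad l μ α ρ)).card ≤ (2 * q) * q ^ (2 * q - 1) := by
  by_cases hne : (univ.filter (fun ρ : K → K => Bad l μ α ρ)).Nonempty
  · obtain ⟨ρ0, hρ0⟩ := hne
    rw [mem_filter] at hρ0
    obtain ⟨y0, hy0, hy⟩ := bad_struct l μ α ρ0 hρ0.2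
    set C : K → Finset K := fun y => if y = y0 then univ else
      (univ.filter (fun r : K => ∀ x, x * y + l x ≠ (α - μ y) + r)).map
        (Equiv.neg K).toEmbedding with hC
    have hsub : univ.filter (fun ρ : K → K => Bad l μ α ρ) ⊆ Fintype.piFinset C := by
      intro ρ hρ
      rw [mem_filter] at hρ
      obtain ⟨y1, hy1, hy'⟩ := bad_struct l μ α ρ hρ.2
      have h10 : y1 = y0 := by
        by_contra hcon
        have := (hy y1 hcon).1
        omega
      subst h10
      rw [Fintype.mem_piFinset]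
      intro y
      rw [hC]
      by_cases hyy : y = y1
      · simp [hyy]
      · simp only [hyy, if_false, Finset.mem_map_equiv, mem_filter, mem_univ, true_and]
        exact (hy' y hyy).2
    have hcardC : ∀ y, y ≠ y0 → (C y).card = q := by
      intro y hyy
      rw [hC]
      simp only [hyy, if_false, Finset.card_map]
      have := card_missed l y (hy y hyy).1 (α - μ y)
      omega
    calc (univ.filter (fun ρ : K → K => Bad l μ α ρ)).card
        ≤ (Fintype.piFinset C).card := Finset.card_le_card hsub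
      _ = ∏ y, (C y).card := Fintype.card_piFinset C
      _ = (C y0).card * ∏ y ∈ univ.erase y0, (C y).card :=
          (Finset.mul_prod_erase _ _ (Finset.mem_univ y0)).symm
      _ = (2 * q) * q ^ (2 * q - 1) := by
          rw [Finset.prod_congr rfl (fun y hy => hcardC y (Finset.ne_of_mem_erase hy)),
            Finset.prod_const, Finset.card_erase_of_mem (Finset.mem_univ _), Finset.card_univ, hq]
          have : (C y0).card = 2 * q := by
            rw [hC]; simp [hq]
          rw [this]
  · rw [Finset.not_nonempty_iff_eq_empty] at hne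
    rw [hne, Finset.card_empty]
    exact Nat.zero_le _

open Classical in
/-- counting gives a map `ρ` that is never bad -/
lemma exists_rho (m : ℕ) (hm : 7 ≤ m) (hK : Fintype.card K = 2 ^ m)
    (b : Module.Basis (Fin m) (ZMod 2) K) :
    ∃ ρ : K → K, ∀ (l μ : K →ₗ[ZMod 2] K) (α : K), ¬ Bad l μ α ρ := by
  by_contra hcon
  push Not at hcon
  obtain ⟨k, rfl⟩ : ∃ k, m = k + 1 := ⟨m - 1, by omega⟩
  set q := 2 ^ k with hq
  have hK' : Fintype.card K = 2 * q := by rw [hK, hq, pow_succ]; ring
  -- parameters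
  set L : (Fin (k + 1) → K) → (K →ₗ[ZMod 2] K) := fun g => b.constr (ZMod 2) g with hL
  have hLs : ∀ l : K →ₗ[ZMod 2] K, ∃ g, L g = l := by
    intro l
    exact ⟨(b.constr (ZMod 2)).symm l, (b.constr (ZMod 2)).apply_symm_apply l⟩
  have hcover : (univ : Finset (K → K)) ⊆
      (univ : Finset ((Fin (k + 1) → K) × (Fin (k + 1) → K) × K)).biUnion
        (fun t => univ.filter (fun ρ : K → K => Bad (L t.1) (L t.2.1) t.2.2 ρ)) := by
    intro ρ _
    obtain ⟨l, μ, α, hbad⟩ := hcon ρ
    obtain ⟨g1, hg1⟩ := hLs l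
    obtain ⟨g2, hg2⟩ := hLs μ
    rw [Finset.mem_biUnion]
    refine ⟨(g1, g2, α), Finset.mem_univ _, ?_⟩
    rw [mem_filter]
    refine ⟨mem_univ _, ?_⟩
    simp only
    rw [hg1, hg2]
    exact hbad
  have h1 := (Finset.card_le_card hcover).trans (Finset.card_biUnion_le)
  have h2 := h1.trans (Finset.sum_le_card_nsmul _ _ ((2 * q) * q ^ (2 * q - 1))
    (fun t _ => card_bad q hK' (L t.1) (L t.2.1) t.2.2))
  rw [Finset.card_univ, Finset.card_univ, Fintype.card_fun, Fintype.card_prod, Fintype.card_prod,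
    Fintype.card_fun, Fintype.card_fin, hK, smul_eq_mul] at h2
  have e1 : (2 : ℕ) * q = 2 ^ (k + 1) := by rw [hq, pow_succ]; ring
  rw [e1, hq] at h2
  have e2 : (2 ^ (k + 1)) ^ (k + 1) * ((2 ^ (k + 1)) ^ (k + 1) * 2 ^ (k + 1)) *
      (2 ^ (k + 1) * (2 ^ k) ^ (2 ^ (k + 1) - 1)) =
      2 ^ ((k + 1) * (k + 1) + ((k + 1) * (k + 1) + (k + 1)) + ((k + 1) +
        k * (2 ^ (k + 1) - 1))) := by
    simp only [← pow_mul, ← pow_add]
  rw [e2, ← pow_mul] at h2
  have h3 := (Nat.pow_le_pow_iff_right (by norm_num : 1 < 2)).mp h2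
  -- the numerical inequality
  have h4 := num_ineq k (by omega)
  have h5 : 1 ≤ 2 ^ (k + 1) := Nat.one_le_two_pow
  obtain ⟨N, hN⟩ : ∃ N, 2 ^ (k + 1) = N + 1 := ⟨2 ^ (k + 1) - 1, by omega⟩
  rw [hN] at h3 h4
  rw [Nat.add_sub_cancel] at h3
  nlinarith [h3, h4]

end Core

/-! Definitions over the field with two elements. -/

/-- `F` is bent (perfect nonlinear) -/
def IsBent {n m : ℕ} (F : (Fin n → ZMod 2) → (Fin m → ZMod 2)) : Prop :=
  ∀ a, a ≠ 0 → ∀ b, (univ.filter (fun x => F (x + a) + F x = b)).card = 2 ^ (n - m)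

/-- number of preimages -/
def pre {n m : ℕ} (F : (Fin n → ZMod 2) → (Fin m → ZMod 2)) (b : Fin m → ZMod 2) : ℤ :=
  ((univ.filter (fun x => F x = b)).card : ℤ)

/-- almost balanced of type `(+)` -/
def TypePlus {n m : ℕ} (F : (Fin n → ZMod 2) → (Fin m → ZMod 2)) : Prop :=
  ∃ α, pre F α = 2 ^ (n - m) + 2 ^ (n / 2) - 2 ^ (n / 2 - m) ∧
    ∀ β, β ≠ α → pre F β = 2 ^ (n - m) - 2 ^ (n / 2 - m)

/-- almost balanced of type `(-)` -/
def TypeMinus {n m : ℕ} (F : (Fin n → ZMod 2) → (Fin m → ZMod 2)) : Prop :=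
  ∃ α, pre F α = 2 ^ (n - m) - 2 ^ (n / 2) + 2 ^ (n / 2 - m) ∧
    ∀ β, β ≠ α → pre F β = 2 ^ (n - m) + 2 ^ (n / 2 - m)

/-- bent functions with no type `(-)` translate by a linear map -/
theorem exists_bent (m : ℕ) (hm : 7 ≤ m) :
    ∃ F : (Fin (2 * m) → ZMod 2) → (Fin m → ZMod 2), IsBent F ∧
      ¬ ∃ L : (Fin (2 * m) → ZMod 2) →ₗ[ZMod 2] (Fin m → ZMod 2), TypeMinus (fun x => F x + L x) := by
  classical
  have : Fact (Nat.Prime 2) := ⟨Nat.prime_two⟩
  have hm0 : m ≠ 0 := by omega
  have : Finite (GaloisField 2 m) := inferInstance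
  let _ : Fintype (GaloisField 2 m) := Fintype.ofFinite _
  have hcard : Fintype.card (GaloisField 2 m) = 2 ^ m := by
    rw [← Nat.card_eq_fintype_card, GaloisField.card 2 m hm0]
  have hfin : Module.finrank (ZMod 2) (GaloisField 2 m) = m := GaloisField.finrank 2 hm0
  have : Module.Finite (ZMod 2) (GaloisField 2 m) := Module.finite_of_finrank_pos (by omega)
  let b : Module.Basis (Fin m) (ZMod 2) (GaloisField 2 m) :=
    Module.finBasisOfFinrankEq _ _ hfin
  obtain ⟨ρ, hρ⟩ := exists_rho m hm hcard b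
  have hfin2 : Module.finrank (ZMod 2) (Fin (2 * m) → ZMod 2) =
      Module.finrank (ZMod 2) (GaloisField 2 m × GaloisField 2 m) := by
    rw [Module.finrank_prod, hfin, Module.finrank_fin_fun]; ring
  let e1 : (Fin (2 * m) → ZMod 2) ≃ₗ[ZMod 2] (GaloisField 2 m × GaloisField 2 m) :=
    LinearEquiv.ofFinrankEq _ _ hfin2
  let e2 : GaloisField 2 m ≃ₗ[ZMod 2] (Fin m → ZMod 2) :=
    LinearEquiv.ofFinrankEq _ _ (by rw [hfin, Module.finrank_fin_fun])
  have h2 : ∀ t : GaloisField 2 m, t + t = 0 := fun t => CharTwo.add_self_eq_zero t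
  refine ⟨fun v => e2 ((e1 v).1 * (e1 v).2 + ρ (e1 v).2), ?_, ?_⟩
  · -- bentness
    intro a ha c
    have e3 : 2 * m - m = m := by omega
    rw [e3, ← hcard]
    set A := e1 a with hA
    have hA0 : A ≠ 0 := by
      rw [hA]; intro h
      exact ha (e1.map_eq_zero_iff.mp h)
    set C := e2.symm c with hC
    have key : (univ.filter (fun x : Fin (2 * m) → ZMod 2 =>
        e2 ((e1 (x + a)).1 * (e1 (x + a)).2 + ρ (e1 (x + a)).2) +
          e2 ((e1 x).1 * (e1 x).2 + ρ (e1 x).2) = c)).card =
        (univ.filter (fun p : GaloisField 2 m × GaloisField 2 m =>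
          (p.1 + A.1) * (p.2 + A.2) + ρ (p.2 + A.2) + (p.1 * p.2 + ρ p.2) = C)).card := by
      apply Finset.card_bij (fun x _ => e1 x)
      · intro x hx
        rw [mem_filter] at hx ⊢
        refine ⟨mem_univ _, ?_⟩
        have h := hx.2
        rw [← map_add] at h
        have h' := congrArg e2.symm h
        rw [LinearEquiv.symm_apply_apply, map_add e1] at h'
        exact h'
      · intro x _ y _ hxy
        exact e1.injective hxy
      · intro p hp
        rw [mem_filter] at hp
        refine ⟨e1.symm p, ?_, e1.apply_symm_apply p⟩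
        rw [mem_filter]
        refine ⟨mem_univ _, ?_⟩
        rw [← map_add, map_add e1, e1.apply_symm_apply]
        have h := congrArg e2 hp.2
        rw [hC, LinearEquiv.apply_symm_apply] at h
        exact h
    rw [key]
    by_cases hA2 : A.2 = 0
    · have hA1 : A.1 ≠ 0 := by
        intro h; exact hA0 (Prod.ext h hA2)
      rw [← Finset.card_univ]
      apply Finset.card_bij (fun p _ => p.1)
      · intro p _; exact mem_univ _
      · intro p hp p' hp' hpp
        rw [mem_filter, hA2] at hp hp'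
        have q1 := hp.2
        have q2 := hp'.2
        rw [add_zero] at q1 q2
        have r1 : A.1 * p.2 = C := by
          linear_combination q1 - h2 (p.1 * p.2) - h2 (ρ p.2)
        have r2 : A.1 * p'.2 = C := by
          linear_combination q2 - h2 (p'.1 * p'.2) - h2 (ρ p'.2)
        exact Prod.ext hpp (mul_left_cancel₀ hA1 (r1.trans r2.symm))
      · intro x _
        refine ⟨(x, C / A.1), ?_, rfl⟩
        rw [mem_filter]
        refine ⟨mem_univ _, ?_⟩
        simp only [hA2, add_zero]
        have : A.1 * (C / A.1) = C := by field_simp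
        linear_combination this + h2 (x * (C / A.1)) + h2 (ρ (C / A.1))
    · rw [← Finset.card_univ]
      apply Finset.card_bij (fun p _ => p.2)
      · intro p _; exact mem_univ _
      · intro p hp p' hp' hpp
        rw [mem_filter] at hp hp'
        have hpp : p.2 = p'.2 := hpp
        have q1 := hp.2
        have q2 := hp'.2
        rw [hpp] at q1
        have r1 : p.1 * A.2 = p'.1 * A.2 := by
          linear_combination q1 - q2 - h2 (p.1 * p'.2) + h2 (p'.1 * p'.2)
        exact Prod.ext (mul_right_cancel₀ hA2 r1) hpp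
      · intro y _
        refine ⟨((C + A.1 * y + A.1 * A.2 + ρ (y + A.2) + ρ y) / A.2, y), ?_, rfl⟩
        rw [mem_filter]
        refine ⟨mem_univ _, ?_⟩
        simp only
        set x := (C + A.1 * y + A.1 * A.2 + ρ (y + A.2) + ρ y) / A.2 with hx
        have : x * A.2 = C + A.1 * y + A.1 * A.2 + ρ (y + A.2) + ρ y := by
          rw [hx]; field_simp
        linear_combination this + h2 (x * y) + h2 (A.1 * y) + h2 (A.1 * A.2) +
          h2 (ρ (y + A.2)) + h2 (ρ y)
  · rintro ⟨L, α, hα, _⟩
    have e3 : 2 * m - m = m := by omega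
    have e4 : 2 * m / 2 = m := by omega
    rw [e3, e4, Nat.sub_self, pow_zero, sub_self, zero_add] at hα
    unfold pre at hα
    obtain ⟨L0, hL0p⟩ : ∃ L0 : (GaloisField 2 m × GaloisField 2 m) →ₗ[ZMod 2] GaloisField 2 m,
        ∀ p, L0 p = e2.symm (L (e1.symm p)) :=
      ⟨(e2.symm.toLinearMap.comp L).comp e1.symm.toLinearMap, fun p => rfl⟩
    have hsplit : ∀ p : GaloisField 2 m × GaloisField 2 m,
        (L0.comp (LinearMap.inl _ _ _)) p.1 + (L0.comp (LinearMap.inr _ _ _)) p.2 =
          e2.symm (L (e1.symm p)) := by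
      intro p
      rw [LinearMap.comp_apply, LinearMap.comp_apply, ← L0.map_add, LinearMap.inl_apply,
        LinearMap.inr_apply, Prod.mk_add_mk, add_zero, zero_add]
      exact hL0p p
    apply hρ (L0.comp (LinearMap.inl _ _ _)) (L0.comp (LinearMap.inr _ _ _)) (e2.symm α)
    unfold Bad
    have hα' : (univ.filter (fun x : Fin (2 * m) → ZMod 2 =>
        e2 ((e1 x).1 * (e1 x).2 + ρ (e1 x).2) + L x = α)).card = 1 := by exact_mod_cast hα
    rw [← hα']
    symm
    apply Finset.card_bij (fun x _ => e1 x)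
    · intro x hx
      rw [mem_filter] at hx ⊢
      refine ⟨mem_univ _, ?_⟩
      have h' := congrArg e2.symm hx.2
      rw [map_add, LinearEquiv.symm_apply_apply] at h'
      rw [← h', hsplit, e1.symm_apply_apply]
    · intro x _ y _ hxy
      exact e1.injective hxy
    · intro p hp
      rw [mem_filter] at hp
      refine ⟨e1.symm p, ?_, e1.apply_symm_apply p⟩
      rw [mem_filter]
      refine ⟨mem_univ _, ?_⟩
      have h := congrArg e2 hp.2
      rw [LinearEquiv.apply_symm_apply, map_add, hsplit, e2.apply_symm_apply] at h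
      rw [e1.apply_symm_apply]
      exact h

end Pool.Agent.R58.BentType
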