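import Pool.Agent.R58.KBentCore

/-! From the second order difference property to the classification. -/

namespace Pool.Agent.R58.KBent

open Finset

variable {ι : Type*} [DecidableEq ι]

lemma connect (U : Finset ι) (φ : Finset ι → ℝ) (r : ℕ)
    (h : ∀ y ⊆ U, y.card + 1 = r → ∀ c ∈ U, ∀ d ∈ U, c ∉ y → d ∉ y →
      φ (insert c y) = φ (insert d y)) :
    ∀ n : ℕ, ∀ S S' : Finset ι, S ⊆ U → S' ⊆ U → S.card = r → S'.card = r → (S \ S').card = n →
      φ S = φ S' := by
  intro n
  induction n with
  | zero =>
    intro S S' _ _ hc hc' h0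
    rw [Finset.card_eq_zero, Finset.sdiff_eq_empty_iff_subset] at h0
    rw [Finset.eq_of_subset_of_card_le h0 (by omega)]
  | succ n ih =>
    intro S S' hS hS' hc hc' hn
    have h1 : (S \ S').Nonempty := by rw [← Finset.card_pos]; omega
    obtain ⟨c, hcm⟩ := h1
    rw [Finset.mem_sdiff] at hcm
    have h2 : (S' \ S).card = (S \ S').card := Finset.card_sdiff_comm (by omega)
    have h3 : (S' \ S).Nonempty := by rw [← Finset.card_pos]; omega
    obtain ⟨d, hdm⟩ := h3
    rw [Finset.mem_sdiff] at hdm
    have hcd : c ≠ d := fun e => hcm.2 (e ▸ hdm.1)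
    have hyU : S.erase c ⊆ U := (Finset.erase_subset _ _).trans hS
    have hcy : c ∉ S.erase c := by simp
    have hdy : d ∉ S.erase c := by simp [hdm.2]
    have hyc : (S.erase c).card + 1 = r := by
      rw [Finset.card_erase_of_mem hcm.1]
      have : 0 < S.card := Finset.card_pos.mpr ⟨c, hcm.1⟩
      omega
    have e1 := h (S.erase c) hyU hyc c (hS hcm.1) d (hS' hdm.1) hcy hdy
    rw [Finset.insert_erase hcm.1] at e1
    rw [e1]
    apply ih (insert d (S.erase c)) S' (Finset.insert_subset (hS' hdm.1) hyU) hS'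
      (by rw [card_insert_of_notMem hdy, hyc]) hc'
    have e2 : insert d (S.erase c) \ S' = (S \ S').erase c := by
      ext x
      simp only [Finset.mem_sdiff, Finset.mem_insert, Finset.mem_erase]
      constructor
      · rintro ⟨h | h, h'⟩
        · exact absurd (h ▸ hdm.1) h'
        · exact ⟨h.1, h.2, h'⟩
      · rintro ⟨h, h', h''⟩
        exact ⟨Or.inr ⟨h, h'⟩, h''⟩
    rw [e2, Finset.card_erase_of_mem (Finset.mem_sdiff.mpr hcm), hn]
    omega

variable [Fintype ι]

/-- second order differences vanish -/
def Slice (G : Finset ι → ℝ) : Prop :=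
  ∀ (y : Finset ι) (a b c d : ι), a ∉ y → b ∉ y → c ∉ y → d ∉ y → a ≠ b → a ≠ c → a ≠ d →
    b ≠ c → b ≠ d → c ≠ d →
    G (insert a (insert c y)) * G (insert b (insert c y)) *
      (G (insert a (insert d y)) * G (insert b (insert d y))) = 1

lemma pm_mul (x y : ℝ) (hx : x = 1 ∨ x = -1) (hy : y = 1 ∨ y = -1) (h : x * y = 1) : x = y := by
  rcases hx with rfl | rfl <;> rcases hy with rfl | rfl
  · rfl
  · norm_num at h
  · norm_num at h
  · rfl

lemma swap_const (G : Finset ι → ℝ) (hG : ∀ S, G S = 1 ∨ G S = -1) (hs : Slice G) (a b : ι)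
    (hab : a ≠ b) (y y' : Finset ι) (ha : a ∉ y) (hb : b ∉ y) (ha' : a ∉ y') (hb' : b ∉ y')
    (hc : y.card = y'.card) :
    G (insert a y) * G (insert b y) = G (insert a y') * G (insert b y') := by
  have hpm : ∀ S, G (insert a S) * G (insert b S) = 1 ∨ G (insert a S) * G (insert b S) = -1 := by
    intro S
    rcases hG (insert a S) with h | h <;> rcases hG (insert b S) with h' | h' <;> simp [h, h']
  apply connect (univ \ {a, b}) (fun S => G (insert a S) * G (insert b S)) y.card _
    (y \ y').card y y' _ _ rfl hc.symm rfl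
  · intro z hz hzc c hcU d hdU hcz hdz
    simp only [Finset.mem_sdiff, Finset.mem_univ, true_and, Finset.mem_insert,
      Finset.mem_singleton, not_or] at hcU hdU
    by_cases hcd : c = d
    · rw [hcd]
    have haz : a ∉ z := by
      intro h
      have := hz h
      simp at this
    have hbz : b ∉ z := by
      intro h
      have := hz h
      simp at this
    exact pm_mul _ _ (hpm _) (hpm _)
      (hs z a b c d haz hbz hcz hdz hab (Ne.symm hcU.1) (Ne.symm hdU.1) (Ne.symm hcU.2)
        (Ne.symm hdU.2) hcd)
  · intro x hx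
    simp only [Finset.mem_sdiff, Finset.mem_univ, true_and, Finset.mem_insert,
      Finset.mem_singleton, not_or]
    exact ⟨fun e => ha (e ▸ hx), fun e => hb (e ▸ hx)⟩
  · intro x hx
    simp only [Finset.mem_sdiff, Finset.mem_univ, true_and, Finset.mem_insert,
      Finset.mem_singleton, not_or]
    exact ⟨fun e => ha' (e ▸ hx), fun e => hb' (e ▸ hx)⟩

lemma level_lin (G : Finset ι → ℝ) (hG : ∀ S, G S = 1 ∨ G S = -1) (hs : Slice G) (r : ℕ)
    (hr : r + 3 ≤ Fintype.card ι) :
    ∃ (w : Finset ι) (s : ℝ), (s = 1 ∨ s = -1) ∧ ∀ S : Finset ι, S.card = r + 1 →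
      G S = s * chi w S := by
  have hne : 0 < Fintype.card ι := by omega
  obtain ⟨o⟩ : Nonempty ι := Fintype.card_pos_iff.mp hne
  -- a set of size r avoiding three points
  have avoid : ∀ a b : ι, ∃ y : Finset ι, y.card = r ∧ o ∉ y ∧ a ∉ y ∧ b ∉ y := by
    intro a b
    have h1 : r ≤ (univ \ ({o, a, b} : Finset ι)).card := by
      rw [Finset.card_sdiff_of_subset (Finset.subset_univ _), Finset.card_univ]
      have : ({o, a, b} : Finset ι).card ≤ 3 := Finset.card_le_three
      omega
    obtain ⟨y, hy, hyc⟩ := Finset.exists_subset_card_eq h1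
    refine ⟨y, hyc, ?_, ?_, ?_⟩
    · intro h; have := hy h; simp at this
    · intro h; have := hy h; simp at this
    · intro h; have := hy h; simp at this
  choose Y hY using avoid
  -- the sign of a relative to o
  set σ : ι → ℝ := fun a => if a = o then 1 else G (insert o (Y a a)) * G (insert a (Y a a))
    with hσ
  have hσpm : ∀ a, σ a = 1 ∨ σ a = -1 := by
    intro a
    rw [hσ]
    dsimp only
    split_ifs
    · left; rfl
    · rcases hG (insert o (Y a a)) with h | h <;> rcases hG (insert a (Y a a)) with h' | h' <;>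
        simp [h, h']
  have hσo : ∀ a y, a ≠ o → o ∉ y → a ∉ y → y.card = r →
      G (insert o y) * G (insert a y) = σ a := by
    intro a y hao hoy hay hyc
    rw [hσ]
    dsimp only
    rw [if_neg hao]
    exact swap_const G hG hs o a hao.symm y (Y a a) hoy hay (hY a a).2.1 (hY a a).2.2.1
      (by rw [hyc, (hY a a).1])
  have hσab : ∀ a b y, a ∉ y → b ∉ y → y.card = r →
      G (insert a y) * G (insert b y) = σ a * σ b := by
    intro a b y ha hb hyc
    by_cases hab : a = b
    · subst hab
      have h1 : G (insert a y) * G (insert a y) = 1 := by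
        rcases hG (insert a y) with h | h <;> simp [h]
      have h2 : σ a * σ a = 1 := by rcases hσpm a with h | h <;> simp [h]
      rw [h1, h2]
    by_cases hao : a = o
    · have h1 : σ a = 1 := by rw [hσ]; simp [hao]
      rw [h1, one_mul, hao]
      exact hσo b y (fun e => hab (by rw [hao, e])) (hao ▸ ha) hb hyc
    by_cases hbo : b = o
    · have h1 : σ b = 1 := by rw [hσ]; simp [hbo]
      rw [h1, mul_one, hbo, mul_comm]
      exact hσo a y hao (hbo ▸ hb) ha hyc
    obtain ⟨h1, h2, h3, h4⟩ := hY a b
    rw [swap_const G hG hs a b hab y (Y a b) ha hb h3 h4 (by rw [hyc, h1])]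
    rw [← hσo a (Y a b) hao h2 h3 h1, ← hσo b (Y a b) hbo h2 h4 h1]
    have h5 : G (insert o (Y a b)) * G (insert o (Y a b)) = 1 := by
      rcases hG (insert o (Y a b)) with h | h <;> simp [h]
    linear_combination (-(G (insert a (Y a b)) * G (insert b (Y a b)))) * h5
  set w : Finset ι := univ.filter (fun a => σ a = -1) with hw
  have hep : ∀ a, ep w a = σ a := by
    intro a
    unfold ep
    rw [hw]
    simp only [Finset.mem_filter, Finset.mem_univ, true_and]
    rcases hσpm a with h | h
    · rw [h]; norm_num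
    · rw [h]; simp
  -- a base set
  obtain ⟨S0, _, hS0⟩ := Finset.exists_subset_card_eq
    (s := (univ : Finset ι)) (n := r + 1) (by rw [Finset.card_univ]; omega)
  refine ⟨w, G S0 * chi w S0, ?_, ?_⟩
  · rcases hG S0 with h | h <;> rcases chi_cases w S0 with h' | h' <;> simp [h, h']
  · intro S hS
    have h1 := connect univ (fun S => G S * chi w S) (r + 1) (by
      intro y _ hyc c _ d _ hcy hdy
      rw [chi_insert _ _ _ hcy, chi_insert _ _ _ hdy, hep, hep]
      have h2 := hσab c d y hcy hdy (by omega)
      have h3 : G (insert c y) = G (insert d y) * (σ c * σ d) := by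
        rw [← h2]
        have h5 : G (insert d y) * G (insert d y) = 1 := by
          rcases hG (insert d y) with h | h <;> simp [h]
        linear_combination (-(G (insert c y))) * h5
      have h4 : σ c * σ c = 1 := by rcases hσpm c with h | h <;> simp [h]
      rw [h3]
      linear_combination (G (insert d y) * σ d * chi w y) * h4)
      (S \ S0).card S S0 (Finset.subset_univ _) (Finset.subset_univ _) hS hS0 rfl
    have h6 := chi_sq w S
    calc G S = (G S * chi w S) * chi w S := by linear_combination (-(G S)) * h6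
      _ = _ := by rw [h1]

/-- the classification of functions with vanishing second order differences -/
theorem classify (m : ℕ) (hm : 2 ≤ m) (hcard : Fintype.card ι = 2 * m) (G : Finset ι → ℝ)
    (hG : ∀ S, G S = 1 ∨ G S = -1) (hs : Slice G)
    (hspec : ∀ Y, |F univ G Y| ≤ 2 ^ m) :
    ∃ (A w : Finset ι) (s t : ℝ), (s = 1 ∨ s = -1) ∧ (t = 1 ∨ t = -1) ∧ Even A.card ∧
      ∀ S, G S = s * chi w S * G0 m A t S := by
  obtain ⟨w, s, hspm, hw⟩ := level_lin G hG hs (m - 1) (by omega)
  have hm1 : m - 1 + 1 = m := by omega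
  rw [hm1] at hw
  have hss : s * s = 1 := by rcases hspm with h | h <;> simp [h]
  set G1 : Finset ι → ℝ := fun S => s * chi w S * G S with hG1
  have hG1pm : ∀ S, G1 S = 1 ∨ G1 S = -1 := by
    intro S
    rw [hG1]
    rcases hspm with h | h <;> rcases chi_cases w S with h' | h' <;>
      rcases hG S with h'' | h'' <;> simp [h, h', h'']
  have hs1 : Slice G1 := by
    intro y a b c d ha hb hc hd hab hac had hbc hbd hcd
    have h := hs y a b c d ha hb hc hd hab hac had hbc hbd hcd
    rw [hG1]
    dsimp only
    have hacy : a ∉ insert c y := by simp [hac, ha]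
    have hady : a ∉ insert d y := by simp [had, ha]
    have hbcy : b ∉ insert c y := by simp [hbc, hb]
    have hbdy : b ∉ insert d y := by simp [hbd, hb]
    rw [chi_insert _ _ _ hacy, chi_insert _ _ _ hbcy, chi_insert _ _ _ hady,
      chi_insert _ _ _ hbdy, chi_insert _ _ _ hc, chi_insert _ _ _ hd]
    have e1 := ep_sq w a
    have e2 := ep_sq w b
    have e3 := ep_sq w c
    have e4 := ep_sq w d
    have e5 := chi_sq w y
    calc _ = (s * s) * (s * s) * (ep w a * ep w a) * (ep w b * ep w b) * (ep w c * ep w c) *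
          (ep w d * ep w d) * (chi w y * chi w y) * (chi w y * chi w y) *
          (G (insert a (insert c y)) * G (insert b (insert c y)) *
      (G (insert a (insert d y)) * G (insert b (insert d y)))) := by ring
      _ = 1 := by rw [hss, e1, e2, e3, e4, e5, h]; ring
  obtain ⟨A, s1, hs1pm, hA⟩ : ∃ (A : Finset ι) (s1 : ℝ), (s1 = 1 ∨ s1 = -1) ∧
      ∀ S : Finset ι, S.card + 1 = m → G1 S = s1 * chi A S := by
    obtain ⟨A, s1, h1, h2⟩ := level_lin G1 hG1pm hs1 (m - 2) (by omega)
    exact ⟨A, s1, h1, fun S hS => h2 S (by omega)⟩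
  have hc := core A m hm univ G1 s1 (by rw [Finset.card_univ, hcard]) ?_ ?_ ?_ hs1pm ?_ ?_
  · refine ⟨A, w, s, -s1, hspm, ?_, ?_, ?_⟩
    · rcases hs1pm with h | h <;> simp [h]
    · have h := hc.1
      rw [chi_eq_pow] at h
      have e : (univ.filter (fun i => i ∈ A)) = A := by ext x; simp
      rw [e] at h
      by_contra hcon
      rw [Nat.not_even_iff_odd] at hcon
      rw [hcon.neg_one_pow] at h
      norm_num at h
    · intro S
      have h := hc.2 S (Finset.subset_univ _)
      rw [← h, hG1]
      dsimp only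
      have h6 := chi_sq w S
      calc G S = (s * s) * (chi w S * chi w S) * G S := by rw [hss, h6]; ring
        _ = _ := by ring
  · intro S _
    rcases hG1pm S with h | h <;> rw [h] <;> norm_num
  · intro Y _
    have h := hspec (symmDiff w Y)
    have e : F univ G1 Y = s * F univ G (symmDiff w Y) := by
      unfold F
      rw [Finset.mul_sum]
      apply Finset.sum_congr rfl
      intro S _
      rw [← chi_mul, hG1]
      ring
    rw [e, abs_mul]
    have : |s| = 1 := by rcases hspm with h | h <;> rw [h] <;> norm_num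
    rw [this, one_mul]
    exact h
  · intro a _ b _ hab r
    by_cases hex : ∃ y : Finset ι, y.card = r ∧ a ∉ y ∧ b ∉ y
    · obtain ⟨y0, hy0, ha0, hb0⟩ := hex
      refine ⟨G1 (insert a y0) * G1 (insert b y0), ?_⟩
      intro y _ hyr hay hby
      rw [← swap_const G1 hG1pm hs1 a b hab y y0 hay hby ha0 hb0 (by rw [hyr, hy0])]
      have h5 : G1 (insert b y) * G1 (insert b y) = 1 := by
        rcases hG1pm (insert b y) with h | h <;> simp [h]
      linear_combination (-(G1 (insert a y))) * h5
    · refine ⟨1, ?_⟩
      intro y _ hyr hay hby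
      exact absurd ⟨y, hyr, hay, hby⟩ hex
  · intro S _ hS
    rw [hG1]
    dsimp only
    rw [hw S hS]
    have h6 := chi_sq w S
    calc s * chi w S * (s * chi w S) = (s * s) * (chi w S * chi w S) := by ring
      _ = 1 := by rw [hss, h6]; ring
  · intro S _ hS
    exact hA S hS

end Pool.Agent.R58.KBent
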