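import Pool.Agent.R58.KBentMain

/-! The converse direction. -/

namespace Pool.Agent.R58.KBent

open Finset

/-- insertion relation gives the two-clique form -/
lemma Pol_of_insert {n : ℕ} (A : Finset (Fin n)) (f : (Fin n → ZMod 2) → ZMod 2)
    (ν : Fin n → ZMod 2)
    (h : ∀ (a : Fin n) (S : Finset (Fin n)), a ∉ S → f (ind (insert a S)) = f (ind S) + ν a +
      ∑ j, if (a ∈ A ↔ j ∈ A) then ind S j else 0) : Pol A f := by
  have hQe : ∀ a : Fin n, QA A (Pi.single a 1) = 0 := by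
    intro a
    unfold QA
    apply Finset.sum_eq_zero
    intro i _
    apply Finset.sum_eq_zero
    intro j _
    split_ifs with hij
    · by_cases hi : i = a
      · have hj : j ≠ a := fun e => (lt_irrefl _ (by rw [← hi] at e; rw [e] at hij; exact hij.1))
        rw [Pi.single_eq_of_ne hj, mul_zero]
      · rw [Pi.single_eq_of_ne hi, zero_mul]
    · rfl
  have key : ∀ S : Finset (Fin n), f (ind S) + QA A (ind S) = f 0 + ∑ i ∈ S, ν i := by
    intro S
    induction S using Finset.induction_on with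
    | empty =>
      have : (ind (∅ : Finset (Fin n))) = 0 := by funext i; simp [ind]
      rw [this, QA_zero]; simp
    | insert a S ha ih =>
      rw [h a S ha, Finset.sum_insert ha, ind_insert a S ha, Pol_QA A, hQe, QA_zero, BA_single]
      have h0 : ind S a = 0 := by simp [ind, ha]
      rw [h0]
      have h2 := add_self2 (∑ j, if (a ∈ A ↔ j ∈ A) then ind S j else 0)
      linear_combination ih + h2
  apply Pol_of_form A f ν (f 0)
  intro x
  obtain ⟨S, rfl⟩ := (indEquiv (ι := Fin n)).surjective x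
  show f (ind S) = QA A (ind S) + ∑ i, ν i * ind S i + f 0
  have h1 := key S
  have h2 : ∑ i, ν i * ind S i = ∑ i ∈ S, ν i := by
    have : ∀ i, ν i * ind S i = if i ∈ S then ν i else 0 := by
      intro i; unfold ind; by_cases h : i ∈ S <;> simp [h]
    rw [Finset.sum_congr rfl (fun i _ => this i)]
    simp
  rw [h2]
  have h3 := add_self2 (QA A (ind S))
  linear_combination h1 - h3

lemma BA_symm_add {n : ℕ} (A : Finset (Fin n)) (x h h' : Fin n → ZMod 2) :
    BA A x (h + h') = BA A x h + BA A x h' := by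
  unfold BA
  rw [← Finset.sum_add_distrib]
  apply Finset.sum_congr rfl
  intro i _
  rw [← Finset.sum_add_distrib]
  apply Finset.sum_congr rfl
  intro j _
  split_ifs
  · simp only [Pi.add_apply]; ring
  · ring

lemma Pol_translate {n : ℕ} (A : Finset (Fin n)) (f : (Fin n → ZMod 2) → ZMod 2)
    (hf : Pol A f) (w : Fin n → ZMod 2) : Pol A (fun x => f (x + w)) := by
  intro x h
  show f (x + h + w) = f (x + w) + f (h + w) + f (0 + w) + BA A x h
  rw [add_assoc, hf x (h + w), hf x w, BA_symm_add, zero_add]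
  have h1 := add_self2 (f w)
  have h2 := add_self2 (BA A x w)
  have h3 := add_self2 (f 0)
  linear_combination (-1 : ZMod 2) * h1

/-- from the classified dual back to the function -/
lemma Pol_of_good (m : ℕ) (f : (Fin (2 * m) → ZMod 2) → ZMod 2)
    (A w : Finset (Fin (2 * m))) (s t : ℝ) (hs : s = 1 ∨ s = -1) (ht : t = 1 ∨ t = -1)
    (hA : Even A.card) (hG : ∀ S, GG m f S = s * chi w S * G0 m A t S) : Pol A f := by
  obtain ⟨k, hk⟩ := hA
  rw [← two_mul] at hk
  have hss : s * s = 1 := by rcases hs with h | h <;> rw [h] <;> norm_num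
  -- the sign of f
  have h1 : ∀ X, (sg (f (ind X)) : ℝ) = s * phi A t (symmDiff w X) := by
    intro X
    have e1 := F_GG m (Fintype.card_fin _) f X
    have e2 : F univ (GG m f) X = s * F univ (G0 m A t) (symmDiff w X) := by
      unfold F
      rw [Finset.mul_sum]
      apply Finset.sum_congr rfl
      intro S _
      rw [hG, ← chi_mul]; ring
    rw [e2, F_G0 univ A _ m t (by rw [Finset.card_univ, Fintype.card_fin])] at e1
    have e3 : ∀ Y : Finset (Fin (2 * m)), univ.filter (fun i => i ∈ Y) = Y := by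
      intro Y; ext x; simp
    rw [e3, e3] at e1
    have hpos : (0 : ℝ) < 2 ^ m := by positivity
    have e4 : (2 : ℝ) ^ m * (sg (f (ind X)) : ℝ) = 2 ^ m * (s * phi A t (symmDiff w X)) := by
      rw [← e1]; unfold phi; ring
    exact mul_left_cancel₀ hpos.ne' e4
  set f0 : (Fin (2 * m) → ZMod 2) → ZMod 2 := fun x => f (x + ind w) with hf0
  have h2 : ∀ Z, (sg (f0 (ind Z)) : ℝ) = s * phi A t Z := by
    intro Z
    rw [hf0]
    dsimp only
    rw [← ind_symmDiff, h1]
    congr 2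
    rw [symmDiff_comm Z w, symmDiff_symmDiff_cancel_left]
  have hP0 : Pol A f0 := by
    have hν : ∀ a : Fin (2 * m), ∃ ν : ZMod 2, ((sg ν : ℤ) : ℝ) =
        (if a ∈ A then t * (-1) ^ k else -(t * (-1) ^ k)) := by
      intro a
      have : (if a ∈ A then t * (-1 : ℝ) ^ k else -(t * (-1) ^ k)) = 1 ∨
          (if a ∈ A then t * (-1 : ℝ) ^ k else -(t * (-1) ^ k)) = -1 := by
        rcases ht with h | h <;> rcases neg_one_pow_eq_or ℝ k with h' | h' <;> rw [h, h'] <;>
          split_ifs <;> norm_num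
      rcases this with h | h
      · exact ⟨0, by rw [h]; simp⟩
      · exact ⟨1, by rw [h, sg_one]; simp⟩
    choose ν hν using hν
    apply Pol_of_insert A f0 ν
    intro a S ha
    apply sg_inj
    have e1 := phi_insert A k hk t ht a S ha
    have e2 : (((sg (∑ j, if (a ∈ A ↔ j ∈ A) then ind S j else 0)) : ℤ) : ℝ) =
        (-1) ^ (S.filter (fun j => (a ∈ A ↔ j ∈ A))).card := by
      have e3 : (∑ j, if (a ∈ A ↔ j ∈ A) then ind S j else 0) =
          ∑ j ∈ S.filter (fun j => (a ∈ A ↔ j ∈ A)), 1 := by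
        rw [Finset.sum_filter]
        have : ∀ j, (if (a ∈ A ↔ j ∈ A) then ind S j else 0) =
            if j ∈ S then (if (a ∈ A ↔ j ∈ A) then 1 else 0) else 0 := by
          intro j; unfold ind; by_cases h : j ∈ S <;> simp [h]
        rw [Finset.sum_congr rfl (fun j _ => this j)]
        simp
      rw [e3, sg_sum, Finset.prod_const, sg_one]
      push_cast; rfl
    have e4 : ((sg (f0 (ind (insert a S))) : ℤ) : ℝ) * ((sg (f0 (ind S)) : ℤ) : ℝ) =
        ((sg (ν a) : ℤ) : ℝ) * ((sg (∑ j, if (a ∈ A ↔ j ∈ A) then ind S j else 0) : ℤ) : ℝ) := by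
      rw [h2, h2, e2, hν, ← e1]
      linear_combination (phi A t (insert a S) * phi A t S) * hss
    rw [sg_add, sg_add]
    have e5 : sg (f0 (ind (insert a S))) * sg (f0 (ind S)) =
        sg (ν a) * sg (∑ j, if (a ∈ A ↔ j ∈ A) then ind S j else 0) := by exact_mod_cast e4
    have e6 : sg (f0 (ind S)) * sg (f0 (ind S)) = 1 := by
      rcases sg_cases (f0 (ind S)) with h | h <;> rw [h] <;> norm_num
    linear_combination (sg (f0 (ind S))) * e5 - (sg (f0 (ind (insert a S)))) * e6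
  have h3 : f = fun x => f0 (x + ind w) := by
    funext x
    rw [hf0]
    dsimp only
    rw [add_assoc, add_self_fun, add_zero]
  rw [h3]
  exact Pol_translate A f0 hP0 (ind w)

/-- indicator of a pair -/
def eP {m : ℕ} (i : Fin m) : Fin (2 * m) → ZMod 2 :=
  Pi.single (⟨2 * i.val, by omega⟩ : Fin (2 * m)) (1 : ZMod 2) +
    Pi.single (⟨2 * i.val + 1, by omega⟩ : Fin (2 * m)) (1 : ZMod 2)

lemma dot_eP {m : ℕ} (x : Fin (2 * m) → ZMod 2) (i : Fin m) : dot x (eP i) = uu x i := by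
  unfold eP
  rw [dot_add_right, dot_comm, dot_single, dot_comm, dot_single]
  rfl

lemma brk_one {m : ℕ} (hm : 0 < m) (x y : Fin (2 * m) → ZMod 2) :
    brk 1 x y = dot x y + uu x ⟨0, hm⟩ * uu y ⟨0, hm⟩ := by
  unfold brk
  change dot x y + _ = _
  congr 1
  rw [Finset.sum_eq_single ⟨0, hm⟩]
  · rw [Finset.sum_eq_single ⟨0, hm⟩]
    · simp only [le_refl, zero_lt_one, and_self, if_true]
      generalize uu x ⟨0, hm⟩ = p
      generalize uu y ⟨0, hm⟩ = q
      revert p q; decide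
    · intro j _ hj
      rw [if_neg]
      rintro ⟨_, h⟩
      apply hj; ext; simp only; omega
    · intro h; exact absurd (Finset.mem_univ _) h
  · intro i _ hi
    apply Finset.sum_eq_zero
    intro j _
    rw [if_neg]
    rintro ⟨h1, h⟩
    apply hi; ext
    have := Fin.le_def.mp h1
    simp only; omega
  · intro h; exact absurd (Finset.mem_univ _) h

lemma brk_two {m : ℕ} (hm : 1 < m) (x y : Fin (2 * m) → ZMod 2) :
    brk 2 x y = dot x y + (uu x ⟨0, by omega⟩ * uu y ⟨0, by omega⟩ +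
      uu x ⟨0, by omega⟩ * uu x ⟨1, hm⟩ * uu y ⟨0, by omega⟩ * uu y ⟨1, hm⟩ +
      uu x ⟨1, hm⟩ * uu y ⟨1, hm⟩) := by
  unfold brk
  change dot x y + _ = _
  congr 1
  have hne : (⟨0, by omega⟩ : Fin m) ≠ ⟨1, hm⟩ := by
    intro h; rw [Fin.mk.injEq] at h; omega
  have hz : ∀ i j : Fin m, (j ≠ ⟨0, by omega⟩ ∧ j ≠ ⟨1, hm⟩) →
      (if i ≤ j ∧ j.val < 2 then uu x i * uu x j * uu y i * uu y j else 0) = 0 := by
    rintro i j ⟨h0, h1⟩
    rw [if_neg]
    rintro ⟨_, h⟩
    have h0' : j.val ≠ 0 := fun e => h0 (by ext; exact e)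
    have h1' : j.val ≠ 1 := fun e => h1 (by ext; exact e)
    omega
  rw [Finset.sum_eq_add ⟨0, by omega⟩ ⟨1, hm⟩ hne]
  · rw [Finset.sum_eq_add ⟨0, by omega⟩ ⟨1, hm⟩ hne (fun j _ h => hz _ j h)
      (fun h => absurd (Finset.mem_univ _) h) (fun h => absurd (Finset.mem_univ _) h),
      Finset.sum_eq_add ⟨0, by omega⟩ ⟨1, hm⟩ hne (fun j _ h => hz _ j h)
      (fun h => absurd (Finset.mem_univ _) h) (fun h => absurd (Finset.mem_univ _) h)]
    have c1 : ((⟨0, by omega⟩ : Fin m) ≤ ⟨0, by omega⟩ ∧ (0 : ℕ) < 2) := ⟨le_refl _, by norm_num⟩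
    have c2 : ((⟨0, by omega⟩ : Fin m) ≤ ⟨1, hm⟩ ∧ (1 : ℕ) < 2) :=
      ⟨by rw [Fin.le_def]; simp, by norm_num⟩
    have c3 : ¬ ((⟨1, hm⟩ : Fin m) ≤ ⟨0, by omega⟩ ∧ (0 : ℕ) < 2) := by
      rintro ⟨h, _⟩; rw [Fin.le_def] at h; simp at h
    have c4 : ((⟨1, hm⟩ : Fin m) ≤ ⟨1, hm⟩ ∧ (1 : ℕ) < 2) := ⟨le_refl _, by norm_num⟩
    rw [if_pos c1, if_pos c2, if_neg c3, if_pos c4]
    generalize uu x ⟨0, _⟩ = p
    generalize uu y ⟨0, _⟩ = q
    generalize uu x ⟨1, hm⟩ = r
    generalize uu y ⟨1, hm⟩ = s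
    revert p q r s; decide
  · intro i _ hi
    apply Finset.sum_eq_zero
    intro j _
    rw [if_neg]
    rintro ⟨h1, h⟩
    have := Fin.le_def.mp h1
    have h0' : i.val ≠ 0 := fun e => hi.1 (by ext; exact e)
    have h1' : i.val ≠ 1 := fun e => hi.2 (by ext; exact e)
    omega
  · intro h; exact absurd (Finset.mem_univ _) h
  · intro h; exact absurd (Finset.mem_univ _) h

lemma uu_eP {m : ℕ} (i j : Fin m) : uu (eP i) j = 0 := by
  unfold eP
  rw [uu_add, uu_single0, uu_single1]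
  exact add_self2 _

lemma WH_one {m : ℕ} (hm : 0 < m) (f : (Fin (2 * m) → ZMod 2) → ZMod 2)
    (y : Fin (2 * m) → ZMod 2) :
    WH 1 f (y + uu y ⟨0, hm⟩ • eP ⟨0, hm⟩) = wal f y := by
  have h0 : uu (y + uu y ⟨0, hm⟩ • eP ⟨0, hm⟩) ⟨0, hm⟩ = uu y ⟨0, hm⟩ := by
    rw [uu_add]
    rcases zmod2 (uu y ⟨0, hm⟩) with h | h
    · rw [h, zero_smul]; simp [uu]
    · rw [h, one_smul, uu_eP, add_zero]
  unfold WH wal
  apply Finset.sum_congr rfl
  intro x _
  change sg _ = sg _
  congr 1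
  rw [brk_one hm, h0, dot_add_right]
  have : dot x (uu y ⟨0, hm⟩ • eP ⟨0, hm⟩) = uu x ⟨0, hm⟩ * uu y ⟨0, hm⟩ := by
    rcases zmod2 (uu y ⟨0, hm⟩) with h | h
    · rw [h, zero_smul, mul_zero]; simp [dot]
    · rw [h, one_smul, dot_eP, mul_one]
  rw [this]
  have := add_self2 (uu x ⟨0, hm⟩ * uu y ⟨0, hm⟩)
  linear_combination this

lemma WH_two {m : ℕ} (hm : 1 < m) (f : (Fin (2 * m) → ZMod 2) → ZMod 2)
    (y : Fin (2 * m) → ZMod 2) (h0 : uu y ⟨0, by omega⟩ = 1) (h1 : uu y ⟨1, hm⟩ = 1) :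
    2 * WH 2 f y = - wal f y + wal f (y + eP ⟨0, by omega⟩) + wal f (y + eP ⟨1, hm⟩) +
      wal f (y + eP ⟨0, by omega⟩ + eP ⟨1, hm⟩) := by
  unfold WH wal
  rw [Finset.mul_sum, ← Finset.sum_neg_distrib, ← Finset.sum_add_distrib,
    ← Finset.sum_add_distrib, ← Finset.sum_add_distrib]
  apply Finset.sum_congr rfl
  intro x _
  change 2 * sg _ = _
  rw [brk_two hm, h0, h1]
  simp only [dot_add_right, dot_eP, mul_one, sg_add]
  have key : ∀ p q : ZMod 2, 2 * (sg p * sg (p * q) * sg q) = -1 + sg p + sg q + sg p * sg q := by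
    decide
  have := key (uu x ⟨0, by omega⟩) (uu x ⟨1, hm⟩)
  linear_combination (sg (f x) * sg (dot x y)) * this

end Pool.Agent.R58.KBent
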