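import Mathlib

/-!
Core combinatorial classification used for `(n/2)`-bent functions: a real function on the subsets
of a `2m`-element set, bounded by one, with Walsh spectrum bounded by `2^m`, equal to one on the
middle level, signed linear on the level below, and with the swap property on all levels, is the
explicit function `G0`.
-/

namespace Pool.Agent.R58.KBent

open Finset

variable {ι : Type*} [DecidableEq ι]

/-- the character `S ↦ (-1)^|S ∩ Y|`, as a product -/
noncomputable def chi (Y S : Finset ι) : ℝ := ∏ i ∈ S, (if i ∈ Y then (-1 : ℝ) else 1)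

/-- the sign of one element -/
noncomputable def ep (Y : Finset ι) (i : ι) : ℝ := if i ∈ Y then (-1 : ℝ) else 1

lemma ep_sq (Y : Finset ι) (i : ι) : ep Y i * ep Y i = 1 := by
  unfold ep; split_ifs <;> norm_num

lemma ep_cases (Y : Finset ι) (i : ι) : ep Y i = 1 ∨ ep Y i = -1 := by
  unfold ep; split_ifs <;> simp

@[simp] lemma chi_empty (Y : Finset ι) : chi Y ∅ = 1 := by simp [chi]

lemma chi_insert (Y S : Finset ι) (a : ι) (h : a ∉ S) :
    chi Y (insert a S) = ep Y a * chi Y S := by
  unfold chi ep; rw [Finset.prod_insert h]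

lemma chi_cases (Y S : Finset ι) : chi Y S = 1 ∨ chi Y S = -1 := by
  induction S using Finset.induction_on with
  | empty => left; simp
  | insert a S ha ih =>
    rw [chi_insert _ _ _ ha]
    rcases ep_cases Y a with h | h <;> rcases ih with h' | h' <;> simp [h, h']

lemma chi_sq (Y S : Finset ι) : chi Y S * chi Y S = 1 := by
  rcases chi_cases Y S with h | h <;> simp [h]

lemma chi_congr (Y Y' S : Finset ι) (h : ∀ i ∈ S, (i ∈ Y ↔ i ∈ Y')) : chi Y S = chi Y' S := by
  unfold chi
  apply Finset.prod_congr rfl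
  intro i hi
  simp [h i hi]

/-- `I^(3m+k)`, i.e. `I^(k-m)` -/
noncomputable def ee (m k : ℕ) : ℂ := Complex.I ^ (3 * m + k)

lemma ee_cases (m k : ℕ) :
    (((ee m k).re = 1 ∨ (ee m k).re = -1) ∧ (ee m k).im = 0) ∨
    ((ee m k).re = 0 ∧ ((ee m k).im = 1 ∨ (ee m k).im = -1)) := by
  unfold ee
  rw [Complex.I_pow_eq_pow_mod]
  have : (3 * m + k) % 4 < 4 := Nat.mod_lt _ (by norm_num)
  interval_cases h : (3 * m + k) % 4
  · left; simp
  · right; simp
  · left; simp
  · right
    have : Complex.I ^ 3 = -Complex.I := by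
      rw [pow_succ, Complex.I_sq]; ring
    rw [this]; simp

lemma ee_succ (m k : ℕ) : ee (m + 1) (k + 1) = ee m k := by
  unfold ee
  have : 3 * (m + 1) + (k + 1) = (3 * m + k) + 4 := by ring
  rw [this, pow_add, Complex.I_pow_four, mul_one]

lemma ee_self (m : ℕ) : ee m m = 1 := by
  unfold ee
  have : 3 * m + m = 4 * m := by ring
  rw [this, pow_mul, Complex.I_pow_four, one_pow]

lemma ee_low (m : ℕ) : ee (m + 1) m = -Complex.I := by
  unfold ee
  have : 3 * (m + 1) + m = 4 * m + 3 := by ring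
  rw [this, pow_add, pow_mul, Complex.I_pow_four, one_pow, one_mul]
  rw [pow_succ, Complex.I_sq]; ring

/-- the good function -/
noncomputable def G0 (m : ℕ) (A : Finset ι) (s : ℝ) (S : Finset ι) : ℝ :=
  (ee m S.card).re + s * chi A S * (ee m S.card).im

lemma G0_cases (m : ℕ) (A : Finset ι) (s : ℝ) (hs : s = 1 ∨ s = -1) (S : Finset ι) :
    G0 m A s S = 1 ∨ G0 m A s S = -1 := by
  unfold G0
  rcases ee_cases m S.card with ⟨h1, h2⟩ | ⟨h1, h2⟩
  · rw [h2]; simpa using h1
  · rw [h1]
    rcases hs with h | h <;> rcases chi_cases A S with h' | h' <;> rcases h2 with h'' | h'' <;>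
      simp [h, h', h'']

lemma G0_ratio (m : ℕ) (A : Finset ι) (s : ℝ) (y y' : Finset ι) (a b : ι)
    (ha : a ∉ y) (hb : b ∉ y) (ha' : a ∉ y') (hb' : b ∉ y') (hc : y.card = y'.card) :
    G0 m A s (insert a y) * G0 m A s (insert b y') =
      G0 m A s (insert b y) * G0 m A s (insert a y') := by
  unfold G0
  rw [card_insert_of_notMem ha, card_insert_of_notMem hb, card_insert_of_notMem ha',
    card_insert_of_notMem hb', ← hc, chi_insert _ _ _ ha, chi_insert _ _ _ hb,
    chi_insert _ _ _ ha', chi_insert _ _ _ hb']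
  rcases ee_cases m (y.card + 1) with ⟨h1, h2⟩ | ⟨h1, h2⟩
  · rw [h2]; ring
  · rw [h1]; ring

/-- Walsh coefficient over `U` -/
noncomputable def F (U : Finset ι) (G : Finset ι → ℝ) (Y : Finset ι) : ℝ :=
  ∑ S ∈ U.powerset, G S * chi Y S

/-- descent along a pair -/
noncomputable def desc (a b : ι) (G : Finset ι → ℝ) (z : Finset ι) : ℝ :=
  (G (insert a z) + G (insert b z)) / 2

lemma F_desc (U' : Finset ι) (a b : ι) (hab : a ≠ b) (ha : a ∉ U') (hb : b ∉ U')
    (G : Finset ι → ℝ) (Y : Finset ι) (hY : Y ⊆ U') :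
    F U' (desc a b G) Y =
      (F (insert a (insert b U')) G Y - F (insert a (insert b U')) G (insert a (insert b Y))) / 4 := by
  have ha' : a ∉ insert b U' := by simp [hab, ha]
  unfold F
  rw [Finset.sum_powerset_insert ha', Finset.sum_powerset_insert hb, Finset.sum_powerset_insert hb,
    Finset.sum_powerset_insert ha', Finset.sum_powerset_insert hb, Finset.sum_powerset_insert hb]
  rw [← Finset.sum_add_distrib, ← Finset.sum_add_distrib, ← Finset.sum_add_distrib,
    ← Finset.sum_add_distrib, ← Finset.sum_add_distrib, ← Finset.sum_add_distrib,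
    ← Finset.sum_sub_distrib, Finset.sum_div]
  apply Finset.sum_congr rfl
  intro z hz
  rw [Finset.mem_powerset] at hz
  have haz : a ∉ z := fun h => ha (hz h)
  have hbz : b ∉ z := fun h => hb (hz h)
  have haY : a ∉ Y := fun h => ha (hY h)
  have hbY : b ∉ Y := fun h => hb (hY h)
  have habz : a ∉ insert b z := by simp [hab, haz]
  have hc : chi (insert a (insert b Y)) z = chi Y z := by
    apply chi_congr
    intro i hi
    have h1 : i ≠ a := fun h => haz (h ▸ hi)
    have h2 : i ≠ b := fun h => hbz (h ▸ hi)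
    simp [h1, h2]
  rw [chi_insert _ _ _ habz, chi_insert _ _ _ haz, chi_insert _ _ _ hbz, chi_insert _ _ _ habz,
    chi_insert _ _ _ haz, chi_insert _ _ _ hbz, hc]
  have e1 : ep Y a = 1 := by simp [ep, haY]
  have e2 : ep Y b = 1 := by simp [ep, hbY]
  have e3 : ep (insert a (insert b Y)) a = -1 := by simp [ep]
  have e4 : ep (insert a (insert b Y)) b = -1 := by simp [ep]
  rw [e1, e2, e3, e4]
  unfold desc
  ring

lemma chi_eq_pow (Y S : Finset ι) : chi Y S = (-1) ^ (S.filter (fun i => i ∈ Y)).card := by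
  unfold chi
  rw [Finset.prod_ite]
  simp

lemma chi_mul (A Y S : Finset ι) : chi A S * chi Y S = chi (symmDiff A Y) S := by
  unfold chi
  rw [← Finset.prod_mul_distrib]
  apply Finset.prod_congr rfl
  intro i _
  by_cases h1 : i ∈ A <;> by_cases h2 : i ∈ Y <;> simp [Finset.mem_symmDiff, h1, h2]

lemma sum_ee (U Y : Finset ι) (m : ℕ) (hU : U.card = 2 * m) :
    ∑ S ∈ U.powerset, ((chi Y S : ℝ) : ℂ) * ee m S.card =
      2 ^ m * (-Complex.I) ^ (U.filter (fun i => i ∈ Y)).card := by
  have h1 : ∀ S ∈ U.powerset, ((chi Y S : ℝ) : ℂ) * ee m S.card =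
      Complex.I ^ (3 * m) * ∏ i ∈ S, (Complex.I * (if i ∈ Y then (-1 : ℂ) else 1)) := by
    intro S _
    rw [Finset.prod_mul_distrib, Finset.prod_const]
    unfold ee chi
    rw [pow_add]
    push_cast
    have : ∀ i, (((if i ∈ Y then (-1 : ℝ) else 1) : ℝ) : ℂ) = (if i ∈ Y then (-1 : ℂ) else 1) := by
      intro i; split_ifs <;> simp
    simp only [this]
    ring
  rw [Finset.sum_congr rfl h1, ← Finset.mul_sum, ← Finset.prod_one_add]
  have h2 : ∀ i ∈ U, (1 + Complex.I * (if i ∈ Y then (-1 : ℂ) else 1)) =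
      (if i ∈ Y then (-Complex.I) else 1) * (1 + Complex.I) := by
    intro i _
    split_ifs
    · have := Complex.I_mul_I
      linear_combination this
    · ring
  rw [Finset.prod_congr rfl h2, Finset.prod_mul_distrib, Finset.prod_const, hU, Finset.prod_ite]
  simp only [Finset.prod_const, one_pow, mul_one]
  have h3 : (1 + Complex.I) ^ (2 * m) = 2 ^ m * Complex.I ^ m := by
    rw [pow_mul, ← mul_pow]
    congr 1
    have := Complex.I_mul_I
    linear_combination this
  rw [h3]
  have h4 : Complex.I ^ (3 * m) * Complex.I ^ m = 1 := by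
    rw [← pow_add]
    have : 3 * m + m = 4 * m := by ring
    rw [this, pow_mul, Complex.I_pow_four, one_pow]
  linear_combination ((-Complex.I) ^ (U.filter (fun i => i ∈ Y)).card * 2 ^ m) * h4

lemma F_G0 (U A Y : Finset ι) (m : ℕ) (s : ℝ) (hU : U.card = 2 * m) :
    F U (G0 m A s) Y = 2 ^ m * ((-Complex.I) ^ (U.filter (fun i => i ∈ Y)).card).re +
      s * (2 ^ m * ((-Complex.I) ^ (U.filter (fun i => i ∈ symmDiff A Y)).card).im) := by
  have e1 := congrArg Complex.re (sum_ee U Y m hU)
  have e2 := congrArg Complex.im (sum_ee U (symmDiff A Y) m hU)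
  have c : ((2 : ℂ) ^ m) = (((2 : ℝ) ^ m : ℝ) : ℂ) := by push_cast; rfl
  rw [c] at e1 e2
  rw [Complex.re_sum, Complex.re_ofReal_mul] at e1
  rw [Complex.im_sum, Complex.im_ofReal_mul] at e2
  rw [← e1, ← e2, Finset.mul_sum, ← Finset.sum_add_distrib]
  unfold F G0
  apply Finset.sum_congr rfl
  intro S _
  rw [Complex.re_ofReal_mul, Complex.im_ofReal_mul, ← chi_mul]
  ring

lemma negI_pow_re_odd (n : ℕ) (h : (-1 : ℝ) ^ n = -1) : ((-Complex.I) ^ n).re = 0 := by
  have hodd : Odd n := by
    by_contra hc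
    rw [Nat.not_odd_iff_even] at hc
    rw [hc.neg_one_pow] at h
    norm_num at h
  obtain ⟨k, rfl⟩ := hodd
  rw [pow_succ, pow_mul]
  have : (-Complex.I) ^ 2 = -1 := by rw [neg_sq, Complex.I_sq]
  rw [this]
  rcases neg_one_pow_eq_or ℂ k with h | h <;> rw [h] <;> simp

lemma negI_pow_im_even (n : ℕ) (h : (-1 : ℝ) ^ n = 1) : ((-Complex.I) ^ n).im = 0 := by
  have hev : Even n := by
    by_contra hc
    rw [Nat.not_even_iff_odd] at hc
    rw [hc.neg_one_pow] at h
    norm_num at h
  obtain ⟨k, rfl⟩ := hev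
  rw [← two_mul, pow_mul]
  have : (-Complex.I) ^ 2 = -1 := by rw [neg_sq, Complex.I_sq]
  rw [this]
  rcases neg_one_pow_eq_or ℂ k with h | h <;> rw [h] <;> simp

lemma filter_symm (U A W : Finset ι) (hW : W ⊆ U) :
    U.filter (fun i => i ∈ symmDiff A (U.filter (fun i => i ∈ symmDiff A W))) = W := by
  ext x
  simp only [mem_filter, Finset.mem_symmDiff]
  by_cases hU : x ∈ U
  · by_cases hA : x ∈ A <;> by_cases hx : x ∈ W <;> simp [hU, hA, hx]
  · have : x ∉ W := fun h => hU (hW h)
    simp [hU, this]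

/-- rigidity of the two extreme levels -/
lemma ends (U A : Finset ι) (m : ℕ) (hm : 2 ≤ m) (hU : U.card = 2 * m) (s : ℝ)
    (hs : s = 1 ∨ s = -1) (hA : chi A U = 1) (G : Finset ι → ℝ)
    (hG : ∀ S ⊆ U, S ≠ ∅ → S ≠ U → G S = G0 m A s S)
    (hspec : ∀ Y ⊆ U, |F U G Y| ≤ 2 ^ m) : ∀ S ⊆ U, G S = G0 m A s S := by
  have hne : (∅ : Finset ι) ≠ U := by
    intro h
    rw [← h] at hU
    simp at hU; omega
  set α := G ∅ - G0 m A s ∅ with hα
  set β := G U - G0 m A s U with hβ
  have hF : ∀ Y, F U G Y = F U (G0 m A s) Y + (α + β * chi Y U) := by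
    intro Y
    unfold F
    rw [← sub_eq_iff_eq_add', ← Finset.sum_sub_distrib]
    rw [Finset.sum_eq_add ∅ U hne]
    · rw [hα, hβ]; simp; ring
    · intro S hS hS2
      rw [Finset.mem_powerset] at hS
      rw [hG S hS hS2.1 hS2.2]; ring
    · intro h; exact absurd (Finset.empty_mem_powerset U) h
    · intro h; exact absurd (Finset.mem_powerset_self U) h
  have hpos : (0 : ℝ) < 2 ^ m := by positivity
  obtain ⟨c, hc, d, hd, e, he, hcd, hce, hde⟩ := Finset.two_lt_card.mp (by omega : 2 < U.card)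
  -- the four test sets
  have t1 := hspec ∅ (Finset.empty_subset _)
  have t2 := hspec {c, d} (by intro x hx; simp at hx; rcases hx with rfl | rfl <;> assumption)
  set Y3 := U.filter (fun i => i ∈ symmDiff A {c}) with hY3
  set Y4 := U.filter (fun i => i ∈ symmDiff A {c, d, e}) with hY4
  have t3 := hspec Y3 (Finset.filter_subset _ _)
  have t4 := hspec Y4 (Finset.filter_subset _ _)
  rw [hF, F_G0 U A _ m s hU] at t1 t2 t3 t4
  have u1 : (U.filter (fun i => i ∈ (∅ : Finset ι))).card = 0 := by simp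
  have u2 : (U.filter (fun i => i ∈ ({c, d} : Finset ι))).card = 2 := by
    have : U.filter (fun i => i ∈ ({c, d} : Finset ι)) = {c, d} := by
      ext x; simp only [mem_filter, mem_insert, mem_singleton]
      constructor
      · exact fun h => h.2
      · intro h; refine ⟨?_, h⟩
        rcases h with rfl | rfl <;> assumption
    rw [this, card_pair hcd]
  have w1 : chi (∅ : Finset ι) U = 1 := by rw [chi_eq_pow, u1]; simp
  have w2 : chi ({c, d} : Finset ι) U = 1 := by rw [chi_eq_pow, u2]; simp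
  have v1 : ((-Complex.I) ^ (U.filter (fun i => i ∈ symmDiff A (∅ : Finset ι))).card).im = 0 := by
    apply negI_pow_im_even
    rw [← chi_eq_pow, ← chi_mul, hA, w1, one_mul]
  have v2 : ((-Complex.I) ^ (U.filter (fun i => i ∈ symmDiff A ({c, d} : Finset ι))).card).im
      = 0 := by
    apply negI_pow_im_even
    rw [← chi_eq_pow, ← chi_mul, hA, w2, one_mul]
  rw [v1, u1, w1] at t1
  rw [v2, u2, w2] at t2
  have x1 : ((-Complex.I) ^ 0).re = 1 := by simp
  have x2 : ((-Complex.I) ^ 2).re = -1 := by rw [neg_sq, Complex.I_sq]; simp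
  rw [x1] at t1
  rw [x2] at t2
  -- odd sets
  have a3 : U.filter (fun i => i ∈ symmDiff A Y3) = {c} :=
    filter_symm U A {c} (by intro x hx; simp at hx; subst hx; exact hc)
  have a4 : U.filter (fun i => i ∈ symmDiff A Y4) = {c, d, e} :=
    filter_symm U A {c, d, e} (by
      intro x hx; simp only [mem_insert, mem_singleton] at hx
      rcases hx with rfl | rfl | rfl <;> assumption)
  have b3 : chi Y3 U = -1 := by
    have : chi (symmDiff A Y3) U = -1 := by rw [chi_eq_pow, a3]; simp
    rw [← chi_mul, hA, one_mul] at this; exact this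
  have b4 : chi Y4 U = -1 := by
    have : chi (symmDiff A Y4) U = -1 := by
      rw [chi_eq_pow, a4]
      have : ({c, d, e} : Finset ι).card = 3 := by
        rw [card_eq_three]; exact ⟨c, d, e, hcd, hce, hde, rfl⟩
      rw [this]; norm_num
    rw [← chi_mul, hA, one_mul] at this; exact this
  have c3 : ((-Complex.I) ^ (U.filter (fun i => i ∈ Y3)).card).re = 0 := by
    apply negI_pow_re_odd; rw [← chi_eq_pow]; exact b3
  have c4 : ((-Complex.I) ^ (U.filter (fun i => i ∈ Y4)).card).re = 0 := by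
    apply negI_pow_re_odd; rw [← chi_eq_pow]; exact b4
  have d3 : ((-Complex.I) ^ (U.filter (fun i => i ∈ symmDiff A Y3)).card).im = -1 := by
    rw [a3]; simp
  have d4 : ((-Complex.I) ^ (U.filter (fun i => i ∈ symmDiff A Y4)).card).im = 1 := by
    rw [a4]
    have : ({c, d, e} : Finset ι).card = 3 := by
      rw [card_eq_three]; exact ⟨c, d, e, hcd, hce, hde, rfl⟩
    rw [this]
    have : (-Complex.I) ^ 3 = Complex.I := by
      rw [pow_succ, neg_sq, Complex.I_sq]; ring
    rw [this]; simp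
  rw [c3, d3, b3] at t3
  rw [c4, d4, b4] at t4
  rw [abs_le] at t1 t2 t3 t4
  have r1 : α + β = 0 := by linarith [t1.2, t2.1]
  have r2 : α - β = 0 := by
    rcases hs with h | h <;> subst h
    · linarith [t3.1, t3.2, t4.1, t4.2]
    · linarith [t3.1, t3.2, t4.1, t4.2]
  have r3 : α = 0 := by linarith
  have r4 : β = 0 := by linarith
  intro S hS
  by_cases h1 : S = ∅
  · subst h1; linarith
  by_cases h2 : S = U
  · rw [h2]; linarith
  exact hG S hS h1 h2

lemma F4 (a b c d : ι) (hab : a ≠ b) (hac : a ≠ c) (had : a ≠ d) (hbc : b ≠ c) (hbd : b ≠ d)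
    (hcd : c ≠ d) (G : Finset ι → ℝ) (Y : Finset ι) :
    F {a, b, c, d} G Y = G ∅ + (G {a} * ep Y a + G {b} * ep Y b + G {c} * ep Y c + G {d} * ep Y d)
      + (G {a, b} * (ep Y a * ep Y b) + G {a, c} * (ep Y a * ep Y c) + G {a, d} * (ep Y a * ep Y d)
        + G {b, c} * (ep Y b * ep Y c) + G {b, d} * (ep Y b * ep Y d)
        + G {c, d} * (ep Y c * ep Y d))
      + (G {b, c, d} * (ep Y b * ep Y c * ep Y d) + G {a, c, d} * (ep Y a * ep Y c * ep Y d)
        + G {a, b, d} * (ep Y a * ep Y b * ep Y d) + G {a, b, c} * (ep Y a * ep Y b * ep Y c))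
      + G {a, b, c, d} * (ep Y a * ep Y b * ep Y c * ep Y d) := by
  have h1 : a ∉ ({b, c, d} : Finset ι) := by simp [hab, hac, had]
  have h2 : b ∉ ({c, d} : Finset ι) := by simp [hbc, hbd]
  have h3 : c ∉ ({d} : Finset ι) := by simp [hcd]
  have h4 : d ∉ (∅ : Finset ι) := by simp
  unfold F
  rw [Finset.sum_powerset_insert h1, Finset.sum_powerset_insert h2, Finset.sum_powerset_insert h2,
    Finset.sum_powerset_insert h3, Finset.sum_powerset_insert h3, Finset.sum_powerset_insert h3,
    Finset.sum_powerset_insert h3]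
  have hs : ∀ f : Finset ι → ℝ, ∑ x ∈ ({d} : Finset ι).powerset, f x = f ∅ + f {d} := by
    intro f
    have := Finset.sum_powerset_insert h4 f
    rw [insert_empty_eq, Finset.powerset_empty, Finset.sum_singleton, Finset.sum_singleton,
      insert_empty_eq] at this
    exact this
  simp only [hs, insert_empty_eq]
  have k0 : chi Y (∅ : Finset ι) = 1 := chi_empty Y
  have k1 : ∀ i, chi Y {i} = ep Y i := by intro i; unfold chi ep; rw [Finset.prod_singleton]
  have k2 : ∀ i j, i ≠ j → chi Y {i, j} = ep Y i * ep Y j := by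
    intro i j h
    rw [chi_insert _ _ _ (by simpa using h), k1]
  have k3 : ∀ i j l, i ≠ j → i ≠ l → j ≠ l → chi Y {i, j, l} = ep Y i * (ep Y j * ep Y l) := by
    intro i j l h1 h2 h3
    rw [chi_insert _ _ _ (by simp [h1, h2]), k2 _ _ h3]
  have k4 : chi Y {a, b, c, d} = ep Y a * (ep Y b * (ep Y c * ep Y d)) := by
    rw [chi_insert _ _ _ h1, k3 _ _ _ hbc hbd hcd]
  rw [k0, k1, k1, k1, k1, k2 _ _ hcd, k2 _ _ hbd, k2 _ _ hbc, k2 _ _ had, k2 _ _ hac, k2 _ _ hab,
    k3 _ _ _ hbc hbd hcd, k3 _ _ _ hac had hcd, k3 _ _ _ hab had hbd, k3 _ _ _ hab hac hbc, k4]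
  ring

lemma ee2_1 : ee 2 1 = -Complex.I := ee_low 1

lemma ee2_3 : ee 2 3 = Complex.I := by
  unfold ee
  have : 3 * 2 + 3 = 4 * 2 + 1 := by norm_num
  rw [this, pow_add, pow_mul, Complex.I_pow_four, one_pow, one_mul, pow_one]

lemma four_signs (s x y z w : ℝ) (hs : s = 1 ∨ s = -1) (hx : x = 1 ∨ x = -1)
    (hy : y = 1 ∨ y = -1) (hz : z = 1 ∨ z = -1) (hw : w = 1 ∨ w = -1)
    (h1 : -2 ≤ s * (-x + y + z + w) ∧ s * (-x + y + z + w) ≤ 2)
    (h2 : -2 ≤ s * (x - y + z + w) ∧ s * (x - y + z + w) ≤ 2)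
    (h3 : -2 ≤ s * (x + y - z + w) ∧ s * (x + y - z + w) ≤ 2)
    (h4 : -2 ≤ s * (x + y + z - w) ∧ s * (x + y + z - w) ≤ 2) : x * (y * (z * w)) = 1 := by
  rcases hs with rfl | rfl <;> rcases hx with rfl | rfl <;> rcases hy with rfl | rfl <;>
    rcases hz with rfl | rfl <;> rcases hw with rfl | rfl <;>
    first
    | (norm_num; done)
    | (exfalso; linarith [h1.1, h1.2, h2.1, h2.2, h3.1, h3.2, h4.1, h4.2])

lemma base_lin (a b c d : ι) (hab : a ≠ b) (hac : a ≠ c) (had : a ≠ d) (hbc : b ≠ c) (hbd : b ≠ d)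
    (hcd : c ≠ d) (G : Finset ι → ℝ)
    (hb : ∀ S ⊆ ({a, b, c, d} : Finset ι), |G S| ≤ 1)
    (hspec : ∀ Y ⊆ ({a, b, c, d} : Finset ι), |F {a, b, c, d} G Y| ≤ 2 ^ 2)
    (hmid : ∀ S ⊆ ({a, b, c, d} : Finset ι), S.card = 2 → G S = 1) :
    (G {b, c, d} = - G {a} ∧ G {a, c, d} = - G {b} ∧ G {a, b, d} = - G {c} ∧
      G {a, b, c} = - G {d}) ∧
    (-2 ≤ -G {a} + G {b} + G {c} + G {d} ∧ -G {a} + G {b} + G {c} + G {d} ≤ 2) ∧
    (-2 ≤ G {a} - G {b} + G {c} + G {d} ∧ G {a} - G {b} + G {c} + G {d} ≤ 2) ∧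
    (-2 ≤ G {a} + G {b} - G {c} + G {d} ∧ G {a} + G {b} - G {c} + G {d} ≤ 2) ∧
    (-2 ≤ G {a} + G {b} + G {c} - G {d} ∧ G {a} + G {b} + G {c} - G {d} ≤ 2) := by
  have hba := hab.symm
  have hca := hac.symm
  have hda := had.symm
  have hcb := hbc.symm
  have hdb := hbd.symm
  have hdc := hcd.symm
  have mab : G {a, b} = 1 := hmid _ (by simp [Finset.insert_subset_iff]) (card_pair hab)
  have mac : G {a, c} = 1 := hmid _ (by simp [Finset.insert_subset_iff]) (card_pair hac)
  have mad : G {a, d} = 1 := hmid _ (by simp [Finset.insert_subset_iff]) (card_pair had)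
  have mbc : G {b, c} = 1 := hmid _ (by simp [Finset.insert_subset_iff]) (card_pair hbc)
  have mbd : G {b, d} = 1 := hmid _ (by simp [Finset.insert_subset_iff]) (card_pair hbd)
  have mcd : G {c, d} = 1 := hmid _ (by simp [Finset.insert_subset_iff]) (card_pair hcd)
  have hp := abs_le.mp (hb ∅ (Finset.empty_subset _))
  have hq := abs_le.mp (hb _ (Finset.Subset.refl _))
  have f0 := abs_le.mp (hspec ∅ (Finset.empty_subset _))
  have fU := abs_le.mp (hspec _ (Finset.Subset.refl _))
  have fab := abs_le.mp (hspec {a, b} (by simp [Finset.insert_subset_iff]))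
  have fac := abs_le.mp (hspec {a, c} (by simp [Finset.insert_subset_iff]))
  have fad := abs_le.mp (hspec {a, d} (by simp [Finset.insert_subset_iff]))
  have fbc := abs_le.mp (hspec {b, c} (by simp [Finset.insert_subset_iff]))
  have fbd := abs_le.mp (hspec {b, d} (by simp [Finset.insert_subset_iff]))
  have fcd := abs_le.mp (hspec {c, d} (by simp [Finset.insert_subset_iff]))
  have fa := abs_le.mp (hspec {a} (by simp))
  have fb := abs_le.mp (hspec {b} (by simp))
  have fc := abs_le.mp (hspec {c} (by simp))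
  have fd := abs_le.mp (hspec {d} (by simp))
  clear hb hspec hmid
  rw [F4 a b c d hab hac had hbc hbd hcd, mab, mac, mad, mbc, mbd, mcd]
    at f0 fU fab fac fad fbc fbd fcd fa fb fc fd
  simp only [ep, Finset.notMem_empty, if_false, Finset.mem_insert, Finset.mem_singleton, hab, hac,
    had, hbc, hbd, hcd, hba, hca, hda, hcb, hdb, hdc, or_true, or_false,
    if_true] at f0 fU fab fac fad fbc fbd fcd fa fb fc fd
  have p1 : G ∅ = -1 := by linarith [f0.2, fU.2, hp.1, hq.1]
  have q1 : G {a, b, c, d} = -1 := by linarith [f0.2, fU.2, hp.1, hq.1]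
  have T0 : (G {a} + G {b, c, d}) + (G {b} + G {a, c, d}) + (G {c} + G {a, b, d})
      + (G {d} + G {a, b, c}) = 0 := by linarith [f0.2, fU.2]
  have T1 : (G {a} + G {b, c, d}) + (G {b} + G {a, c, d}) = 0 := by linarith [fab.1, fcd.1]
  have T2 : (G {a} + G {b, c, d}) + (G {c} + G {a, b, d}) = 0 := by linarith [fac.1, fbd.1]
  have T3 : (G {a} + G {b, c, d}) + (G {d} + G {a, b, c}) = 0 := by linarith [fad.1, fbc.1]
  have Xa : G {b, c, d} = - G {a} := by linarith
  have Xb : G {a, c, d} = - G {b} := by linarith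
  have Xc : G {a, b, d} = - G {c} := by linarith
  have Xd : G {a, b, c} = - G {d} := by linarith
  clear f0 fU fab fac fad fbc fbd fcd T0 T1 T2 T3
  rw [Xa, Xb, Xc, Xd, p1, q1] at fa fb fc fd
  refine ⟨⟨Xa, Xb, Xc, Xd⟩, ?_, ?_, ?_, ?_⟩
  · constructor <;> linarith [fa.1, fa.2]
  · constructor <;> linarith [fb.1, fb.2]
  · constructor <;> linarith [fc.1, fc.2]
  · constructor <;> linarith [fd.1, fd.2]

/-- base case: four points -/
lemma base (a b c d : ι) (hab : a ≠ b) (hac : a ≠ c) (had : a ≠ d) (hbc : b ≠ c) (hbd : b ≠ d)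
    (hcd : c ≠ d) (A : Finset ι) (G : Finset ι → ℝ)
    (hb : ∀ S ⊆ ({a, b, c, d} : Finset ι), |G S| ≤ 1)
    (hspec : ∀ Y ⊆ ({a, b, c, d} : Finset ι), |F {a, b, c, d} G Y| ≤ 2 ^ 2)
    (s1 : ℝ) (hs1 : s1 = 1 ∨ s1 = -1)
    (hmid : ∀ S ⊆ ({a, b, c, d} : Finset ι), S.card = 2 → G S = 1)
    (hlow : ∀ S ⊆ ({a, b, c, d} : Finset ι), S.card = 1 → G S = s1 * chi A S) :
    chi A {a, b, c, d} = 1 ∧ ∀ S ⊆ ({a, b, c, d} : Finset ι), G S = G0 2 A (-s1) S := by
  obtain ⟨⟨Xa, Xb, Xc, Xd⟩, fa, fb, fc, fd⟩ :=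
    base_lin a b c d hab hac had hbc hbd hcd G hb hspec hmid
  have k1 : ∀ i, chi A {i} = ep A i := by intro i; unfold chi ep; rw [Finset.prod_singleton]
  have xa : G {a} = s1 * ep A a := by rw [hlow _ (by simp) (card_singleton _), k1]
  have xb : G {b} = s1 * ep A b := by rw [hlow _ (by simp) (card_singleton _), k1]
  have xc : G {c} = s1 * ep A c := by rw [hlow _ (by simp) (card_singleton _), k1]
  have xd : G {d} = s1 * ep A d := by rw [hlow _ (by simp) (card_singleton _), k1]
  rw [xa, xb, xc, xd] at fa fb fc fd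
  have hchi : chi A {a, b, c, d} = ep A a * (ep A b * (ep A c * ep A d)) := by
    rw [chi_insert _ _ _ (by simp [hab, hac, had]), chi_insert _ _ _ (by simp [hbc, hbd]),
      chi_insert _ _ _ (by simp [hcd]), k1]
  have hA : chi A {a, b, c, d} = 1 := by
    rw [hchi]
    apply four_signs s1 _ _ _ _ hs1 (ep_cases A a) (ep_cases A b) (ep_cases A c) (ep_cases A d)
    · constructor <;> linarith [fa.1, fa.2]
    · constructor <;> linarith [fb.1, fb.2]
    · constructor <;> linarith [fc.1, fc.2]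
    · constructor <;> linarith [fd.1, fd.2]
  clear fa fb fc fd hchi
  refine ⟨hA, ?_⟩
  have h3 : ∀ i, ∀ S : Finset ι, i ∉ S →
      insert i S = ({a, b, c, d} : Finset ι) → chi A S = ep A i := by
    intro i S hiS hS
    rw [← hS, chi_insert _ _ _ hiS] at hA
    rcases ep_cases A i with h | h <;> rw [h] at hA ⊢ <;> linarith
  have hcardU : ({a, b, c, d} : Finset ι).card = 4 := by
    rw [card_insert_of_notMem (by simp [hab, hac, had]), card_insert_of_notMem (by simp [hbc, hbd]),
      card_pair hcd]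
  apply ends {a, b, c, d} A 2 (le_refl _) hcardU (-s1) (by rcases hs1 with h | h <;> simp [h]) hA
    G _ hspec
  clear hspec hb
  intro S hS hS0 hSU
  have hlt : S.card < 4 := by
    rw [← hcardU]
    exact Finset.card_lt_card (Finset.ssubset_iff_subset_ne.mpr ⟨hS, hSU⟩)
  have hpos : 0 < S.card := Finset.card_pos.mpr (Finset.nonempty_iff_ne_empty.mpr hS0)
  have hcases : S.card = 1 ∨ S.card = 2 ∨ S.card = 3 := by omega
  unfold G0
  rcases hcases with hk | hk | hk
  · rw [hk, hlow S hS hk, ee2_1]; simp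
  · rw [hk, hmid S hS hk, ee_self]; simp
  · rw [hk, ee2_3]
    obtain ⟨i, hi⟩ : ∃ i, ({a, b, c, d} : Finset ι) \ S = {i} := by
      rw [← Finset.card_eq_one, Finset.card_sdiff_of_subset hS, hcardU, hk]
    have hiU : i ∈ ({a, b, c, d} : Finset ι) \ S := by rw [hi]; simp
    rw [Finset.mem_sdiff] at hiU
    have hSi : insert i S = ({a, b, c, d} : Finset ι) := by
      rw [← Finset.sdiff_union_of_subset hS, hi]; rfl
    rw [h3 i S hiU.2 hSi]
    have hSe : S = ({a, b, c, d} : Finset ι).erase i := by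
      rw [← hSi, Finset.erase_insert hiU.2]
    have hi' := hiU.1
    simp only [mem_insert, mem_singleton] at hi'
    have e1 : (-s1 * ep A i * Complex.I.im : ℝ) = -(s1 * ep A i) := by simp
    rw [e1, Complex.I_re, zero_add]
    clear hlt hpos hk hiU hSi hi e1 h3 hlow hmid
    rcases hi' with rfl | rfl | rfl | rfl
    · have : S = {b, c, d} := by
        rw [hSe, Finset.erase_insert (by simp [hab, hac, had])]
      rw [this, Xa, xa]
    · have : S = {a, c, d} := by
        rw [hSe, Finset.erase_insert_of_ne hab, Finset.erase_insert (by simp [hbc, hbd])]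
      rw [this, Xb, xb]
    · have : S = {a, b, d} := by
        rw [hSe, Finset.erase_insert_of_ne hac, Finset.erase_insert_of_ne hbc,
          Finset.erase_insert (by simp [hcd])]
      rw [this, Xc, xc]
    · have : S = {a, b, c} := by
        rw [hSe, Finset.erase_insert_of_ne had, Finset.erase_insert_of_ne hbd,
          Finset.erase_insert_of_ne hcd]
        simp
      rw [this, Xd, xd]

lemma G0_insert (m : ℕ) (A : Finset ι) (s1 : ℝ) (a : ι) (z : Finset ι) (ha : a ∉ z) :
    G0 (m + 1) A (-s1) (insert a z) = G0 m A (-(s1 * ep A a)) z := by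
  unfold G0
  rw [card_insert_of_notMem ha, ee_succ, chi_insert _ _ _ ha]
  ring

lemma avg_eq (x y g : ℝ) (hx : |x| ≤ 1) (hy : |y| ≤ 1) (hg : g = 1 ∨ g = -1)
    (h : (x + y) / 2 = g) : x = g ∧ y = g := by
  rw [abs_le] at hx hy
  rcases hg with rfl | rfl
  · constructor <;> linarith [hx.2, hy.2]
  · constructor <;> linarith [hx.1, hy.1]

/-- the swap property -/
def Swap (U : Finset ι) (G : Finset ι → ℝ) : Prop :=
  ∀ a ∈ U, ∀ b ∈ U, a ≠ b → ∀ r : ℕ, ∃ h : ℝ, ∀ y ⊆ U, y.card = r → a ∉ y → b ∉ y →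
    G (insert a y) = h * G (insert b y)

lemma step_pair (A : Finset ι) (m : ℕ)
    (IH : ∀ (U : Finset ι) (G : Finset ι → ℝ) (s1 : ℝ), U.card = 2 * m → (∀ S ⊆ U, |G S| ≤ 1) →
      (∀ Y ⊆ U, |F U G Y| ≤ 2 ^ m) → Swap U G → (s1 = 1 ∨ s1 = -1) →
      (∀ S ⊆ U, S.card = m → G S = 1) → (∀ S ⊆ U, S.card + 1 = m → G S = s1 * chi A S) →
      chi A U = 1 ∧ ∀ S ⊆ U, G S = G0 m A (-s1) S)
    (U' : Finset ι) (a b : ι) (ha : a ∉ U') (hb : b ∉ U') (hab : a ≠ b)
    (hcl : a ∈ A ↔ b ∈ A)
    (G : Finset ι → ℝ) (s1 : ℝ) (hU : (insert a (insert b U')).card = 2 * (m + 1))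
    (hbd : ∀ S ⊆ insert a (insert b U'), |G S| ≤ 1)
    (hspec : ∀ Y ⊆ insert a (insert b U'), |F (insert a (insert b U')) G Y| ≤ 2 ^ (m + 1))
    (hsw : Swap (insert a (insert b U')) G) (hs1 : s1 = 1 ∨ s1 = -1)
    (hmid : ∀ S ⊆ insert a (insert b U'), S.card = m + 1 → G S = 1)
    (hlow : ∀ S ⊆ insert a (insert b U'), S.card + 1 = m + 1 → G S = s1 * chi A S) :
    chi A (insert a (insert b U')) = 1 ∧ ∀ z ⊆ U',
      G (insert a z) = G0 (m + 1) A (-s1) (insert a z) := by
  have hep : ep A a = ep A b := by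
    unfold ep
    by_cases h : a ∈ A
    · simp [h, hcl.mp h]
    · have h' : b ∉ A := fun hh => h (hcl.mpr hh)
      simp [h, h']
  have habU : a ∉ insert b U' := by simp [hab, ha]
  have hcard : U'.card = 2 * m := by
    rw [card_insert_of_notMem habU, card_insert_of_notMem hb] at hU
    omega
  have hsubU : U' ⊆ insert a (insert b U') :=
    (Finset.subset_insert _ _).trans (Finset.subset_insert _ _)
  have hsa : ∀ z ⊆ U', insert a z ⊆ insert a (insert b U') := by
    intro z hz
    exact Finset.insert_subset_insert _ (hz.trans (Finset.subset_insert _ _))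
  have hsb : ∀ z ⊆ U', insert b z ⊆ insert a (insert b U') := by
    intro z hz
    exact (Finset.insert_subset_insert _ hz).trans (Finset.subset_insert _ _)
  have hza : ∀ z ⊆ U', a ∉ z := fun z hz h => ha (hz h)
  have hzb : ∀ z ⊆ U', b ∉ z := fun z hz h => hb (hz h)
  have q1 : ∀ S ⊆ U', |desc a b G S| ≤ 1 := by
    intro S hS
    have k1 := abs_le.mp (hbd _ (hsa S hS))
    have k2 := abs_le.mp (hbd _ (hsb S hS))
    unfold desc
    rw [abs_le]
    constructor <;> linarith [k1.1, k1.2, k2.1, k2.2]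
  have q2 : ∀ Y ⊆ U', |F U' (desc a b G) Y| ≤ 2 ^ m := by
    intro Y hY
    rw [F_desc U' a b hab ha hb G Y hY]
    have k1 := abs_le.mp (hspec Y (hY.trans hsubU))
    have k2 := abs_le.mp (hspec (insert a (insert b Y))
      (Finset.insert_subset_insert _ (Finset.insert_subset_insert _ hY)))
    rw [pow_succ] at k1 k2
    rw [abs_le]
    constructor <;> linarith [k1.1, k1.2, k2.1, k2.2]
  have q3 : Swap U' (desc a b G) := by
    intro c hc d hd hcd r
    obtain ⟨h, hh⟩ := hsw c (hsubU hc) d (hsubU hd) hcd (r + 1)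
    refine ⟨h, ?_⟩
    intro y hy hyr hcy hdy
    have hca : c ≠ a := fun e => ha (e ▸ hc)
    have hcb : c ≠ b := fun e => hb (e ▸ hc)
    have hda : d ≠ a := fun e => ha (e ▸ hd)
    have hdb : d ≠ b := fun e => hb (e ▸ hd)
    unfold desc
    rw [Finset.insert_comm a c, Finset.insert_comm b c, Finset.insert_comm a d,
      Finset.insert_comm b d]
    rw [hh (insert a y) (hsa y hy) (by rw [card_insert_of_notMem (hza y hy), hyr])
      (by simp [hca, hcy]) (by simp [hda, hdy]),
      hh (insert b y) (hsb y hy) (by rw [card_insert_of_notMem (hzb y hy), hyr])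
      (by simp [hcb, hcy]) (by simp [hdb, hdy])]
    ring
  have q4 : s1 * ep A a = 1 ∨ s1 * ep A a = -1 := by
    rcases hs1 with h | h <;> rcases ep_cases A a with h' | h' <;> simp [h, h']
  have q5 : ∀ S ⊆ U', S.card = m → desc a b G S = 1 := by
    intro S hS hSm
    unfold desc
    rw [hmid _ (hsa S hS) (by rw [card_insert_of_notMem (hza S hS), hSm]),
      hmid _ (hsb S hS) (by rw [card_insert_of_notMem (hzb S hS), hSm])]
    norm_num
  have q6 : ∀ S ⊆ U', S.card + 1 = m → desc a b G S = s1 * ep A a * chi A S := by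
    intro S hS hSm
    unfold desc
    rw [hlow _ (hsa S hS) (by rw [card_insert_of_notMem (hza S hS), hSm]),
      hlow _ (hsb S hS) (by rw [card_insert_of_notMem (hzb S hS), hSm]),
      chi_insert _ _ _ (hza S hS), chi_insert _ _ _ (hzb S hS), hep]
    ring
  obtain ⟨h1, h2⟩ := IH U' (desc a b G) (s1 * ep A a) hcard q1 q2 q3 q4 q5 q6
  refine ⟨?_, ?_⟩
  · rw [chi_insert _ _ _ habU, chi_insert _ _ _ hb, h1, mul_one, hep, ep_sq]
  · intro z hz
    have h3 := h2 z hz
    rw [← G0_insert m A s1 a z (hza z hz)] at h3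
    have h4 : -s1 = 1 ∨ -s1 = -1 := by rcases hs1 with h | h <;> simp [h]
    exact (avg_eq _ _ _ (hbd _ (hsa z hz)) (hbd _ (hsb z hz)) (G0_cases _ _ _ h4 _) h3).1

/-- the core classification -/
theorem core (A : Finset ι) (m : ℕ) (hm : 2 ≤ m) :
    ∀ (U : Finset ι) (G : Finset ι → ℝ) (s1 : ℝ), U.card = 2 * m → (∀ S ⊆ U, |G S| ≤ 1) →
      (∀ Y ⊆ U, |F U G Y| ≤ 2 ^ m) → Swap U G → (s1 = 1 ∨ s1 = -1) →
      (∀ S ⊆ U, S.card = m → G S = 1) → (∀ S ⊆ U, S.card + 1 = m → G S = s1 * chi A S) →
      chi A U = 1 ∧ ∀ S ⊆ U, G S = G0 m A (-s1) S := by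
  induction m, hm using Nat.le_induction with
  | base =>
    intro U G s1 hU hbd hspec _ hs1 hmid hlow
    obtain ⟨a, t, hat, rfl, ht⟩ := Finset.card_eq_succ.mp (by simpa using hU : U.card = 3 + 1)
    obtain ⟨b, c, d, hbc, hbd', hcd, rfl⟩ := Finset.card_eq_three.mp ht
    simp only [mem_insert, mem_singleton, not_or] at hat
    exact base a b c d hat.1 hat.2.1 hat.2.2 hbc hbd' hcd A G hbd hspec s1 hs1 hmid
      (fun S hS hk => hlow S hS (by rw [hk]))
  | succ m hm IH =>
    intro U G s1 hU hbd hspec hsw hs1 hmid hlow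
    have key : ∀ a ∈ U, ∀ b ∈ U, a ≠ b → (a ∈ A ↔ b ∈ A) → chi A U = 1 ∧
        ∀ z ⊆ U, a ∉ z → b ∉ z → G (insert a z) = G0 (m + 1) A (-s1) (insert a z) := by
      intro a haU b hbU hab hcl
      have hUe : U = insert a (insert b ((U.erase a).erase b)) := by
        rw [Finset.insert_erase (Finset.mem_erase.mpr ⟨hab.symm, hbU⟩), Finset.insert_erase haU]
      have ha' : a ∉ (U.erase a).erase b := by simp
      have hb' : b ∉ (U.erase a).erase b := by simp
      have h := step_pair A m IH ((U.erase a).erase b) a b ha' hb' hab hcl G s1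
        (by rw [← hUe]; exact hU) (by rw [← hUe]; exact hbd) (by rw [← hUe]; exact hspec)
        (by rw [← hUe]; exact hsw) hs1 (by rw [← hUe]; exact hmid) (by rw [← hUe]; exact hlow)
      rw [← hUe] at h
      refine ⟨h.1, ?_⟩
      intro z hz haz hbz
      apply h.2
      intro x hx
      rw [Finset.mem_erase, Finset.mem_erase]
      exact ⟨fun e => hbz (e ▸ hx), fun e => haz (e ▸ hx), hz hx⟩
    have hAU : chi A U = 1 := by
      obtain ⟨c, hc, d, hd, e, he, hcd, hce, hde⟩ := Finset.two_lt_card.mp (by omega : 2 < U.card)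
      by_cases h1 : c ∈ A <;> by_cases h2 : d ∈ A <;> by_cases h3 : e ∈ A
      · exact (key c hc d hd hcd (by simp [h1, h2])).1
      · exact (key c hc d hd hcd (by simp [h1, h2])).1
      · exact (key c hc e he hce (by simp [h1, h3])).1
      · exact (key d hd e he hde (by simp [h2, h3])).1
      · exact (key d hd e he hde (by simp [h2, h3])).1
      · exact (key c hc e he hce (by simp [h1, h3])).1
      · exact (key c hc d hd hcd (by simp [h1, h2])).1
      · exact (key c hc d hd hcd (by simp [h1, h2])).1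
    have hs1' : -s1 = 1 ∨ -s1 = -1 := by rcases hs1 with h | h <;> simp [h]
    -- sets split by a pair from one class
    have nonexc : ∀ S ⊆ U, ∀ a ∈ S, ∀ b ∈ U, b ∉ S → (a ∈ A ↔ b ∈ A) →
        G S = G0 (m + 1) A (-s1) S := by
      intro S hS a haS b hbU hbS hcl
      have hab : a ≠ b := fun e => hbS (e ▸ haS)
      have h := (key a (hS haS) b hbU hab hcl).2 (S.erase a) ((Finset.erase_subset _ _).trans hS)
        (by simp) (by simp [hbS])
      rwa [Finset.insert_erase haS] at h
    refine ⟨hAU, ?_⟩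
    apply ends U A (m + 1) (by omega) hU (-s1) hs1' hAU G _ hspec
    intro S hS hS0 hSU
    by_cases hex : ∃ a ∈ S, ∃ b ∈ U, b ∉ S ∧ (a ∈ A ↔ b ∈ A)
    · obtain ⟨a, ha, b, hb, hbS, hcl⟩ := hex
      exact nonexc S hS a ha b hb hbS hcl
    -- the exceptional sets
    push Not at hex
    have hex' : ∀ a ∈ S, ∀ b ∈ U, (a ∈ A ↔ b ∈ A) → b ∈ S := by
      intro a ha b hb hcl
      by_contra hbS
      have := hex a ha b hb hbS
      tauto
    obtain ⟨a, haS⟩ := Finset.nonempty_iff_ne_empty.mpr hS0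
    have hnon : (U \ S).Nonempty := by
      rw [Finset.sdiff_nonempty]
      intro h
      exact hSU (Finset.Subset.antisymm hS h)
    obtain ⟨b, hb⟩ := hnon
    rw [Finset.mem_sdiff] at hb
    have hab : a ≠ b := fun e => hb.2 (e ▸ haS)
    have hclS : ∀ x ∈ U, (x ∈ S ↔ (a ∈ A ↔ x ∈ A)) := by
      intro x hx
      constructor
      · intro hxS
        by_contra hne
        have h1 : ¬ (a ∈ A ↔ b ∈ A) := fun h => hb.2 (hex' a haS b hb.1 h)
        have h2 : ¬ (x ∈ A ↔ b ∈ A) := fun h => hb.2 (hex' x hxS b hb.1 h)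
        tauto
      · intro h
        exact hex' a haS x hx h
    have hevA : Even (U.filter (fun i => i ∈ A)).card := by
      rw [chi_eq_pow] at hAU
      by_contra hc
      rw [Nat.not_even_iff_odd] at hc
      rw [hc.neg_one_pow] at hAU
      norm_num at hAU
    have hevNA : Even (U.filter (fun i => i ∉ A)).card := by
      have h := Finset.card_filter_add_card_filter_not (s := U) (fun i => i ∈ A)
      rw [hU] at h
      have h2 : Even ((U.filter (fun i => i ∈ A)).card + (U.filter (fun i => i ∉ A)).card) := by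
        rw [h]; exact even_two_mul _
      exact (Nat.even_add.mp h2).mp hevA
    have hSe : Even S.card ∧ Even (U \ S).card := by
      by_cases haA : a ∈ A
      · have e1 : S = U.filter (fun i => i ∈ A) := by
          ext x; rw [Finset.mem_filter]
          constructor
          · intro hx; exact ⟨hS hx, ((hclS x (hS hx)).mp hx).mp haA⟩
          · rintro ⟨hx, hxA⟩; exact (hclS x hx).mpr (by simp [haA, hxA])
        have e2 : U \ S = U.filter (fun i => i ∉ A) := by
          rw [e1, Finset.filter_not]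
        rw [e2, e1]; exact ⟨hevA, hevNA⟩
      · have e1 : S = U.filter (fun i => i ∉ A) := by
          ext x; rw [Finset.mem_filter]
          constructor
          · intro hx
            refine ⟨hS hx, fun hxA => haA (((hclS x (hS hx)).mp hx).mpr hxA)⟩
          · rintro ⟨hx, hxA⟩; exact (hclS x hx).mpr (by simp [haA, hxA])
        have e2 : U \ S = U.filter (fun i => i ∈ A) := by
          rw [e1, ← Finset.filter_not]
          apply Finset.filter_congr
          intro x _; simp
        rw [e2, e1]; exact ⟨hevNA, hevA⟩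
    have hcS : 1 < S.card := by
      have : 0 < S.card := Finset.card_pos.mpr ⟨a, haS⟩
      rcases hSe.1 with ⟨k, hk⟩; omega
    have hcT : 1 < (U \ S).card := by
      have : 0 < (U \ S).card := Finset.card_pos.mpr ⟨b, Finset.mem_sdiff.mpr hb⟩
      rcases hSe.2 with ⟨k, hk⟩; omega
    have hsum : S.card + (U \ S).card = 2 * (m + 1) := by
      rw [Finset.card_sdiff_of_subset hS, hU]
      have := Finset.card_le_card hS
      omega
    obtain ⟨a', ha'S, ha'a⟩ := Finset.exists_mem_ne hcS a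
    obtain ⟨b', hb'T, hb'b⟩ := Finset.exists_mem_ne hcT b
    rw [Finset.mem_sdiff] at hb'T
    have hclaa : a' ∈ A ↔ a ∈ A := ((hclS a' (hS ha'S)).mp ha'S).symm
    have hb'a : b' ≠ a := fun e => hb'T.2 (e ▸ haS)
    have hb'a' : b' ≠ a' := fun e => hb'T.2 (e ▸ ha'S)
    have hba' : b ≠ a' := fun e => hb.2 (e ▸ ha'S)
    set y := insert b' ((S.erase a).erase a') with hy
    have hyc : y.card = (S.erase a).card := by
      rw [hy, card_insert_of_notMem (by simp [hb'T.2]), card_erase_of_mem
        (Finset.mem_erase.mpr ⟨ha'a, ha'S⟩)]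
      have : 0 < (S.erase a).card := Finset.card_pos.mpr ⟨a', Finset.mem_erase.mpr ⟨ha'a, ha'S⟩⟩
      omega
    have hyU : y ⊆ U := by
      intro x hx
      rw [hy, Finset.mem_insert, Finset.mem_erase, Finset.mem_erase] at hx
      rcases hx with rfl | hx
      · exact hb'T.1
      · exact hS hx.2.2
    have hay : a ∉ y := by
      rw [hy]; simp [hb'a.symm]
    have hby : b ∉ y := by
      rw [hy]; simp [hb'b.symm, hb.2]
    have ha'y : a' ∉ y := by
      rw [hy]; simp [hb'a'.symm]
    have hayU : insert a y ⊆ U := Finset.insert_subset (hS haS) hyU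
    have hbyU : insert b y ⊆ U := Finset.insert_subset hb.1 hyU
    have g1 : G (insert a y) = G0 (m + 1) A (-s1) (insert a y) :=
      nonexc _ hayU a (Finset.mem_insert_self _ _) a' (hS ha'S)
        (by rw [Finset.mem_insert, not_or]; exact ⟨ha'a, ha'y⟩) hclaa.symm
    have g2 : G (insert b y) = G0 (m + 1) A (-s1) (insert b y) := by
      by_cases h4 : 2 < S.card
      · have : ∃ c ∈ S, c ≠ a ∧ c ≠ a' := by
          by_contra hcon
          push Not at hcon
          have : S ⊆ {a, a'} := by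
            intro x hx
            by_cases hxa : x = a
            · simp [hxa]
            · simp [hcon x hx hxa]
          have := (Finset.card_le_card this).trans Finset.card_le_two
          omega
        obtain ⟨c, hcS', hca, hca'⟩ := this
        refine nonexc _ hbyU c ?_ a (hS haS) ?_ ((hclS c (hS hcS')).mp hcS').symm
        · rw [hy]; simp [hcS', hca, hca']
        · rw [Finset.mem_insert, not_or]; exact ⟨hab, hay⟩
      · have h4' : 2 < (U \ S).card := by omega
        have : ∃ c ∈ U \ S, c ≠ b ∧ c ≠ b' := by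
          by_contra hcon
          push Not at hcon
          have : U \ S ⊆ {b, b'} := by
            intro x hx
            by_cases hxa : x = b
            · simp [hxa]
            · simp [hcon x hx hxa]
          have := (Finset.card_le_card this).trans Finset.card_le_two
          omega
        obtain ⟨c, hcT', hcb, hcb'⟩ := this
        rw [Finset.mem_sdiff] at hcT'
        refine nonexc _ hbyU b (Finset.mem_insert_self _ _) c hcT'.1 ?_ ?_
        · rw [hy]; simp [hcb, hcb', hcT'.2]
        · have h1 : ¬ (a ∈ A ↔ b ∈ A) := fun h => hb.2 ((hclS b hb.1).mpr h)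
          have h2 : ¬ (a ∈ A ↔ c ∈ A) := fun h => hcT'.2 ((hclS c hcT'.1).mpr h)
          tauto
    have g3 : G (insert b (S.erase a)) = G0 (m + 1) A (-s1) (insert b (S.erase a)) := by
      refine nonexc _ (Finset.insert_subset hb.1 ((Finset.erase_subset _ _).trans hS)) a' ?_ a
        (hS haS) ?_ hclaa
      · simp [ha'a, ha'S]
      · simp [hab]
    obtain ⟨h, hh⟩ := hsw a (hS haS) b hb.1 hab (S.erase a).card
    have e1 := hh (S.erase a) ((Finset.erase_subset _ _).trans hS) rfl (by simp) (by simp [hb.2])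
    have e2 := hh y hyU hyc hay hby
    rw [Finset.insert_erase haS, g3] at e1
    rw [g1, g2] at e2
    have e3 := G0_ratio (m + 1) A (-s1) (S.erase a) y a b (by simp) (by simp [hb.2]) hay hby hyc.symm
    rw [Finset.insert_erase haS] at e3
    have hne : G0 (m + 1) A (-s1) (insert b y) ≠ 0 := by
      rcases G0_cases (m + 1) A (-s1) hs1' (insert b y) with h | h <;> rw [h] <;> norm_num
    apply mul_right_cancel₀ hne
    rw [e3, e1, e2]; ring

end Pool.Agent.R58.KBent
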