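import Mathlib

/-! Definitions: `k`-bent Boolean functions and the two-clique quadratic functions. -/

namespace Pool.Agent.R58.KBent

/-- `u_i(x) = x_{2i-1} + x_{2i}` (coordinates numbered from zero) -/
def uu {m : ℕ} (x : Fin (2 * m) → ZMod 2) (i : Fin m) : ZMod 2 :=
  x ⟨2 * i.val, by omega⟩ + x ⟨2 * i.val + 1, by omega⟩

/-- `⟨x,y⟩_k` -/
def brk {m : ℕ} (k : ℕ) (x y : Fin (2 * m) → ZMod 2) : ZMod 2 :=
  ∑ i, x i * y i +
    ∑ i : Fin m, ∑ j : Fin m, if i ≤ j ∧ j.val < k then uu x i * uu x j * uu y i * uu y j else 0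

/-- the `k`-Walsh-Hadamard transform -/
def WH {m : ℕ} (k : ℕ) (f : (Fin (2 * m) → ZMod 2) → ZMod 2) (y : Fin (2 * m) → ZMod 2) : ℤ :=
  ∑ x : Fin (2 * m) → ZMod 2, (-1) ^ (f x + brk k x y).val

/-- `k`-bent functions in `2m` variables -/
def IsKBent {m : ℕ} (k : ℕ) (f : (Fin (2 * m) → ZMod 2) → ZMod 2) : Prop :=
  ∀ (π : Equiv.Perm (Fin (2 * m))) (j : ℕ), 1 ≤ j → j ≤ k → ∀ y,
    WH j (fun x => f (fun i => x (π i))) y = 2 ^ m ∨
    WH j (fun x => f (fun i => x (π i))) y = -2 ^ m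

/-- up to an affine function, `f` is the quadratic function of the graph that is the disjoint
union of the complete graphs on `A` and on its complement, for a set `A` of even size -/
def IsTwoClique {m : ℕ} (f : (Fin (2 * m) → ZMod 2) → ZMod 2) : Prop :=
  ∃ A : Finset (Fin (2 * m)), Even A.card ∧ ∃ (w : Fin (2 * m) → ZMod 2) (c : ZMod 2), ∀ x,
    f x = (∑ i, ∑ j, if i < j ∧ (i ∈ A ↔ j ∈ A) then x i * x j else 0) + ∑ i, w i * x i + c

end Pool.Agent.R58.KBent
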