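import Pool.Agent.R58.KBentConv

/-! Assembling the classification. -/

namespace Pool.Agent.R58.KBent

open Finset

lemma four_pm (s0 s1 s2 s3 r : ℝ) (h0 : s0 = 1 ∨ s0 = -1) (h1 : s1 = 1 ∨ s1 = -1)
    (h2 : s2 = 1 ∨ s2 = -1) (h3 : s3 = 1 ∨ s3 = -1) (hr : r = 1 ∨ r = -1)
    (h : 2 * r = -s0 + s1 + s2 + s3) : s0 * s1 * (s2 * s3) = 1 := by
  rcases h0 with rfl | rfl <;> rcases h1 with rfl | rfl <;> rcases h2 with rfl | rfl <;>
    rcases h3 with rfl | rfl <;> rcases hr with rfl | rfl <;>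
    first
    | (norm_num; done)
    | (exfalso; linarith)

lemma isTwoClique_iff {m : ℕ} (f : (Fin (2 * m) → ZMod 2) → ZMod 2) :
    IsTwoClique f ↔ ∃ A : Finset (Fin (2 * m)), Even A.card ∧ Pol A f := by
  constructor
  · rintro ⟨A, hA, w, c, h⟩
    exact ⟨A, hA, Pol_of_form A f w c h⟩
  · rintro ⟨A, hA, h⟩
    obtain ⟨w, c, h'⟩ := form_of_Pol A f h
    exact ⟨A, hA, w, c, h'⟩

theorem kbent_of_twoClique {m : ℕ} (k : ℕ) (f : (Fin (2 * m) → ZMod 2) → ZMod 2)
    (hf : IsTwoClique f) : IsKBent k f := by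
  obtain ⟨A, hA, hP⟩ := (isTwoClique_iff f).mp hf
  intro π j _ _ y
  exact flat_of_Pol (A.map π.toEmbedding) (by rw [Finset.card_map]; exact hA) _
    (Pol_perm A f hP π) j y

lemma bent_of {m k : ℕ} (hm : 0 < m) (hk : 1 ≤ k) (f : (Fin (2 * m) → ZMod 2) → ZMod 2)
    (hf : IsKBent k f) (y : Fin (2 * m) → ZMod 2) : wal f y = 2 ^ m ∨ wal f y = -2 ^ m := by
  rw [← WH_one hm]
  exact hf (Equiv.refl _) 1 (le_refl _) hk _

lemma GG_pm {m k : ℕ} (hm : 0 < m) (hk : 1 ≤ k) (f : (Fin (2 * m) → ZMod 2) → ZMod 2)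
    (hf : IsKBent k f) (S : Finset (Fin (2 * m))) : GG m f S = 1 ∨ GG m f S = -1 := by
  have hpos : (0 : ℝ) < 2 ^ m := by positivity
  unfold GG
  rcases bent_of hm hk f hf (ind S) with h | h
  · left; rw [h]; push_cast; exact div_self hpos.ne'
  · right; rw [h]; push_cast; rw [neg_div, div_self hpos.ne']

lemma exists_perm {n : ℕ} (a b c d a' b' c' d' : Fin n) (hab : a ≠ b) (hac : a ≠ c) (had : a ≠ d)
    (hbc : b ≠ c) (hbd : b ≠ d) (hcd : c ≠ d) (hab' : a' ≠ b') (hac' : a' ≠ c') (had' : a' ≠ d')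
    (hbc' : b' ≠ c') (hbd' : b' ≠ d') (hcd' : c' ≠ d') :
    ∃ π : Equiv.Perm (Fin n), π a = a' ∧ π b = b' ∧ π c = c' ∧ π d = d' := by
  have inj : ∀ p q r s : Fin n, p ≠ q → p ≠ r → p ≠ s → q ≠ r → q ≠ s → r ≠ s →
      Function.Injective ![p, q, r, s] := by
    intro p q r s h1 h2 h3 h4 h5 h6 i j hij
    fin_cases i <;> fin_cases j <;> simp_all
  obtain ⟨g, hg⟩ := Equiv.Perm.exists_extending_pair _ _
    (inj a b c d hab hac had hbc hbd hcd) (inj a' b' c' d' hab' hac' had' hbc' hbd' hcd')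
  exact ⟨g, hg 0, hg 1, hg 2, hg 3⟩

lemma slice_of {m k : ℕ} (hm : 1 < m) (hk : 2 ≤ k) (f : (Fin (2 * m) → ZMod 2) → ZMod 2)
    (hf : IsKBent k f) : Slice (GG m f) := by
  intro y a b c d ha hb hc hd hab hac had hbc hbd hcd
  have hpos : (0 : ℝ) < 2 ^ m := by positivity
  obtain ⟨π, ha', hb', hc', hd'⟩ := exists_perm a b c d
    (⟨2 * (⟨0, by omega⟩ : Fin m).val, by omega⟩ : Fin (2 * m))
    ⟨2 * (⟨0, by omega⟩ : Fin m).val + 1, by simp only; omega⟩
    ⟨2 * (⟨1, hm⟩ : Fin m).val, by simp only; omega⟩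
    ⟨2 * (⟨1, hm⟩ : Fin m).val + 1, by simp only; omega⟩
    hab hac had hbc hbd hcd (by simp) (by simp) (by simp) (by simp) (by simp) (by simp)
  set z := ind (insert a (insert c y)) with hz
  have za : z a = 1 := by rw [hz]; simp [ind]
  have zb : z b = 0 := by rw [hz]; simp [ind, hab.symm, hbc, hb]
  have zc : z c = 1 := by rw [hz]; simp [ind]
  have zd : z d = 0 := by rw [hz]; simp [ind, had.symm, hcd.symm, hd]
  set Y : Fin (2 * m) → ZMod 2 := fun i => z (π.symm i) with hY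
  have s1 : π.symm ⟨2 * (⟨0, by omega⟩ : Fin m).val, by omega⟩ = a := by
    rw [← ha', Equiv.symm_apply_apply]
  have s2 : π.symm ⟨2 * (⟨0, by omega⟩ : Fin m).val + 1, by simp only; omega⟩ = b := by
    rw [← hb', Equiv.symm_apply_apply]
  have s3 : π.symm ⟨2 * (⟨1, hm⟩ : Fin m).val, by simp only; omega⟩ = c := by
    rw [← hc', Equiv.symm_apply_apply]
  have s4 : π.symm ⟨2 * (⟨1, hm⟩ : Fin m).val + 1, by simp only; omega⟩ = d := by
    rw [← hd', Equiv.symm_apply_apply]
  have u0 : uu Y ⟨0, by omega⟩ = 1 := by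
    unfold uu; rw [hY]; simp only
    rw [s1, s2, za, zb, add_zero]
  have u1 : uu Y ⟨1, hm⟩ = 1 := by
    unfold uu; rw [hY]; simp only
    rw [s3, s4, zc, zd, add_zero]
  have hW := hf π 2 (by norm_num) hk Y
  have h2 := WH_two hm (fun x => f (fun i => x (π i))) Y u0 u1
  rw [wal_perm, wal_perm, wal_perm, wal_perm] at h2
  have e0 : ∀ i, (eP (⟨0, by omega⟩ : Fin m) (π i)) =
      (Pi.single a (1 : ZMod 2) + Pi.single b (1 : ZMod 2) : Fin (2 * m) → ZMod 2) i := by
    intro i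
    unfold eP
    simp only [Pi.add_apply]
    rw [← ha', ← hb']
    simp only [Pi.single_apply, EmbeddingLike.apply_eq_iff_eq]
  have e1 : ∀ i, (eP (⟨1, hm⟩ : Fin m) (π i)) =
      (Pi.single c (1 : ZMod 2) + Pi.single d (1 : ZMod 2) : Fin (2 * m) → ZMod 2) i := by
    intro i
    unfold eP
    simp only [Pi.add_apply]
    rw [← hc', ← hd']
    simp only [Pi.single_apply, EmbeddingLike.apply_eq_iff_eq]
  have hacy : a ∉ insert c y := by simp [hac, ha]
  have hbcy : b ∉ insert c y := by simp [hbc, hb]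
  have hady : a ∉ insert d y := by simp [had, ha]
  have hbdy : b ∉ insert d y := by simp [hbd, hb]
  have f0 : (fun i => Y (π i)) = z := by funext i; rw [hY]; simp
  have f1 : (fun i => (Y + eP (⟨0, by omega⟩ : Fin m)) (π i)) = ind (insert b (insert c y)) := by
    funext i
    rw [Pi.add_apply, e0, congrFun f0 i, hz, ind_insert a _ hacy, ind_insert b _ hbcy]
    simp only [Pi.add_apply]
    have := add_self2 ((Pi.single a (1 : ZMod 2) : Fin (2 * m) → ZMod 2) i)
    linear_combination this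
  have f2 : (fun i => (Y + eP (⟨1, hm⟩ : Fin m)) (π i)) = ind (insert a (insert d y)) := by
    funext i
    rw [Pi.add_apply, e1, congrFun f0 i, hz, ind_insert a _ hacy, ind_insert a _ hady,
      ind_insert c _ hc, ind_insert d _ hd]
    simp only [Pi.add_apply]
    have := add_self2 ((Pi.single c (1 : ZMod 2) : Fin (2 * m) → ZMod 2) i)
    linear_combination this
  have f3 : (fun i => (Y + eP (⟨0, by omega⟩ : Fin m) + eP (⟨1, hm⟩ : Fin m)) (π i)) =
      ind (insert b (insert d y)) := by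
    funext i
    rw [Pi.add_apply, Pi.add_apply, e0, e1, congrFun f0 i, hz, ind_insert a _ hacy,
      ind_insert b _ hbdy, ind_insert c _ hc, ind_insert d _ hd]
    simp only [Pi.add_apply]
    have h1 := add_self2 ((Pi.single a (1 : ZMod 2) : Fin (2 * m) → ZMod 2) i)
    have h2 := add_self2 ((Pi.single c (1 : ZMod 2) : Fin (2 * m) → ZMod 2) i)
    linear_combination h1 + h2
  rw [f0, f1, f2, f3] at h2
  set r : ℝ := ((WH 2 (fun x => f (fun i => x (π i))) Y : ℤ) : ℝ) / 2 ^ m with hr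
  have hrpm : r = 1 ∨ r = -1 := by
    rcases hW with h | h
    · left; rw [hr, h]; push_cast; exact div_self hpos.ne'
    · right; rw [hr, h]; push_cast; rw [neg_div, div_self hpos.ne']
  have hGG := GG_pm (by omega : 0 < m) (by omega : 1 ≤ k) f hf
  apply four_pm _ _ _ _ r (hGG _) (hGG _) (hGG _) (hGG _) hrpm
  have h3 : (2 : ℝ) * ((WH 2 (fun x => f (fun i => x (π i))) Y : ℤ) : ℝ) =
      - (wal f z : ℝ) + (wal f (ind (insert b (insert c y))) : ℝ) +
        (wal f (ind (insert a (insert d y))) : ℝ) + (wal f (ind (insert b (insert d y))) : ℝ) := by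
    exact_mod_cast h2
  unfold GG
  rw [hr, ← hz]
  field_simp
  linarith

theorem twoClique_of_kbent {m k : ℕ} (hm : 1 < m) (hk : 2 ≤ k)
    (f : (Fin (2 * m) → ZMod 2) → ZMod 2) (hf : IsKBent k f) : IsTwoClique f := by
  have hGG := GG_pm (by omega : 0 < m) (by omega : 1 ≤ k) f hf
  obtain ⟨A, w, s, t, hs, ht, hA, hG⟩ := classify m hm (Fintype.card_fin _) (GG m f) hGG
    (slice_of hm hk f hf) (by
      intro Y
      rw [F_GG m (Fintype.card_fin _) f Y, abs_mul]
      have h1 : |(2 : ℝ) ^ m| = 2 ^ m := abs_of_pos (by positivity)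
      have h2 : |((sg (f (ind Y)) : ℤ) : ℝ)| = 1 := by
        rcases sg_cases (f (ind Y)) with h | h <;> rw [h] <;> norm_num
      rw [h1, h2, mul_one])
  exact (isTwoClique_iff f).mpr ⟨A, hA, Pol_of_good m f A w s t hs ht hA hG⟩

theorem twoClique_of_bent_two {k : ℕ} (hk : 1 ≤ k)
    (f : (Fin (2 * 1) → ZMod 2) → ZMod 2) (hf : IsKBent k f) : IsTwoClique f := by
  have h0 := bent_of (by norm_num : 0 < 1) hk f hf 0
  refine (isTwoClique_iff f).mpr ⟨∅, by simp, ?_⟩
  apply Pol_of_insert ∅ f (fun a => f (Pi.single a 1) + f 0)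
  intro a S ha
  have hsum : f 0 + f (Pi.single 0 1) + f (Pi.single 1 1) + f 1 = 1 := by
    have e1 : wal f 0 = ∑ x : Fin 2 → ZMod 2, sg (f x) := by
      unfold wal
      apply Finset.sum_congr rfl
      intro x _
      have : dot x 0 = 0 := by simp [dot]
      rw [this, add_zero]
    have e2 : ∑ x : Fin 2 → ZMod 2, sg (f x) =
        sg (f 0) + sg (f (Pi.single 0 1)) + sg (f (Pi.single 1 1)) + sg (f 1) := by
      have hu : (Finset.univ : Finset (Fin 2 → ZMod 2)) =
          {0, Pi.single 0 1, Pi.single 1 1, 1} := by decide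
      rw [hu]
      rw [Finset.sum_insert (by decide), Finset.sum_insert (by decide),
        Finset.sum_insert (by decide), Finset.sum_singleton]
      ring
    rw [e1, e2] at h0
    revert h0
    generalize f 0 = p
    generalize f (Pi.single 0 1) = q
    generalize f (Pi.single 1 1) = r
    generalize f 1 = s
    revert p q r s
    decide
  have key : ∀ S : Finset (Fin 2), ∀ a : Fin 2, a ∉ S →
      (S = ∅ ∨ (a = 0 ∧ S = {1}) ∨ (a = 1 ∧ S = {0})) := by decide
  rcases key S a ha with h | ⟨h, h'⟩ | ⟨h, h'⟩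
  · subst h
    have e1 : ind (insert a ∅ : Finset (Fin 2)) = Pi.single a 1 := by
      rw [ind_insert a ∅ (by simp)]
      have : (ind (∅ : Finset (Fin 2))) = 0 := by funext i; simp [ind]
      rw [this, add_zero]
    have e2 : (ind (∅ : Finset (Fin 2))) = 0 := by funext i; simp [ind]
    rw [e1, e2]
    have := add_self2 (f 0)
    simp only [Pi.zero_apply, ite_self, Finset.sum_const_zero, add_zero]
    linear_combination (-1 : ZMod 2) * this
  · subst h; subst h'
    have e1 : ind (insert 0 {1} : Finset (Fin 2)) = 1 := by decide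
    have e2 : ind ({1} : Finset (Fin 2)) = Pi.single 1 1 := by decide
    have e3 : (∑ j : Fin 2, if ((0 : Fin 2) ∈ (∅ : Finset (Fin 2)) ↔ j ∈ (∅ : Finset (Fin 2)))
        then (Pi.single 1 1 : Fin 2 → ZMod 2) j else 0) = 1 := by decide
    have e4 : f (ind (insert 0 {1} : Finset (Fin 2))) = f 1 := by rw [e1]
    rw [e4, e2, e3]
    have h1 := add_self2 (f 0)
    have h2 := add_self2 (f (Pi.single 0 1))
    have h3 := add_self2 (f (Pi.single 1 1))
    linear_combination hsum - h1 - h2 - h3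
  · subst h; subst h'
    have e1 : ind (insert 1 {0} : Finset (Fin 2)) = 1 := by decide
    have e2 : ind ({0} : Finset (Fin 2)) = Pi.single 0 1 := by decide
    have e3 : (∑ j : Fin 2, if ((1 : Fin 2) ∈ (∅ : Finset (Fin 2)) ↔ j ∈ (∅ : Finset (Fin 2)))
        then (Pi.single 0 1 : Fin 2 → ZMod 2) j else 0) = 1 := by decide
    have e4 : f (ind (insert 1 {0} : Finset (Fin 2))) = f 1 := by rw [e1]
    rw [e4, e2, e3]
    have h1 := add_self2 (f 0)
    have h2 := add_self2 (f (Pi.single 0 1))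
    have h3 := add_self2 (f (Pi.single 1 1))
    linear_combination hsum - h1 - h2 - h3

end Pool.Agent.R58.KBent
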