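import Pool.Agent.R58.KBentDefs

/-! Quadratic forms over the field with two elements, and the forward computation. -/

namespace Pool.Agent.R58.KBent

open Finset

/-- sign of an element of the field with two elements -/
def sg (a : ZMod 2) : ℤ := (-1) ^ a.val

lemma sg_add (a b : ZMod 2) : sg (a + b) = sg a * sg b := by
  revert a b; decide

@[simp] lemma sg_zero : sg 0 = 1 := by decide

lemma sg_one : sg 1 = -1 := by decide

lemma sg_cases (a : ZMod 2) : sg a = 1 ∨ sg a = -1 := by
  revert a; decide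

lemma zmod2 (a : ZMod 2) : a = 0 ∨ a = 1 := by
  revert a; decide

lemma add_self2 (a : ZMod 2) : a + a = 0 := by revert a; decide

lemma mul_self2 (a : ZMod 2) : a * a = a := by revert a; decide

section General

variable {ι : Type*} [Fintype ι] [DecidableEq ι]

omit [Fintype ι] [DecidableEq ι] in
lemma add_self_fun (x : ι → ZMod 2) : x + x = 0 := by
  funext i; exact add_self2 _

/-- nontrivial additive characters sum to zero -/
lemma char_sum (g : (ι → ZMod 2) → ZMod 2) (hadd : ∀ x x', g (x + x') = g x + g x')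
    (x0 : ι → ZMod 2) (h0 : g x0 ≠ 0) : ∑ x, sg (g x) = 0 := by
  have h1 : g x0 = 1 := by rcases zmod2 (g x0) with h | h; exact absurd h h0; exact h
  have h2 : ∑ x, sg (g x) = ∑ x, sg (g (x + x0)) :=
    (Equiv.sum_comp (Equiv.addRight x0) (fun x => sg (g x))).symm
  have h3 : ∀ x, sg (g (x + x0)) = - sg (g x) := by
    intro x; rw [hadd, sg_add, h1, sg_one]; ring
  simp only [h3, Finset.sum_neg_distrib] at h2
  omega

/-- a quadratic function with nondegenerate polar form has Walsh value of square `2^n` -/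
lemma quad_sum (Q : (ι → ZMod 2) → ZMod 2) (B : (ι → ZMod 2) → (ι → ZMod 2) → ZMod 2)
    (hQ : ∀ x h, Q (x + h) = Q x + Q h + Q 0 + B x h)
    (hadd : ∀ x x' h, B (x + x') h = B x h + B x' h)
    (hnd : ∀ h, (∀ x, B x h = 0) → h = 0) :
    (∑ x, sg (Q x)) ^ 2 = 2 ^ Fintype.card ι := by
  have hB0 : ∀ x, B x 0 = 0 := by
    intro x
    have h := hQ x 0
    rw [add_zero] at h
    have h2 := add_self2 (Q 0)
    have h3 : Q x = Q x + (Q 0 + Q 0) + B x 0 := by rw [← add_assoc]; exact h
    rw [h2, add_zero] at h3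
    exact (left_eq_add.mp h3)
  have e1 : (∑ x, sg (Q x)) ^ 2 = ∑ h, ∑ x, sg (Q x) * sg (Q (x + h)) := by
    rw [pow_two, Finset.sum_mul_sum, Finset.sum_comm]
    have : ∀ x, ∑ z, sg (Q x) * sg (Q z) = ∑ h, sg (Q x) * sg (Q (x + h)) := by
      intro x
      exact (Equiv.sum_comp (Equiv.addLeft x) (fun z => sg (Q x) * sg (Q z))).symm
    rw [Finset.sum_comm]
    rw [Finset.sum_congr rfl (fun x _ => this x), Finset.sum_comm]
  have e2 : ∀ h, ∑ x, sg (Q x) * sg (Q (x + h)) = sg (Q h + Q 0) * ∑ x, sg (B x h) := by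
    intro h
    rw [Finset.mul_sum]
    apply Finset.sum_congr rfl
    intro x _
    rw [← sg_add, ← sg_add, hQ]
    congr 1
    have := add_self2 (Q x)
    linear_combination this
  have e3 : ∀ h, h ≠ 0 → ∑ x, sg (B x h) = 0 := by
    intro h hh
    by_contra hcon
    apply hh
    apply hnd
    intro x
    by_contra hx
    exact hcon (char_sum (fun x => B x h) (fun x x' => hadd x x' h) x hx)
  rw [e1, Finset.sum_congr rfl (fun h _ => e2 h), Finset.sum_eq_single 0]
  · simp only [hB0, sg_zero, Finset.sum_const, Finset.card_univ, add_self2, one_mul]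
    rw [Fintype.card_fun, ZMod.card]
    simp
  · intro h _ hh
    rw [e3 h hh, mul_zero]
  · intro h; exact absurd (Finset.mem_univ _) h

/-- the polar form of the two-clique function -/
def BA (A : Finset ι) (x h : ι → ZMod 2) : ZMod 2 :=
  ∑ i, ∑ j, if i ≠ j ∧ (i ∈ A ↔ j ∈ A) then x i * h j else 0

lemma BA_add (A : Finset ι) (x x' h : ι → ZMod 2) : BA A (x + x') h = BA A x h + BA A x' h := by
  unfold BA
  rw [← Finset.sum_add_distrib]
  apply Finset.sum_congr rfl
  intro i _
  rw [← Finset.sum_add_distrib]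
  apply Finset.sum_congr rfl
  intro j _
  split_ifs
  · simp only [Pi.add_apply]; ring
  · ring

/-- has the given polar form -/
def Pol (A : Finset ι) (f : (ι → ZMod 2) → ZMod 2) : Prop :=
  ∀ x h, f (x + h) = f x + f h + f 0 + BA A x h

lemma Pol_perm (A : Finset ι) (f : (ι → ZMod 2) → ZMod 2) (hf : Pol A f) (π : Equiv.Perm ι) :
    Pol (A.map π.toEmbedding) (fun x => f (fun i => x (π i))) := by
  intro x h
  have h1 := hf (fun i => x (π i)) (fun i => h (π i))
  have h2 : (fun i => x (π i)) + (fun i => h (π i)) = (fun i => (x + h) (π i)) := rfl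
  rw [h2] at h1
  show f (fun i => (x + h) (π i)) = f (fun i => x (π i)) + f (fun i => h (π i)) +
    f (fun i => (0 : ι → ZMod 2) (π i)) + BA (A.map π.toEmbedding) x h
  have h3 : (fun i => (0 : ι → ZMod 2) (π i)) = 0 := rfl
  rw [h1, h3]
  congr 1
  unfold BA
  rw [← Equiv.sum_comp π (fun i => ∑ j, if i ≠ j ∧ (i ∈ A.map π.toEmbedding ↔
    j ∈ A.map π.toEmbedding) then x i * h j else 0)]
  apply Finset.sum_congr rfl
  intro i _
  rw [← Equiv.sum_comp π (fun j => if π i ≠ j ∧ (π i ∈ A.map π.toEmbedding ↔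
    j ∈ A.map π.toEmbedding) then x (π i) * h j else 0)]
  apply Finset.sum_congr rfl
  intro j _
  have e1 : ∀ k, (π k ∈ A.map π.toEmbedding) ↔ k ∈ A := by
    intro k
    simp
  simp only [e1, ne_eq, EmbeddingLike.apply_eq_iff_eq]

/-- inner product -/
def dot (x y : ι → ZMod 2) : ZMod 2 := ∑ i, x i * y i

omit [DecidableEq ι] in
lemma dot_add_left (x x' y : ι → ZMod 2) : dot (x + x') y = dot x y + dot x' y := by
  unfold dot
  rw [← Finset.sum_add_distrib]
  apply Finset.sum_congr rfl
  intro i _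
  simp only [Pi.add_apply]; ring

omit [DecidableEq ι] in
lemma dot_add_right (x y y' : ι → ZMod 2) : dot x (y + y') = dot x y + dot x y' := by
  unfold dot
  rw [← Finset.sum_add_distrib]
  apply Finset.sum_congr rfl
  intro i _
  simp only [Pi.add_apply]; ring

lemma dot_single (i : ι) (y : ι → ZMod 2) : dot (Pi.single i 1) y = y i := by
  unfold dot
  rw [Finset.sum_eq_single i]
  · simp
  · intro j _ hj; simp [Pi.single_eq_of_ne hj]
  · intro h; exact absurd (Finset.mem_univ _) h

omit [DecidableEq ι] in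
lemma dot_comm (x y : ι → ZMod 2) : dot x y = dot y x := by
  unfold dot
  apply Finset.sum_congr rfl
  intro i _; ring

lemma BA_single (A : Finset ι) (l : ι) (h : ι → ZMod 2) :
    BA A (Pi.single l 1) h = (∑ j, if (l ∈ A ↔ j ∈ A) then h j else 0) + h l := by
  unfold BA
  rw [Finset.sum_eq_single l]
  · have h1 : ∀ j, (if l ≠ j ∧ (l ∈ A ↔ j ∈ A) then (Pi.single l (1 : ZMod 2) : ι → ZMod 2) l * h j
        else 0) = (if (l ∈ A ↔ j ∈ A) then h j else 0) + (if l = j then h j else 0) := by
      intro j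
      by_cases hj : l = j
      · subst hj; simp [add_self2]
      · simp [hj]
    rw [Finset.sum_congr rfl (fun j _ => h1 j), Finset.sum_add_distrib]
    simp
  · intro i _ hi
    simp [Pi.single_eq_of_ne hi]
  · intro h; exact absurd (Finset.mem_univ _) h

end General

/-- the two-clique quadratic function -/
def QA {n : ℕ} (A : Finset (Fin n)) (x : Fin n → ZMod 2) : ZMod 2 :=
  ∑ i, ∑ j, if i < j ∧ (i ∈ A ↔ j ∈ A) then x i * x j else 0

lemma QA_zero {n : ℕ} (A : Finset (Fin n)) : QA A 0 = 0 := by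
  unfold QA
  simp

lemma Pol_QA {n : ℕ} (A : Finset (Fin n)) : Pol A (QA A) := by
  intro x h
  rw [QA_zero, add_zero]
  have e1 : BA A x h = ∑ i, ∑ j, ((if i < j ∧ (i ∈ A ↔ j ∈ A) then x i * h j else 0) +
      (if j < i ∧ (i ∈ A ↔ j ∈ A) then x i * h j else 0)) := by
    unfold BA
    apply Finset.sum_congr rfl
    intro i _
    apply Finset.sum_congr rfl
    intro j _
    rcases lt_trichotomy i j with hij | hij | hij
    · have h1 : i ≠ j := ne_of_lt hij
      have h2 : ¬ j < i := not_lt.mpr hij.le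
      simp [h1, h2, hij]
    · subst hij; simp
    · have h1 : i ≠ j := (ne_of_lt hij).symm
      have h2 : ¬ i < j := not_lt.mpr hij.le
      simp [h1, h2, hij]
  have e2 : ∑ i, ∑ j, (if j < i ∧ (i ∈ A ↔ j ∈ A) then x i * h j else 0) =
      ∑ i, ∑ j, (if i < j ∧ (i ∈ A ↔ j ∈ A) then h i * x j else 0) := by
    rw [Finset.sum_comm]
    apply Finset.sum_congr rfl
    intro i _
    apply Finset.sum_congr rfl
    intro j _
    have : (j ∈ A ↔ i ∈ A) ↔ (i ∈ A ↔ j ∈ A) := by tauto
    simp only [this, mul_comm]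
  rw [e1]
  simp only [Finset.sum_add_distrib]
  rw [e2]
  unfold QA
  simp only [← Finset.sum_add_distrib]
  apply Finset.sum_congr rfl
  intro i _
  apply Finset.sum_congr rfl
  intro j _
  split_ifs
  · simp only [Pi.add_apply]; ring
  · ring

lemma linear_form {n : ℕ} (g : (Fin n → ZMod 2) → ZMod 2)
    (hg : ∀ x h, g (x + h) = g x + g h + g 0) :
    ∃ (w : Fin n → ZMod 2) (c : ZMod 2), ∀ x, g x = ∑ i, w i * x i + c := by
  let φ : (Fin n → ZMod 2) →+ ZMod 2 :=
    { toFun := fun x => g x + g 0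
      map_zero' := add_self2 _
      map_add' := by
        intro x h
        rw [hg]
        have := add_self2 (g 0)
        ring }
  refine ⟨fun i => φ (Pi.single i 1), g 0, ?_⟩
  intro x
  have h1 : g x = φ x + g 0 := by
    show g x = g x + g 0 + g 0
    rw [add_assoc, add_self2, add_zero]
  rw [h1]
  congr 1
  have h2 : x = ∑ i, Pi.single i (x i) := (Finset.univ_sum_single x).symm
  conv_lhs => rw [h2]
  rw [map_sum]
  apply Finset.sum_congr rfl
  intro i _
  rcases zmod2 (x i) with h | h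
  · rw [h, Pi.single_zero, map_zero, mul_zero]
  · rw [h, mul_one]

lemma Pol_of_form {n : ℕ} (A : Finset (Fin n)) (f : (Fin n → ZMod 2) → ZMod 2)
    (w : Fin n → ZMod 2) (c : ZMod 2) (hf : ∀ x, f x = QA A x + ∑ i, w i * x i + c) :
    Pol A f := by
  intro x h
  rw [hf, hf, hf, hf, Pol_QA A x h]
  have e : ∑ i, w i * (x + h) i = ∑ i, w i * x i + ∑ i, w i * h i := by
    rw [← Finset.sum_add_distrib]
    apply Finset.sum_congr rfl
    intro i _
    simp only [Pi.add_apply]; ring
  have e0 : ∑ i, w i * (0 : Fin n → ZMod 2) i = 0 := by simp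
  rw [e, e0]
  have := add_self2 c
  linear_combination (-1 : ZMod 2) * this

lemma form_of_Pol {n : ℕ} (A : Finset (Fin n)) (f : (Fin n → ZMod 2) → ZMod 2)
    (hf : Pol A f) : ∃ (w : Fin n → ZMod 2) (c : ZMod 2), ∀ x,
      f x = QA A x + ∑ i, w i * x i + c := by
  obtain ⟨w, c, h⟩ := linear_form (fun x => f x + QA A x) (by
    intro x h
    show f (x + h) + QA A (x + h) = (f x + QA A x) + (f h + QA A h) + (f 0 + QA A 0)
    rw [hf x h, Pol_QA A x h]
    have := add_self2 (BA A x h)
    linear_combination this)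
  refine ⟨w, c, ?_⟩
  intro x
  have h1 : f x + QA A x = ∑ i, w i * x i + c := h x
  have h2 := add_self2 (QA A x)
  linear_combination h1 - h2

lemma pair_sum {M : Type*} [AddCommMonoid M] (m : ℕ) (φ : Fin (2 * m) → M) :
    ∑ l, φ l = ∑ p : Fin m, (φ ⟨2 * p.val, by omega⟩ + φ ⟨2 * p.val + 1, by omega⟩) := by
  let e : Fin m × Fin 2 ≃ Fin (2 * m) :=
    { toFun := fun q => ⟨2 * q.1.val + q.2.val, by have := q.1.2; have := q.2.2; omega⟩
      invFun := fun l => (⟨l.val / 2, by have := l.2; omega⟩, ⟨l.val % 2, by omega⟩)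
      left_inv := by
        rintro ⟨⟨a, ha⟩, ⟨b, hb⟩⟩
        simp only [Prod.mk.injEq, Fin.mk.injEq]
        omega
      right_inv := by
        rintro ⟨l, hl⟩
        simp only [Fin.mk.injEq]
        omega }
  rw [← Equiv.sum_comp e, Fintype.sum_prod_type]
  apply Finset.sum_congr rfl
  intro p _
  rw [Fin.sum_univ_two]
  rfl

/-- twisted pair form -/
def vv {m : ℕ} (k : ℕ) (y x : Fin (2 * m) → ZMod 2) (i : Fin m) : ZMod 2 :=
  (if i.val < k then uu y i else 0) * uu x i

lemma brk_eq {m : ℕ} (k : ℕ) (x y : Fin (2 * m) → ZMod 2) :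
    brk k x y = dot x y + ∑ i : Fin m, ∑ j : Fin m, if i ≤ j then vv k y x i * vv k y x j else 0 := by
  unfold brk dot
  congr 1
  apply Finset.sum_congr rfl
  intro i _
  apply Finset.sum_congr rfl
  intro j _
  unfold vv
  by_cases hij : i ≤ j
  · by_cases hjk : j.val < k
    · have hik : i.val < k := lt_of_le_of_lt (Fin.le_def.mp hij) hjk
      simp only [hij, hjk, hik, and_self, if_true]
      ring
    · simp [hjk]
  · simp [hij]

/-- the polar form of the bracket -/
def BT {m : ℕ} (k : ℕ) (y x h : Fin (2 * m) → ZMod 2) : ZMod 2 :=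
  ∑ i : Fin m, ∑ j : Fin m, if i ≠ j then vv k y x i * vv k y h j else 0

lemma uu_add {m : ℕ} (x h : Fin (2 * m) → ZMod 2) (i : Fin m) :
    uu (x + h) i = uu x i + uu h i := by
  unfold uu; simp only [Pi.add_apply]; ring

lemma vv_add {m : ℕ} (k : ℕ) (y x h : Fin (2 * m) → ZMod 2) (i : Fin m) :
    vv k y (x + h) i = vv k y x i + vv k y h i := by
  unfold vv; rw [uu_add]; ring

lemma BT_add {m : ℕ} (k : ℕ) (y x x' h : Fin (2 * m) → ZMod 2) :
    BT k y (x + x') h = BT k y x h + BT k y x' h := by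
  unfold BT
  rw [← Finset.sum_add_distrib]
  apply Finset.sum_congr rfl
  intro i _
  rw [← Finset.sum_add_distrib]
  apply Finset.sum_congr rfl
  intro j _
  split_ifs
  · rw [vv_add]; ring
  · ring

lemma brk_polar {m : ℕ} (k : ℕ) (y x h : Fin (2 * m) → ZMod 2) :
    brk k (x + h) y = brk k x y + brk k h y + brk k 0 y + BT k y x h := by
  have h0 : brk k 0 y = 0 := by
    rw [brk_eq]
    have : ∀ i, vv k y 0 i = 0 := by
      intro i; unfold vv uu; simp
    simp [this, dot]
  rw [h0, add_zero, brk_eq, brk_eq, brk_eq, dot_add_left]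
  have e1 : BT k y x h = ∑ i : Fin m, ∑ j : Fin m,
      ((if i ≤ j then vv k y x i * vv k y h j else 0) +
      (if j ≤ i then vv k y x i * vv k y h j else 0)) := by
    unfold BT
    apply Finset.sum_congr rfl
    intro i _
    apply Finset.sum_congr rfl
    intro j _
    rcases lt_trichotomy i j with hij | hij | hij
    · have h1 : i ≠ j := ne_of_lt hij
      have h2 : ¬ j ≤ i := not_le.mpr hij
      simp [h1, h2, hij.le]
    · subst hij; simp [add_self2]
    · have h1 : i ≠ j := (ne_of_lt hij).symm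
      have h2 : ¬ i ≤ j := not_le.mpr hij
      simp [h1, h2, hij.le]
  have e2 : ∑ i : Fin m, ∑ j : Fin m, (if j ≤ i then vv k y x i * vv k y h j else 0) =
      ∑ i : Fin m, ∑ j : Fin m, (if i ≤ j then vv k y h i * vv k y x j else 0) := by
    rw [Finset.sum_comm]
    apply Finset.sum_congr rfl
    intro i _
    apply Finset.sum_congr rfl
    intro j _
    simp only [mul_comm]
  have e3 : ∑ i : Fin m, ∑ j : Fin m,
      (if i ≤ j then vv k y (x + h) i * vv k y (x + h) j else 0) =
      ∑ i : Fin m, ∑ j : Fin m, (if i ≤ j then vv k y x i * vv k y x j else 0) +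
      ∑ i : Fin m, ∑ j : Fin m, (if i ≤ j then vv k y h i * vv k y h j else 0) +
      (∑ i : Fin m, ∑ j : Fin m, (if i ≤ j then vv k y x i * vv k y h j else 0) +
      ∑ i : Fin m, ∑ j : Fin m, (if i ≤ j then vv k y h i * vv k y x j else 0)) := by
    simp only [← Finset.sum_add_distrib]
    apply Finset.sum_congr rfl
    intro i _
    apply Finset.sum_congr rfl
    intro j _
    split_ifs
    · rw [vv_add, vv_add]; ring
    · ring
  rw [e1]
  simp only [Finset.sum_add_distrib]
  rw [e2, e3]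
  ring

lemma uu_single0 {m : ℕ} (p i : Fin m) :
    uu (Pi.single (⟨2 * p.val, by omega⟩ : Fin (2 * m)) (1 : ZMod 2)) i =
      if i = p then 1 else 0 := by
  unfold uu
  have h1 : (⟨2 * i.val + 1, by omega⟩ : Fin (2 * m)) ≠ ⟨2 * p.val, by omega⟩ := by
    intro h; rw [Fin.mk.injEq] at h; omega
  rw [Pi.single_eq_of_ne h1, add_zero]
  by_cases hip : i = p
  · subst hip; simp
  · have h2 : (⟨2 * i.val, by omega⟩ : Fin (2 * m)) ≠ ⟨2 * p.val, by omega⟩ := by
      intro h; rw [Fin.mk.injEq] at h; apply hip; ext; omega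
    rw [Pi.single_eq_of_ne h2, if_neg hip]

lemma uu_single1 {m : ℕ} (p i : Fin m) :
    uu (Pi.single (⟨2 * p.val + 1, by omega⟩ : Fin (2 * m)) (1 : ZMod 2)) i =
      if i = p then 1 else 0 := by
  unfold uu
  have h1 : (⟨2 * i.val, by omega⟩ : Fin (2 * m)) ≠ ⟨2 * p.val + 1, by omega⟩ := by
    intro h; rw [Fin.mk.injEq] at h; omega
  rw [Pi.single_eq_of_ne h1, zero_add]
  by_cases hip : i = p
  · subst hip; simp
  · have h2 : (⟨2 * i.val + 1, by omega⟩ : Fin (2 * m)) ≠ ⟨2 * p.val + 1, by omega⟩ := by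
      intro h; rw [Fin.mk.injEq] at h; apply hip; ext; omega
    rw [Pi.single_eq_of_ne h2, if_neg hip]

lemma BT_of_uu {m : ℕ} (k : ℕ) (y e h : Fin (2 * m) → ZMod 2) (p : Fin m)
    (he : ∀ i, uu e i = if i = p then 1 else 0) :
    BT k y e h = (if p.val < k then uu y p else 0) * (∑ j, vv k y h j + vv k y h p) := by
  unfold BT
  rw [Finset.sum_eq_single p]
  · have h1 : ∀ j, (if p ≠ j then vv k y e p * vv k y h j else 0) =
        (if p.val < k then uu y p else 0) * (vv k y h j + if p = j then vv k y h j else 0) := by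
      intro j
      have : vv k y e p = if p.val < k then uu y p else 0 := by
        unfold vv; rw [he p]; simp
      rw [this]
      by_cases hj : p = j
      · subst hj; simp [add_self2]
      · simp [hj]
    rw [Finset.sum_congr rfl (fun j _ => h1 j), ← Finset.mul_sum, Finset.sum_add_distrib]
    simp
  · intro i _ hi
    have : vv k y e i = 0 := by unfold vv; rw [he i, if_neg hi, mul_zero]
    simp [this]
  · intro h; exact absurd (Finset.mem_univ _) h

lemma summand1 (a0 a1 c α β γ h0 h1 : ZMod 2)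
    (H0 : (a0 * α + (1 + a0) * β + h0) + c * (γ + c * (h0 + h1)) = 0)
    (H1 : (a1 * α + (1 + a1) * β + h1) + c * (γ + c * (h0 + h1)) = 0) :
    a0 * h0 + a1 * h1 = (a0 + a1) * α + (γ + α + β) * ((a0 + a1) * c) ∧
    (1 + a0) * h0 + (1 + a1) * h1 = (a0 + a1) * β + (γ + α + β) * ((a0 + a1) * c) ∧
    c * (h0 + h1) = (α + β) * ((a0 + a1) * c) := by
  revert a0 a1 c α β γ h0 h1
  decide

lemma nondeg {m : ℕ} (A : Finset (Fin (2 * m))) (hA : Even A.card) (k : ℕ)
    (y h : Fin (2 * m) → ZMod 2) (hB : ∀ x, BA A x h + BT k y x h = 0) : h = 0 := by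
  set a : Fin (2 * m) → ZMod 2 := fun l => if l ∈ A then 1 else 0 with ha
  set α : ZMod 2 := ∑ l, a l * h l with hα
  set β : ZMod 2 := ∑ l, (1 + a l) * h l with hβ
  set γ : ZMod 2 := ∑ j, vv k y h j with hγ
  set c : Fin m → ZMod 2 := fun p => if p.val < k then uu y p else 0 with hc
  have hBA : ∀ l, BA A (Pi.single l 1) h = (a l * α + (1 + a l) * β) + h l := by
    intro l
    rw [BA_single]
    congr 1
    by_cases hl : l ∈ A
    · have e1 : a l = 1 := by rw [ha]; simp [hl]
      rw [e1, one_mul, show (1 : ZMod 2) + 1 = 0 from by decide, zero_mul, add_zero, hα]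
      apply Finset.sum_congr rfl
      intro j _
      rw [ha]
      by_cases hj : j ∈ A <;> simp [hl, hj]
    · have e1 : a l = 0 := by rw [ha]; simp [hl]
      rw [e1, zero_mul, zero_add, add_zero, one_mul, hβ]
      apply Finset.sum_congr rfl
      intro j _
      rw [ha]
      by_cases hj : j ∈ A
      · simp [hl, hj, show (1 : ZMod 2) + 1 = 0 from by decide]
      · simp [hl, hj]
  have hv : ∀ p : Fin m, vv k y h p = c p * (h ⟨2 * p.val, by omega⟩ + h ⟨2 * p.val + 1, by omega⟩) := by
    intro p; rfl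
  have K : ∀ p : Fin m,
      a ⟨2 * p.val, by omega⟩ * h ⟨2 * p.val, by omega⟩ +
        a ⟨2 * p.val + 1, by omega⟩ * h ⟨2 * p.val + 1, by omega⟩ =
        (a ⟨2 * p.val, by omega⟩ + a ⟨2 * p.val + 1, by omega⟩) * α +
          (γ + α + β) * ((a ⟨2 * p.val, by omega⟩ + a ⟨2 * p.val + 1, by omega⟩) * c p) ∧
      (1 + a ⟨2 * p.val, by omega⟩) * h ⟨2 * p.val, by omega⟩ +
        (1 + a ⟨2 * p.val + 1, by omega⟩) * h ⟨2 * p.val + 1, by omega⟩ =
        (a ⟨2 * p.val, by omega⟩ + a ⟨2 * p.val + 1, by omega⟩) * β +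
          (γ + α + β) * ((a ⟨2 * p.val, by omega⟩ + a ⟨2 * p.val + 1, by omega⟩) * c p) ∧
      c p * (h ⟨2 * p.val, by omega⟩ + h ⟨2 * p.val + 1, by omega⟩) =
        (α + β) * ((a ⟨2 * p.val, by omega⟩ + a ⟨2 * p.val + 1, by omega⟩) * c p) := by
    intro p
    apply summand1
    · have e := hB (Pi.single ⟨2 * p.val, by omega⟩ 1)
      rw [hBA, BT_of_uu k y _ h p (uu_single0 p), ← hγ, hv p] at e
      exact e
    · have e := hB (Pi.single ⟨2 * p.val + 1, by omega⟩ 1)
      rw [hBA, BT_of_uu k y _ h p (uu_single1 p), ← hγ, hv p] at e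
      exact e
  set κ : ZMod 2 := ∑ p : Fin m, (a ⟨2 * p.val, by omega⟩ + a ⟨2 * p.val + 1, by omega⟩) * c p with hκ
  have hsumA : ∑ p : Fin m, (a ⟨2 * p.val, by omega⟩ + a ⟨2 * p.val + 1, by omega⟩) = 0 := by
    rw [← pair_sum m a, ha]
    simp only [Finset.sum_ite_mem, Finset.univ_inter, Finset.sum_const, nsmul_eq_mul, mul_one]
    exact (ZMod.natCast_eq_zero_iff_even).mpr hA
  have E1 : α = (γ + α + β) * κ := by
    conv_lhs => rw [hα, pair_sum]
    rw [Finset.sum_congr rfl (fun p _ => (K p).1), Finset.sum_add_distrib, ← Finset.sum_mul,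
      hsumA, zero_mul, zero_add, ← Finset.mul_sum]
  have E2 : β = (γ + α + β) * κ := by
    conv_lhs => rw [hβ, pair_sum]
    rw [Finset.sum_congr rfl (fun p _ => (K p).2.1), Finset.sum_add_distrib, ← Finset.sum_mul,
      hsumA, zero_mul, zero_add, ← Finset.mul_sum]
  have E3 : γ = (α + β) * κ := by
    conv_lhs => rw [hγ]
    rw [Finset.sum_congr rfl (fun p _ => (hv p).trans (K p).2.2), ← Finset.mul_sum]
  have E4 : α + β = 0 := by
    have : α = β := E1.trans E2.symm
    rw [this]; exact add_self2 β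
  have E5 : γ = 0 := by rw [E3, E4, zero_mul]
  have E6 : α = 0 := by rw [E1, E5, zero_add, E4, zero_mul]
  have E7 : β = 0 := by rw [E6, zero_add] at E4; exact E4
  have hv0 : ∀ p : Fin m, vv k y h p = 0 := by
    intro p; rw [hv p, (K p).2.2, E4, zero_mul]
  funext l
  have hl : l = ⟨2 * (l.val / 2), by omega⟩ ∨ l = ⟨2 * (l.val / 2) + 1, by omega⟩ := by
    rcases Nat.mod_two_eq_zero_or_one l.val with h | h
    · left; ext; simp only; omega
    · right; ext; simp only; omega
  have hp : l.val / 2 < m := by omega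
  have hBT : BT k y (Pi.single l 1) h = 0 := by
    rcases hl with hl | hl
    · rw [hl, BT_of_uu k y _ h ⟨l.val / 2, hp⟩ (uu_single0 ⟨l.val / 2, hp⟩), ← hγ, E5, hv0]
      simp
    · rw [hl, BT_of_uu k y _ h ⟨l.val / 2, hp⟩ (uu_single1 ⟨l.val / 2, hp⟩), ← hγ, E5, hv0]
      simp
  have := hB (Pi.single l 1)
  rw [hBA, hBT, E6, E7] at this
  simpa using this

/-- the forward direction: two-clique functions have flat spectra -/
theorem flat_of_Pol {m : ℕ} (A : Finset (Fin (2 * m))) (hA : Even A.card)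
    (f : (Fin (2 * m) → ZMod 2) → ZMod 2) (hf : Pol A f) (k : ℕ) (y : Fin (2 * m) → ZMod 2) :
    WH k f y = 2 ^ m ∨ WH k f y = -2 ^ m := by
  have h1 : WH k f y = ∑ x, sg (f x + brk k x y) := rfl
  have h2 := quad_sum (fun x => f x + brk k x y) (fun x h => BA A x h + BT k y x h) (by
    intro x h
    show f (x + h) + brk k (x + h) y = (f x + brk k x y) + (f h + brk k h y) +
      (f 0 + brk k 0 y) + (BA A x h + BT k y x h)
    rw [hf x h, brk_polar]; ring)
    (by
      intro x x' h
      show BA A (x + x') h + BT k y (x + x') h = _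
      rw [BA_add, BT_add]; ring)
    (fun h hh => nondeg A hA k y h hh)
  rw [← h1, Fintype.card_fin] at h2
  have h3 : (WH k f y - 2 ^ m) * (WH k f y + 2 ^ m) = 0 := by
    have : ((2 : ℤ) ^ m) ^ 2 = 2 ^ (2 * m) := by rw [← pow_mul, mul_comm]
    linear_combination h2 - this
  rcases mul_eq_zero.mp h3 with h | h
  · left; omega
  · right; omega

end Pool.Agent.R58.KBent
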