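import Pool.Agent.R58.KBentClass
import Pool.Agent.R58.KBentQuad

/-! The converse direction and the final classification of `(n/2)`-bent functions. -/

namespace Pool.Agent.R58.KBent

open Finset

section General

variable {ι : Type*} [Fintype ι] [DecidableEq ι]

/-- indicator vector -/
def ind (S : Finset ι) (i : ι) : ZMod 2 := if i ∈ S then 1 else 0

/-- finsets are vectors -/
def indEquiv : Finset ι ≃ (ι → ZMod 2) where
  toFun := ind
  invFun x := univ.filter (fun i => x i = 1)
  left_inv S := by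
    ext i
    simp [ind]
  right_inv x := by
    funext i
    simp only [ind, Finset.mem_filter, Finset.mem_univ, true_and]
    rcases zmod2 (x i) with h | h <;> simp [h]

lemma sum_ind {M : Type*} [AddCommMonoid M] (g : (ι → ZMod 2) → M) :
    ∑ x, g x = ∑ S : Finset ι, g (ind S) :=
  (Equiv.sum_comp (indEquiv (ι := ι)) g).symm

lemma ind_symmDiff (S T : Finset ι) : ind (symmDiff S T) = ind S + ind T := by
  funext i
  simp only [ind, Pi.add_apply, Finset.mem_symmDiff]
  by_cases h1 : i ∈ S <;> by_cases h2 : i ∈ T <;> simp [h1, h2]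
  decide

lemma ind_insert (a : ι) (S : Finset ι) (ha : a ∉ S) :
    ind (insert a S) = Pi.single a 1 + ind S := by
  funext i
  simp only [ind, Pi.add_apply, Finset.mem_insert]
  by_cases h1 : i = a
  · subst h1; simp [ha]
  · simp [h1, Pi.single_eq_of_ne h1]

lemma sg_sum {κ : Type*} (s : Finset κ) (g : κ → ZMod 2) :
    sg (∑ i ∈ s, g i) = ∏ i ∈ s, sg (g i) := by
  classical
  induction s using Finset.induction_on with
  | empty => simp
  | insert a s ha ih => rw [Finset.sum_insert ha, Finset.prod_insert ha, sg_add, ih]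

lemma chi_sg (Y S : Finset ι) : chi Y S = ((sg (dot (ind Y) (ind S)) : ℤ) : ℝ) := by
  have h1 : dot (ind Y) (ind S) = ∑ i ∈ S, ind Y i := by
    unfold dot
    have : ∀ i, ind Y i * ind S i = if i ∈ S then ind Y i else 0 := by
      intro i; unfold ind; by_cases h : i ∈ S <;> simp [h]
    rw [Finset.sum_congr rfl (fun i _ => this i)]
    simp
  rw [h1, sg_sum]
  unfold chi
  push_cast
  apply Finset.prod_congr rfl
  intro i _
  unfold ind
  by_cases h : i ∈ Y
  · simp [h, sg_one]
  · simp [h]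

lemma sg_inj (a b : ZMod 2) (h : sg a = sg b) : a = b := by
  revert h; revert a b; decide

/-- ordinary Walsh transform -/
def wal (f : (ι → ZMod 2) → ZMod 2) (y : ι → ZMod 2) : ℤ := ∑ x, sg (f x + dot x y)

lemma dot_sum (z : ι → ZMod 2) : ∑ y, sg (dot z y) = if z = 0 then 2 ^ Fintype.card ι else 0 := by
  split_ifs with h
  · subst h
    have : ∀ y : ι → ZMod 2, dot 0 y = 0 := by intro y; simp [dot]
    simp only [this, sg_zero, Finset.sum_const, Finset.card_univ]
    rw [Fintype.card_fun, ZMod.card]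
    simp
  · obtain ⟨i, hi⟩ : ∃ i, z i ≠ 0 := by
      by_contra hcon
      push Not at hcon
      exact h (funext hcon)
    apply char_sum (fun y => dot z y) (fun x x' => dot_add_right z x x') (Pi.single i 1)
    rw [dot_comm, dot_single]
    exact hi

lemma inversion (f : (ι → ZMod 2) → ZMod 2) (x : ι → ZMod 2) :
    ∑ y, wal f y * sg (dot x y) = 2 ^ Fintype.card ι * sg (f x) := by
  unfold wal
  have h1 : ∀ y, (∑ z, sg (f z + dot z y)) * sg (dot x y) =
      ∑ z, sg (f z) * sg (dot (z + x) y) := by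
    intro y
    rw [Finset.sum_mul]
    apply Finset.sum_congr rfl
    intro z _
    rw [dot_add_left, sg_add, sg_add]; ring
  rw [Finset.sum_congr rfl (fun y _ => h1 y), Finset.sum_comm]
  simp only [← Finset.mul_sum, dot_sum]
  rw [Finset.sum_eq_single x]
  · rw [add_self_fun, if_pos rfl]; ring
  · intro z _ hz
    rw [if_neg, mul_zero]
    intro h
    apply hz
    have : z + x + x = x := by rw [h, zero_add]
    rw [add_assoc, add_self_fun, add_zero] at this
    exact this
  · intro h; exact absurd (Finset.mem_univ _) h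

lemma wal_perm (f : (ι → ZMod 2) → ZMod 2) (π : Equiv.Perm ι) (y : ι → ZMod 2) :
    wal (fun x => f (fun i => x (π i))) y = wal f (fun i => y (π i)) := by
  unfold wal
  let e : (ι → ZMod 2) ≃ (ι → ZMod 2) :=
    { toFun := fun x i => x (π i)
      invFun := fun x i => x (π.symm i)
      left_inv := by intro x; funext i; simp
      right_inv := by intro x; funext i; simp }
  rw [← Equiv.sum_comp e (fun x => sg (f x + dot x (fun i => y (π i))))]
  apply Finset.sum_congr rfl
  intro x _
  have : dot x y = dot (e x) (fun i => y (π i)) := by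
    unfold dot
    rw [← Equiv.sum_comp π]
    rfl
  rw [this]
  rfl

/-- normalised dual sign function on finsets -/
noncomputable def GG (m : ℕ) (f : (ι → ZMod 2) → ZMod 2) (S : Finset ι) : ℝ :=
  (wal f (ind S) : ℝ) / 2 ^ m

lemma F_GG (m : ℕ) (hm : Fintype.card ι = 2 * m) (f : (ι → ZMod 2) → ZMod 2) (X : Finset ι) :
    F univ (GG m f) X = 2 ^ m * (sg (f (ind X)) : ℝ) := by
  unfold F GG
  rw [Finset.powerset_univ]
  have h := inversion f (ind X)
  rw [sum_ind, hm] at h
  have h2 : ((∑ S : Finset ι, wal f (ind S) * sg (dot (ind X) (ind S)) : ℤ) : ℝ) =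
      2 ^ (2 * m) * (sg (f (ind X)) : ℝ) := by
    rw [h]; push_cast; ring
  have h3 : ∑ S : Finset ι, (wal f (ind S) : ℝ) / 2 ^ m * chi X S =
      ((∑ S : Finset ι, wal f (ind S) * sg (dot (ind X) (ind S)) : ℤ) : ℝ) / 2 ^ m := by
    push_cast
    rw [Finset.sum_div]
    apply Finset.sum_congr rfl
    intro S _
    rw [chi_sg]; ring
  rw [h3, h2]
  have : (2 : ℝ) ^ (2 * m) = 2 ^ m * 2 ^ m := by rw [two_mul, pow_add]
  rw [this]
  field_simp

/-- the explicit form of the transform of the good function -/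
noncomputable def phi (A : Finset ι) (t : ℝ) (Z : Finset ι) : ℝ :=
  ((-Complex.I) ^ Z.card).re + t * ((-Complex.I) ^ (symmDiff A Z).card).im

lemma negI_cases (n : ℕ) :
    (Even n ∧ (((-Complex.I) ^ n).re = 1 ∨ ((-Complex.I) ^ n).re = -1) ∧
      ((-Complex.I) ^ n).im = 0) ∨
    (Odd n ∧ ((-Complex.I) ^ n).re = 0 ∧
      (((-Complex.I) ^ n).im = 1 ∨ ((-Complex.I) ^ n).im = -1)) := by
  have h2 : (-Complex.I) ^ 2 = -1 := by rw [neg_sq, Complex.I_sq]
  rcases Nat.even_or_odd n with h | h
  · left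
    obtain ⟨k, rfl⟩ := h
    refine ⟨⟨k, rfl⟩, ?_⟩
    rw [← two_mul, pow_mul, h2]
    rcases neg_one_pow_eq_or ℂ k with h | h <;> rw [h] <;> simp
  · right
    obtain ⟨k, rfl⟩ := h
    refine ⟨⟨k, rfl⟩, ?_⟩
    rw [pow_succ, pow_mul, h2]
    rcases neg_one_pow_eq_or ℂ k with h | h <;> rw [h] <;> simp

lemma phi_eq (A : Finset ι) (k : ℕ) (hA : A.card = 2 * k) (t : ℝ) (Z : Finset ι) :
    phi A t Z = ((-Complex.I) ^ Z.card).re +
      t * (-1) ^ k * (-1) ^ (Z.filter (fun i => i ∈ A)).card * ((-Complex.I) ^ Z.card).im := by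
  unfold phi
  have h2 : (-Complex.I) ^ 2 = -1 := by rw [neg_sq, Complex.I_sq]
  set P := (Z.filter (fun i => i ∈ A)).card with hP
  have hcard : (symmDiff A Z).card + 2 * P = 2 * k + Z.card := by
    have e1 : (symmDiff A Z).card = (A \ Z).card + (Z \ A).card := by
      rw [symmDiff_def]
      exact Finset.card_union_of_disjoint (disjoint_sdiff_sdiff)
    have e2 : P = (A ∩ Z).card := by
      rw [hP]; congr 1; ext x; simp [and_comm]
    have e3 : (A \ Z).card + (A ∩ Z).card = A.card := Finset.card_sdiff_add_card_inter A Z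
    have e4 : (Z \ A).card + (Z ∩ A).card = Z.card := Finset.card_sdiff_add_card_inter Z A
    rw [Finset.inter_comm] at e4
    omega
  have h3 : (-Complex.I) ^ (symmDiff A Z).card * (-1) ^ P = (-1) ^ k * (-Complex.I) ^ Z.card := by
    rw [← h2, ← pow_mul, ← pow_mul, ← pow_add, ← pow_add, hcard]
  have h4 : ((-1 : ℂ) ^ P) * (-1) ^ P = 1 := by
    rw [← mul_pow]; norm_num
  have h5 : (-Complex.I) ^ (symmDiff A Z).card =
      (((-1 : ℝ) ^ k * (-1) ^ P : ℝ) : ℂ) * (-Complex.I) ^ Z.card := by
    push_cast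
    calc (-Complex.I) ^ (symmDiff A Z).card
        = ((-Complex.I) ^ (symmDiff A Z).card * (-1) ^ P) * (-1) ^ P := by
          rw [mul_assoc, h4, mul_one]
      _ = _ := by rw [h3]; ring
  rw [h5, Complex.im_ofReal_mul]
  ring

lemma phi_insert (A : Finset ι) (k : ℕ) (hA : A.card = 2 * k) (t : ℝ) (ht : t = 1 ∨ t = -1)
    (a : ι) (Z : Finset ι) (ha : a ∉ Z) :
    phi A t (insert a Z) * phi A t Z = (if a ∈ A then t * (-1) ^ k else -(t * (-1) ^ k)) *
      (-1) ^ (Z.filter (fun j => (a ∈ A ↔ j ∈ A))).card := by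
  rw [phi_eq A k hA, phi_eq A k hA, card_insert_of_notMem ha, pow_succ]
  set n := Z.card with hn
  set P := (Z.filter (fun i => i ∈ A)).card with hP
  set τ : ℝ := t * (-1) ^ k with hτ
  have hττ : τ * τ = 1 := by
    rw [hτ]
    rcases ht with h | h <;> rcases neg_one_pow_eq_or ℝ k with h' | h' <;> rw [h, h'] <;> norm_num
  have hPP : ((-1 : ℝ) ^ P) * (-1) ^ P = 1 := by rw [← mul_pow]; norm_num
  have r1 : ((-Complex.I) ^ n * -Complex.I).re = ((-Complex.I) ^ n).im := by
    simp [Complex.mul_re]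
  have r2 : ((-Complex.I) ^ n * -Complex.I).im = -((-Complex.I) ^ n).re := by
    simp [Complex.mul_im]
  rw [r1, r2]
  by_cases haA : a ∈ A
  · have e1 : (Finset.filter (fun i => i ∈ A) (insert a Z)).card = P + 1 := by
      rw [Finset.filter_insert, if_pos haA, card_insert_of_notMem (by simp [ha])]
    have e2 : (Z.filter (fun j => (a ∈ A ↔ j ∈ A))) = Z.filter (fun j => j ∈ A) := by
      apply Finset.filter_congr; intro j _; simp [haA]
    rw [e1, e2, if_pos haA, ← hP, pow_succ]
    rcases negI_cases n with ⟨_, h1, h2⟩ | ⟨_, h1, h2⟩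
    · rw [h2]
      rcases h1 with h1 | h1 <;> rw [h1] <;> ring
    · rw [h1]
      rcases h2 with h2 | h2 <;> rw [h2] <;> ring
  · have e1 : (Finset.filter (fun i => i ∈ A) (insert a Z)).card = P := by
      rw [Finset.filter_insert, if_neg haA]
    have e2 : (Z.filter (fun j => (a ∈ A ↔ j ∈ A))) = Z.filter (fun j => j ∉ A) := by
      apply Finset.filter_congr; intro j _; simp [haA]
    have e3 : P + (Z.filter (fun j => j ∉ A)).card = n := by
      rw [hP, hn]; exact Finset.card_filter_add_card_filter_not (s := Z) (fun i => i ∈ A)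
    rw [e1, e2, if_neg haA]
    set E := (Z.filter (fun j => j ∉ A)).card with hE
    have e4 : ((-1 : ℝ) ^ n) = (-1) ^ P * (-1) ^ E := by rw [← e3, pow_add]
    rcases negI_cases n with ⟨hn2, h1, h2⟩ | ⟨hn2, h1, h2⟩
    · rw [hn2.neg_one_pow] at e4
      have e5 : ((-1 : ℝ) ^ E) = (-1) ^ P := by
        linear_combination (-((-1 : ℝ) ^ E)) * hPP - ((-1 : ℝ) ^ P) * e4
      rw [h2, e5]
      rcases h1 with h1 | h1 <;> rw [h1] <;> ring
    · rw [hn2.neg_one_pow] at e4
      have e5 : ((-1 : ℝ) ^ E) = -(-1) ^ P := by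
        linear_combination (-((-1 : ℝ) ^ E)) * hPP - ((-1 : ℝ) ^ P) * e4
      rw [h1, e5]
      rcases h2 with h2 | h2 <;> rw [h2] <;> ring

end General

end Pool.Agent.R58.KBent
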