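import Mathlib

/-! Quadratic APN functions and their ortho-derivatives. -/

namespace Pool.Agent.R58.Ortho

open Finset

/-- inner product on `F_2^n` -/
def dot {n : ℕ} (x y : Fin n → ZMod 2) : ZMod 2 := ∑ i, x i * y i

/-- derivative -/
def DD {n : ℕ} (F : (Fin n → ZMod 2) → (Fin n → ZMod 2)) (a x : Fin n → ZMod 2) :
    Fin n → ZMod 2 := F (x + a) + F x

/-- almost perfect nonlinear -/
def IsAPN {n : ℕ} (F : (Fin n → ZMod 2) → (Fin n → ZMod 2)) : Prop :=
  ∀ a, a ≠ 0 → ∀ b, (univ.filter (fun x => DD F a x = b)).card ≤ 2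

/-- every coordinate polynomial has degree at most two, and a monomial of degree two occurs -/
def IsQuadratic {n : ℕ} (F : (Fin n → ZMod 2) → (Fin n → ZMod 2)) : Prop :=
  ∃ (c : Fin n → ZMod 2) (l : Fin n → Fin n → ZMod 2) (q : Fin n → Fin n → Fin n → ZMod 2),
    (∀ x i, F x i = c i + ∑ j, l i j * x j +
      ∑ j, ∑ k, if j < k then q i j k * (x j * x k) else 0) ∧
    ∃ i j k, j < k ∧ q i j k ≠ 0

/-- `p` is the ortho-derivative of `F` -/
def IsOrtho {n : ℕ} (F p : (Fin n → ZMod 2) → (Fin n → ZMod 2)) : Prop :=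
  p 0 = 0 ∧ ∀ a, a ≠ 0 → p a ≠ 0 ∧ ∀ x, dot (p a) (DD F a x + DD F a 0) = 0

/-- nonlinearity -/
noncomputable def NL {n : ℕ} (G : (Fin n → ZMod 2) → (Fin n → ZMod 2)) : ℕ :=
  sInf {k : ℕ | ∃ b : Fin n → ZMod 2, b ≠ 0 ∧ ∃ (u : Fin n → ZMod 2) (c : ZMod 2),
    k = (univ.filter (fun x => dot b (G x) ≠ dot u x + c)).card}

lemma zmod2 (a : ZMod 2) : a = 0 ∨ a = 1 := by revert a; decide

lemma add_self2 (a : ZMod 2) : a + a = 0 := by revert a; decide

lemma add_selfv {n : ℕ} (a : Fin n → ZMod 2) : a + a = 0 := by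
  funext i; exact add_self2 _

lemma dot_add_right {n : ℕ} (x y y' : Fin n → ZMod 2) : dot x (y + y') = dot x y + dot x y' := by
  unfold dot
  rw [← Finset.sum_add_distrib]
  apply Finset.sum_congr rfl
  intro i _
  simp only [Pi.add_apply]; ring

/-- polar form -/
def BB {n : ℕ} (F : (Fin n → ZMod 2) → (Fin n → ZMod 2)) (x y : Fin n → ZMod 2) :
    Fin n → ZMod 2 := F (x + y) + F x + F y + F 0

lemma BB_symm {n : ℕ} (F : (Fin n → ZMod 2) → (Fin n → ZMod 2)) (x y : Fin n → ZMod 2) :
    BB F x y = BB F y x := by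
  unfold BB; rw [add_comm x y]; abel

lemma BB_add {n : ℕ} (F : (Fin n → ZMod 2) → (Fin n → ZMod 2)) (hF : IsQuadratic F)
    (x y y' : Fin n → ZMod 2) : BB F x (y + y') = BB F x y + BB F x y' := by
  obtain ⟨c, l, q, h, _⟩ := hF
  have key : ∀ x y i, BB F x y i = ∑ j, ∑ k,
      if j < k then q i j k * (x j * y k + y j * x k) else 0 := by
    intro x y i
    unfold BB
    simp only [Pi.add_apply, h]
    have e1 : ∑ j, l i j * (x j + y j) = ∑ j, l i j * x j + ∑ j, l i j * y j := by
      rw [← Finset.sum_add_distrib]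
      apply Finset.sum_congr rfl; intro j _; ring
    have e2 : ∑ j, ∑ k, (if j < k then q i j k * ((x j + y j) * (x k + y k)) else 0) =
        ∑ j, ∑ k, (if j < k then q i j k * (x j * x k) else 0) +
        ∑ j, ∑ k, (if j < k then q i j k * (y j * y k) else 0) +
        ∑ j, ∑ k, (if j < k then q i j k * (x j * y k + y j * x k) else 0) := by
      simp only [← Finset.sum_add_distrib]
      apply Finset.sum_congr rfl; intro j _
      apply Finset.sum_congr rfl; intro k _
      split_ifs
      · ring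
      · ring
    have e3 : ∑ j, l i j * (0 : Fin n → ZMod 2) j = 0 := by simp
    have e4 : ∑ j, ∑ k, (if j < k then q i j k * ((0 : Fin n → ZMod 2) j *
        (0 : Fin n → ZMod 2) k) else 0) = 0 := by simp
    rw [e1, e2, e3, e4]
    have h1 := add_self2 (c i)
    have h2 := add_self2 (∑ j, l i j * x j)
    have h3 := add_self2 (∑ j, l i j * y j)
    have h4 := add_self2 (∑ j, ∑ k, (if j < k then q i j k * (x j * x k) else 0))
    have h5 := add_self2 (∑ j, ∑ k, (if j < k then q i j k * (y j * y k) else 0))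
    linear_combination 2 * h1 + h2 + h3 + h4 + h5
  funext i
  rw [Pi.add_apply, key, key, key]
  simp only [← Finset.sum_add_distrib]
  apply Finset.sum_congr rfl; intro j _
  apply Finset.sum_congr rfl; intro k _
  split_ifs
  · simp only [Pi.add_apply]; ring
  · ring

/-- quadratic maps sum to zero over spaces of dimension at least three -/
lemma sum_quad {n : ℕ} (d : ℕ) (Q : (Fin (d + 3) → ZMod 2) → (Fin n → ZMod 2))
    (B : (Fin (d + 3) → ZMod 2) → (Fin (d + 3) → ZMod 2) → (Fin n → ZMod 2))
    (hQ : ∀ x y, Q (x + y) = Q x + Q y + Q 0 + B x y)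
    (hB : ∀ x x' y, B (x + x') y = B x y + B x' y) : ∑ x, Q x = 0 := by
  have hB0 : ∀ y, B 0 y = 0 := by
    intro y
    have h := hB 0 0 y
    rw [add_zero] at h
    exact left_eq_add.mp h
  have hBs : ∀ (s : Finset (Fin (d + 2) → ZMod 2)) (φ : (Fin (d + 2) → ZMod 2) →
      (Fin (d + 3) → ZMod 2)) (y), ∑ x ∈ s, B (φ x) y = B (∑ x ∈ s, φ x) y := by
    intro s φ y
    induction s using Finset.induction_on with
    | empty => simp [hB0]
    | insert a s ha ih => rw [Finset.sum_insert ha, Finset.sum_insert ha, hB, ih]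
  set e0 : Fin (d + 3) → ZMod 2 := Fin.cons 1 0 with he0
  have h1 : ∑ x, Q x = ∑ y : Fin (d + 2) → ZMod 2, (Q (Fin.cons 0 y) + Q (Fin.cons 1 y)) := by
    rw [← (Fin.consEquiv (fun _ : Fin (d + 3) => ZMod 2)).sum_comp, Fintype.sum_prod_type,
      Finset.sum_comm]
    apply Finset.sum_congr rfl
    intro y _
    have : (Finset.univ : Finset (ZMod 2)) = {0, 1} := by decide
    rw [this, Finset.sum_pair (by decide)]
    rfl
  have h2 : ∀ y : Fin (d + 2) → ZMod 2, Q (Fin.cons 0 y) + Q (Fin.cons 1 y) =
      B (Fin.cons 0 y) e0 + (Q e0 + Q 0) := by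
    intro y
    have : (Fin.cons 1 y : Fin (d + 3) → ZMod 2) = Fin.cons 0 y + e0 := by
      rw [he0]
      funext i
      refine Fin.cases ?_ (fun j => ?_) i
      · simp
      · simp
    rw [this, hQ]
    have := add_selfv (Q (Fin.cons 0 y : Fin (d + 3) → ZMod 2))
    calc Q (Fin.cons 0 y : Fin (d + 3) → ZMod 2) + (Q (Fin.cons 0 y : Fin (d + 3) → ZMod 2)
          + Q e0 + Q 0 + B (Fin.cons 0 y) e0)
        = (Q (Fin.cons 0 y : Fin (d + 3) → ZMod 2) + Q (Fin.cons 0 y : Fin (d + 3) → ZMod 2)) +
          (B (Fin.cons 0 y) e0 + (Q e0 + Q 0)) := by abel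
      _ = _ := by rw [this, zero_add]
  rw [h1, Finset.sum_congr rfl (fun y _ => h2 y), Finset.sum_add_distrib, hBs]
  have h3 : ∑ y : Fin (d + 2) → ZMod 2, (Fin.cons 0 y : Fin (d + 3) → ZMod 2) = 0 := by
    funext i
    rw [Finset.sum_apply]
    refine Fin.cases ?_ (fun j => ?_) i
    · simp
    · simp only [Fin.cons_succ, Pi.zero_apply]
      -- the involution adding a unit vector in another coordinate
      obtain ⟨k, hk⟩ : ∃ k : Fin (d + 2), k ≠ j := exists_ne j
      have hinv : ∑ y : Fin (d + 2) → ZMod 2, y j = 0 := by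
        refine Finset.sum_involution (fun y _ => y + (Pi.single k 1 : Fin (d + 2) → ZMod 2))
          ?_ ?_ ?_ ?_
        · intro y _
          have h5 : (y + (Pi.single k (1 : ZMod 2) : Fin (d + 2) → ZMod 2)) j = y j := by
            rw [Pi.add_apply, Pi.single_eq_of_ne hk.symm, add_zero]
          rw [h5]; exact add_self2 _
        · intro y _ _ h
          have := congrFun h k
          simp at this
        · intro y _; exact Finset.mem_univ _
        · intro y _
          rw [add_assoc, add_selfv, add_zero]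
      exact hinv
  rw [h3, hB0, zero_add, Finset.sum_const, Finset.card_univ, Fintype.card_fun, Fintype.card_fin,
    ZMod.card, pow_succ, mul_comm, mul_nsmul, two_nsmul, add_selfv, smul_zero]

lemma BB_zero {n : ℕ} (F : (Fin n → ZMod 2) → (Fin n → ZMod 2)) (x : Fin n → ZMod 2) :
    BB F x 0 = 0 := by
  unfold BB
  rw [add_zero, add_assoc, add_selfv, add_selfv, add_zero]

lemma BB_self {n : ℕ} (F : (Fin n → ZMod 2) → (Fin n → ZMod 2)) (x : Fin n → ZMod 2) :
    BB F x x = 0 := by
  unfold BB
  rw [add_selfv, add_assoc (F 0), add_selfv, add_zero, add_selfv]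

lemma BB_eq {n : ℕ} (F : (Fin n → ZMod 2) → (Fin n → ZMod 2)) (a y : Fin n → ZMod 2) :
    BB F a y = DD F a y + DD F a 0 := by
  unfold BB DD
  rw [zero_add, add_comm a y]
  abel

/-- the polar form in one variable as a homomorphism -/
def BBhom {n : ℕ} (F : (Fin n → ZMod 2) → (Fin n → ZMod 2)) (hF : IsQuadratic F)
    (a : Fin n → ZMod 2) : (Fin n → ZMod 2) →+ (Fin n → ZMod 2) where
  toFun := BB F a
  map_zero' := BB_zero F a
  map_add' := BB_add F hF a

/-- inner product as a homomorphism -/
def dothom {n : ℕ} (p : Fin n → ZMod 2) : (Fin n → ZMod 2) →+ ZMod 2 where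
  toFun := dot p
  map_zero' := by simp [dot]
  map_add' := dot_add_right p

lemma ortho_iff {n : ℕ} (F p : (Fin n → ZMod 2) → (Fin n → ZMod 2)) (hF : IsQuadratic F)
    (hA : IsAPN F) (hp : IsOrtho F p) (a : Fin n → ZMod 2) (ha : a ≠ 0) (b : Fin n → ZMod 2) :
    dot (p a) b = 0 ↔ ∃ y, BB F a y = b := by
  obtain ⟨hpa, hort⟩ := hp.2 a ha
  have hle : (BBhom F hF a).range ≤ (dothom (p a)).ker := by
    rintro _ ⟨y, rfl⟩
    rw [AddMonoidHom.mem_ker]
    show dot (p a) (BB F a y) = 0
    rw [BB_eq]
    exact hort y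
  have hk1 : Nat.card (BBhom F hF a).ker ≤ 2 := by
    have h := hA a ha (DD F a 0)
    rw [← Nat.card_eq_finsetCard] at h
    refine le_trans (le_of_eq ?_) h
    apply Nat.card_congr
    refine Equiv.subtypeEquivRight ?_
    intro x
    rw [AddMonoidHom.mem_ker]
    show BB F a x = 0 ↔ _
    rw [BB_eq, mem_filter]
    constructor
    · intro h
      refine ⟨mem_univ _, ?_⟩
      calc DD F a x = DD F a x + (DD F a 0 + DD F a 0) := by rw [add_selfv, add_zero]
        _ = DD F a 0 := by rw [← add_assoc, h, zero_add]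
    · rintro ⟨_, h⟩
      rw [h, add_selfv]
  have hm1 := AddSubgroup.card_mul_index (BBhom F hF a).ker
  rw [AddSubgroup.index_ker] at hm1
  have hm2 := AddSubgroup.card_mul_index (dothom (p a)).ker
  rw [AddSubgroup.index_ker] at hm2
  have hrange : Nat.card (dothom (p a)).range = 2 := by
    have htop : (dothom (p a)).range = ⊤ := by
      rw [AddMonoidHom.range_eq_top]
      obtain ⟨i, hi⟩ : ∃ i, p a i ≠ 0 := by
        by_contra hcon
        push Not at hcon
        exact hpa (funext hcon)
      have hi1 : p a i = 1 := by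
        rcases zmod2 (p a i) with h | h
        · exact absurd h hi
        · exact h
      intro z
      refine ⟨Pi.single i z, ?_⟩
      show dot (p a) (Pi.single i z) = z
      unfold dot
      rw [Finset.sum_eq_single i]
      · rw [hi1]; simp
      · intro j _ hj; rw [Pi.single_eq_of_ne hj, mul_zero]
      · intro h; exact absurd (Finset.mem_univ _) h
    rw [htop, Nat.card_congr AddSubgroup.topEquiv.toEquiv, Nat.card_eq_fintype_card, ZMod.card]
  rw [hrange] at hm2
  have hge : Nat.card (dothom (p a)).ker ≤ Nat.card (BBhom F hF a).range := by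
    have h1 : Nat.card (BBhom F hF a).ker * Nat.card (BBhom F hF a).range ≤
        2 * Nat.card (BBhom F hF a).range := Nat.mul_le_mul_right _ hk1
    omega
  have heq := AddSubgroup.eq_of_le_of_card_ge hle hge
  constructor
  · intro h
    have : b ∈ (BBhom F hF a).range := by
      rw [heq, AddMonoidHom.mem_ker]; exact h
    obtain ⟨y, hy⟩ := this
    exact ⟨y, hy⟩
  · rintro ⟨y, rfl⟩
    rw [BB_eq]
    exact hort y

lemma BB_eq_zero {n : ℕ} (F : (Fin n → ZMod 2) → (Fin n → ZMod 2)) (hA : IsAPN F)
    (a : Fin n → ZMod 2) (ha : a ≠ 0) (y : Fin n → ZMod 2) (h : BB F a y = 0) :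
    y = 0 ∨ y = a := by
  by_contra hcon
  push Not at hcon
  have h3 : ({0, a, y} : Finset (Fin n → ZMod 2)) ⊆
      univ.filter (fun x => DD F a x = DD F a 0) := by
    intro x hx
    simp only [mem_insert, mem_singleton] at hx
    rw [mem_filter]
    refine ⟨mem_univ _, ?_⟩
    rcases hx with rfl | rfl | rfl
    · rfl
    · unfold DD; rw [add_selfv, zero_add, add_comm]
    · rw [BB_eq] at h
      calc DD F a x = DD F a x + (DD F a 0 + DD F a 0) := by rw [add_selfv, add_zero]
        _ = DD F a 0 := by rw [← add_assoc, h, zero_add]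
  have h4 := (Finset.card_le_card h3).trans (hA a ha _)
  have h5 : ({0, a, y} : Finset (Fin n → ZMod 2)).card = 3 := by
    rw [card_eq_three]
    exact ⟨0, a, y, ha.symm, hcon.1.symm, hcon.2.symm, rfl⟩
  omega

/-- the main step -/
theorem no_affine {n : ℕ} (hn : 4 ≤ n) (F p : (Fin n → ZMod 2) → (Fin n → ZMod 2))
    (hF : IsQuadratic F) (hA : IsAPN F) (hp : IsOrtho F p) (b : Fin n → ZMod 2) (hb : b ≠ 0)
    (u : Fin n → ZMod 2) (c : ZMod 2) (h : ∀ x, dot b (p x) = dot u x + c) : False := by
  classical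
  have dot_comm : ∀ x y : Fin n → ZMod 2, dot x y = dot y x := by
    intro x y; unfold dot; apply Finset.sum_congr rfl; intro i _; ring
  have hc : c = 0 := by
    have h0 := h 0
    rw [hp.1] at h0
    have e1 : dot b 0 = 0 := by simp [dot]
    have e2 : dot u 0 = 0 := by simp [dot]
    rw [e1, e2, zero_add] at h0
    exact h0.symm
  subst hc
  simp only [add_zero] at h
  -- the kernel of the linear form
  let K : Submodule (ZMod 2) (Fin n → ZMod 2) :=
    LinearMap.ker ((dothom u).toZModLinearMap 2)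
  have hK : ∀ x, x ∈ K ↔ dot u x = 0 := by
    intro x
    rw [LinearMap.mem_ker]
    rfl
  have hdim : 3 ≤ Module.finrank (ZMod 2) K := by
    have h1 := LinearMap.finrank_range_add_finrank_ker ((dothom u).toZModLinearMap 2)
    have h2 : Module.finrank (ZMod 2) (LinearMap.range ((dothom u).toZModLinearMap 2)) ≤ 1 := by
      have := Submodule.finrank_le (LinearMap.range ((dothom u).toZModLinearMap 2))
      rwa [Module.finrank_self] at this
    rw [Module.finrank_fin_fun] at h1
    have h3 : Module.finrank (ZMod 2) K =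
      Module.finrank (ZMod 2) (LinearMap.ker ((dothom u).toZModLinearMap 2)) := rfl
    omega
  obtain ⟨d, hd⟩ : ∃ d, Module.finrank (ZMod 2) K = d + 3 := ⟨_, (Nat.sub_add_cancel hdim).symm⟩
  let e : (Fin (d + 3) → ZMod 2) ≃ₗ[ZMod 2] K :=
    LinearEquiv.ofFinrankEq _ _ (by rw [hd, Module.finrank_fin_fun])
  set KF : Finset (Fin n → ZMod 2) := univ.filter (fun x => dot u x = 0) with hKF
  have hmem : ∀ x, x ∈ KF ↔ x ∈ K := by intro x; rw [hKF, mem_filter, hK]; simp
  -- sums over K through the equivalence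
  have hsumK : ∀ (M : Type) [AddCommMonoid M] (g : (Fin n → ZMod 2) → M),
      ∑ x ∈ KF, g x = ∑ t : Fin (d + 3) → ZMod 2, g (e t) := by
    intro M _ g
    symm
    apply Finset.sum_bij (fun t _ => ((e t : K) : Fin n → ZMod 2))
    · intro t _; rw [hmem]; exact (e t).2
    · intro t _ t' _ htt
      exact e.injective (Subtype.ext htt)
    · intro x hx
      rw [hmem] at hx
      refine ⟨e.symm ⟨x, hx⟩, Finset.mem_univ _, ?_⟩
      rw [e.apply_symm_apply]
    · intro t _; rfl
  have hcardK : KF.card = 2 ^ (d + 3) := by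
    rw [Finset.card_eq_sum_ones, hsumK, Finset.sum_const, Finset.card_univ, Fintype.card_fun,
      Fintype.card_fin, ZMod.card]
    simp
  have hsumF : ∑ x ∈ KF, F x = 0 := by
    rw [hsumK]
    apply sum_quad d (fun t => F (e t)) (fun s t => BB F (e s) (e t))
    · intro x y
      show F ((e (x + y) : K) : Fin n → ZMod 2) = F (e x) + F (e y) + F ((e 0 : K) : Fin n → ZMod 2)
        + BB F (e x) (e y)
      rw [map_add, map_zero, Submodule.coe_add, Submodule.coe_zero]
      unfold BB
      have h1 := add_selfv (F (e x))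
      have h2 := add_selfv (F (e y))
      have h3 := add_selfv (F 0)
      calc F ((e x : Fin n → ZMod 2) + (e y : Fin n → ZMod 2))
          = F ((e x : Fin n → ZMod 2) + (e y : Fin n → ZMod 2)) + (F (e x) + F (e x)) +
            (F (e y) + F (e y)) + (F 0 + F 0) := by rw [h1, h2, h3]; simp
        _ = _ := by abel
    · intro x x' y
      show BB F ((e (x + x') : K) : Fin n → ZMod 2) (e y) = BB F (e x) (e y) + BB F (e x') (e y)
      rw [map_add, Submodule.coe_add, BB_symm, BB_add F hF, BB_symm F (e y), BB_symm F (e y)]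
  have hsumF' : ∑ x ∈ KF, (F x + F 0) = 0 := by
    rw [Finset.sum_add_distrib, hsumF, zero_add, Finset.sum_const, hcardK, pow_succ, mul_comm,
      mul_nsmul, two_nsmul, add_selfv, smul_zero]
  set s := KF.erase 0 with hs
  have h0K : (0 : Fin n → ZMod 2) ∈ KF := by rw [hmem]; exact K.zero_mem
  have hsums : ∑ x ∈ s, (F x + F 0) = 0 := by
    rw [← Finset.add_sum_erase _ _ h0K, add_selfv, zero_add] at hsumF'
    exact hsumF'
  have hcards : s.card + 1 = 2 ^ (d + 3) := by
    rw [hs, Finset.card_erase_of_mem h0K, hcardK]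
    have : 0 < 2 ^ (d + 3) := by positivity
    omega
  -- the equivalence relation
  have hb2 : ∀ z w t, BB F z w = b → BB F w t = b → t = z ∨ t = z + w := by
    intro z w t h1 h2
    have hw : w ≠ 0 := by
      intro hw; rw [hw, BB_zero] at h1; exact hb h1.symm
    have h3 : BB F w (z + t) = 0 := by
      rw [BB_add F hF, BB_symm F w z, h1, h2, add_selfv]
    rcases BB_eq_zero F hA w hw _ h3 with h4 | h4
    · left
      calc t = z + z + t := by rw [add_selfv, zero_add]
        _ = z := by rw [add_assoc, h4, add_zero]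
    · right
      calc t = z + z + t := by rw [add_selfv, zero_add]
        _ = z + w := by rw [add_assoc, h4]
  let r : Setoid (Fin n → ZMod 2) :=
    { r := fun x y => x = y ∨ BB F x y = b
      iseqv :=
        { refl := fun x => Or.inl rfl
          symm := by
            rintro x y (h1 | h1)
            · exact Or.inl h1.symm
            · right; rw [BB_symm]; exact h1
          trans := by
            rintro x y z (h1 | h1) (h2 | h2)
            · left; exact h1.trans h2
            · right; rw [h1]; exact h2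
            · right; rw [← h2]; exact h1
            · rcases hb2 x y z h1 h2 with h3 | h3
              · left; exact h3.symm
              · right; rw [h3, BB_add F hF, BB_self, zero_add]; exact h1 } }
  have hr : ∀ x y, r x y ↔ (x = y ∨ BB F x y = b) := fun x y => Iff.rfl
  -- each class in s has three elements
  have hclass : ∀ x ∈ s, ∃ y, y ≠ x ∧ x + y ≠ x ∧ x + y ≠ y ∧ BB F x y = b ∧
      s.filter (fun z => Quotient.mk r z = Quotient.mk r x) = {x, y, x + y} := by
    intro x hx
    rw [hs, Finset.mem_erase, hKF, mem_filter] at hx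
    obtain ⟨hx0, _, hxK⟩ := hx
    have h1 : dot (p x) b = 0 := by rw [dot_comm, h, hxK]
    obtain ⟨y, hy⟩ := (ortho_iff F p hF hA hp x hx0 b).mp h1
    have hy0 : y ≠ 0 := by intro hy0; rw [hy0, BB_zero] at hy; exact hb hy.symm
    have hyx : y ≠ x := by intro hyx; rw [hyx, BB_self] at hy; exact hb hy.symm
    have hxy0 : x + y ≠ 0 := by
      intro h2; apply hyx
      calc y = x + x + y := by rw [add_selfv, zero_add]
        _ = x := by rw [add_assoc, h2, add_zero]
    have hyK : dot u y = 0 := by
      rw [← h, dot_comm]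
      exact (ortho_iff F p hF hA hp y hy0 b).mpr ⟨x, by rw [BB_symm]; exact hy⟩
    have hxyK : dot u (x + y) = 0 := by rw [dot_add_right, hxK, hyK, add_zero]
    refine ⟨y, hyx, ?_, ?_, hy, ?_⟩
    · intro h2; apply hy0
      have h3 : x + y = x + 0 := by rw [h2, add_zero]
      exact add_left_cancel h3
    · intro h2; apply hx0
      have h3 : x + y = 0 + y := by rw [h2, zero_add]
      exact add_right_cancel h3
    · ext z
      rw [mem_filter, Quotient.eq, hr, hs, Finset.mem_erase, hKF, mem_filter]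
      simp only [mem_univ, true_and, mem_insert, mem_singleton]
      constructor
      · rintro ⟨_, h4 | h4⟩
        · left; exact h4
        · have h5 : BB F x z = b := by rw [BB_symm]; exact h4
          rcases hb2 y x z (by rw [BB_symm]; exact hy) h5 with h6 | h6
          · right; left; exact h6
          · right; right; rw [h6, add_comm]
      · rintro (rfl | rfl | rfl)
        · exact ⟨⟨hx0, hxK⟩, Or.inl rfl⟩
        · exact ⟨⟨hy0, hyK⟩, Or.inr (by rw [BB_symm]; exact hy)⟩
        · refine ⟨⟨hxy0, hxyK⟩, Or.inr ?_⟩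
          rw [BB_symm, BB_add F hF, BB_self, zero_add]; exact hy
  have hpart := Finset.sum_partition (s := s) r (f := fun x => F x + F 0)
  have hpart1 := Finset.sum_partition (s := s) r (f := fun _ => (1 : ℕ))
  set I := s.image (Quotient.mk r) with hI
  have e1 : ∀ q ∈ I, ∑ y ∈ s.filter (fun z => Quotient.mk r z = q), (F y + F 0) = b := by
    intro q hq
    rw [hI, Finset.mem_image] at hq
    obtain ⟨x, hx, rfl⟩ := hq
    obtain ⟨y, h1, h2, h3, h4, h5⟩ := hclass x hx
    rw [h5, Finset.sum_insert (by simp [h1.symm, h2.symm]), Finset.sum_insert (by simp [h3.symm]),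
      Finset.sum_singleton, ← h4]
    unfold BB
    have h6 := add_selfv (F 0)
    calc F x + F 0 + (F y + F 0 + (F (x + y) + F 0))
        = F (x + y) + F x + F y + F 0 + (F 0 + F 0) := by abel
      _ = _ := by rw [h6, add_zero]
  have e2 : ∀ q ∈ I, ∑ y ∈ s.filter (fun z => Quotient.mk r z = q), 1 = 3 := by
    intro q hq
    rw [hI, Finset.mem_image] at hq
    obtain ⟨x, hx, rfl⟩ := hq
    obtain ⟨y, h1, h2, h3, h4, h5⟩ := hclass x hx
    rw [h5, ← Finset.card_eq_sum_ones, Finset.card_eq_three]
    exact ⟨x, y, x + y, h1.symm, h2.symm, h3.symm, rfl⟩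
  have f1 : ∑ q ∈ I, ∑ y ∈ s.filter (fun z => Quotient.mk r z = q), (F y + F 0) = I.card • b := by
    rw [Finset.sum_congr rfl e1, Finset.sum_const]
  have f2 : ∑ q ∈ I, ∑ y ∈ s.filter (fun z => Quotient.mk r z = q), 1 = I.card * 3 := by
    rw [Finset.sum_congr rfl e2, Finset.sum_const, smul_eq_mul]
  have g1 : I.card • b = 0 := f1.symm.trans (hpart.symm.trans hsums)
  have g2 : s.card = I.card * 3 := by
    rw [← f2, Finset.card_eq_sum_ones]
    exact hpart1
  have hodd : I.card % 2 = 1 := by
    have : 2 ^ (d + 3) = 2 * 2 ^ (d + 2) := by ring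
    omega
  have g3 : I.card • b = b := by
    obtain ⟨k, hk⟩ : ∃ k, I.card = 2 * k + 1 := ⟨I.card / 2, by omega⟩
    rw [hk, add_nsmul, one_nsmul, mul_comm, mul_nsmul, two_nsmul, add_selfv, zero_add]
  rw [g3] at g1
  exact hb g1

end Pool.Agent.R58.Ortho
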