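import Mathlib

set_option autoImplicit false

/-!
Straight-line plane drawings of graphs, and a criterion: a weakly levelled layout (vertices on the
vertical lines `x = level`, edges between consecutive levels or between vertically consecutive
vertices of one level, no two edges interleaved) is a straight-line plane drawing.
-/

namespace Pool.Agent.R58

/-- `pos` is a straight-line drawing of `G` in the plane without crossings: distinct vertices are
at distinct points, a vertex lies on the segment of an edge only if it is an end of that edge, and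
a point common to the segments of two distinct edges is the position of a common end of them. -/
structure IsPlaneDrawing {V : Type} (G : SimpleGraph V) (pos : V → ℝ × ℝ) : Prop where
  inj : Function.Injective pos
  vertex : ∀ u v w, G.Adj u v → pos w ∈ segment ℝ (pos u) (pos v) → w = u ∨ w = v
  edge : ∀ u v x y, G.Adj u v → G.Adj x y → s(u, v) ≠ s(x, y) →
    ∀ q, q ∈ segment ℝ (pos u) (pos v) → q ∈ segment ℝ (pos x) (pos y) →
      ∃ w, (w = u ∨ w = v) ∧ (w = x ∨ w = y) ∧ q = pos w

/-- `G` is planar: it has a straight-line drawing in the plane without crossings. -/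
def Planar {V : Type} (G : SimpleGraph V) : Prop :=
  ∃ pos : V → ℝ × ℝ, IsPlaneDrawing G pos

theorem Planar.of_injective {V W : Type} {G : SimpleGraph V} {H : SimpleGraph W} (hH : Planar H)
    (f : V → W) (hf : Function.Injective f) (hadj : ∀ u v, G.Adj u v → H.Adj (f u) (f v)) :
    Planar G := by
  obtain ⟨pos, h⟩ := hH
  refine ⟨fun v => pos (f v), ⟨fun a b hab => hf (h.inj hab), ?_, ?_⟩⟩
  · intro u v w huv hw
    rcases h.vertex (f u) (f v) (f w) (hadj _ _ huv) hw with h1 | h1
    · exact Or.inl (hf h1)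
    · exact Or.inr (hf h1)
  · intro u v x y huv hxy hne q h1 h2
    have hne' : s(f u, f v) ≠ s(f x, f y) := by
      intro he
      apply hne
      rw [Sym2.eq_iff] at he ⊢
      rcases he with ⟨a, b⟩ | ⟨a, b⟩
      · exact Or.inl ⟨hf a, hf b⟩
      · exact Or.inr ⟨hf a, hf b⟩
    obtain ⟨w, hw1, hw2, hw3⟩ := h.edge _ _ _ _ (hadj _ _ huv) (hadj _ _ hxy) hne' q h1 h2
    rcases hw1 with rfl | rfl
    · exact ⟨u, Or.inl rfl, hw2.imp (fun e => hf e) (fun e => hf e), hw3⟩
    · exact ⟨v, Or.inr rfl, hw2.imp (fun e => hf e) (fun e => hf e), hw3⟩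

section Level

variable {V L : Type} [LinearOrder L] (G : SimpleGraph V) (lv : V → ℤ) (h : V → L)

/-- A weakly levelled layout. -/
structure IsLayout : Prop where
  inj : ∀ x y, lv x = lv y → h x = h y → x = y
  adj : ∀ x y, G.Adj x y → lv y = lv x ∨ lv y = lv x + 1 ∨ lv x = lv y + 1
  vert : ∀ x y z, G.Adj x y → lv x = lv y → lv z = lv x → h x < h z → h z < h y → False
  cross : ∀ x x' y y', G.Adj x x' → G.Adj y y' → lv x' = lv x + 1 → lv y = lv x →
    lv y' = lv x + 1 → h x < h y → h x' ≤ h y'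

/-- Oriented edges of a layout: to the right, or upwards. -/
def OE (x y : V) : Prop :=
  G.Adj x y ∧ (lv y = lv x + 1 ∨ (lv y = lv x ∧ h x < h y))

variable {G lv h}

theorem IsLayout.oe (hl : IsLayout G lv h) {x y : V} (hxy : G.Adj x y) :
    OE G lv h x y ∨ OE G lv h y x := by
  rcases hl.adj x y hxy with h1 | h1 | h1
  · rcases lt_trichotomy (h x) (h y) with h2 | h2 | h2
    · exact Or.inl ⟨hxy, Or.inr ⟨h1, h2⟩⟩
    · exact absurd (hl.inj x y h1.symm h2) hxy.ne
    · exact Or.inr ⟨hxy.symm, Or.inr ⟨h1.symm, h2⟩⟩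
  · exact Or.inl ⟨hxy, Or.inl h1⟩
  · exact Or.inr ⟨hxy.symm, Or.inl h1⟩

/-- The position of a vertex given an order embedding of the heights. -/
noncomputable def lpos (lv : V → ℤ) (h : V → L) (f : L → ℝ) (x : V) : ℝ × ℝ :=
  ((lv x : ℝ), f (h x))

omit [LinearOrder L] in
theorem mem_seg {lv : V → ℤ} {h : V → L} {f : L → ℝ} {x y : V} {q : ℝ × ℝ}
    (hq : q ∈ segment ℝ (lpos lv h f x) (lpos lv h f y)) :
    ∃ t : ℝ, 0 ≤ t ∧ t ≤ 1 ∧ q.1 = (1 - t) * (lv x : ℝ) + t * (lv y : ℝ) ∧
      q.2 = (1 - t) * f (h x) + t * f (h y) := by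
  obtain ⟨a, b, ha, hb, hab, rfl⟩ := hq
  refine ⟨b, hb, by linarith, ?_, ?_⟩
  · have : a = 1 - b := by linarith
    subst this
    simp [lpos]
  · have : a = 1 - b := by linarith
    subst this
    simp [lpos]

theorem lpos_inj (hl : IsLayout G lv h) {f : L → ℝ} (hf : StrictMono f) :
    Function.Injective (lpos lv h f) := by
  intro x y hxy
  simp only [lpos, Prod.mk.injEq, Int.cast_inj] at hxy
  exact hl.inj x y hxy.1 (hf.injective hxy.2)

theorem seg_slant_level {t : ℝ} {i j : ℤ} (h0 : 0 ≤ t) (h1 : t ≤ 1)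
    (h : (j : ℝ) = (1 - t) * (i : ℝ) + t * ((i + 1 : ℤ) : ℝ)) : (t = 0 ∧ j = i) ∨ (t = 1 ∧ j = i + 1) := by
  have h2 : (j : ℝ) = i + t := by rw [h]; push_cast; ring
  have h3 : i ≤ j := by
    have : (i : ℝ) ≤ j := by linarith
    exact_mod_cast this
  have h4 : j ≤ i + 1 := by
    have : (j : ℝ) ≤ (i + 1 : ℤ) := by push_cast; linarith
    exact_mod_cast this
  rcases (by omega : j = i ∨ j = i + 1) with rfl | rfl
  · left; exact ⟨by linarith, rfl⟩
  · right; refine ⟨?_, rfl⟩; push_cast at h2; linarith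

theorem oe_vertex (hl : IsLayout G lv h) {f : L → ℝ} (hf : StrictMono f) {x y w : V}
    (he : OE G lv h x y) (hw : lpos lv h f w ∈ segment ℝ (lpos lv h f x) (lpos lv h f y)) :
    w = x ∨ w = y := by
  obtain ⟨t, h0, h1, hq1, hq2⟩ := mem_seg hw
  simp only [lpos] at hq1 hq2
  rcases he.2 with h2 | ⟨h2, h3⟩
  · rw [h2] at hq1
    rcases seg_slant_level h0 h1 hq1 with ⟨rfl, h3⟩ | ⟨rfl, h3⟩
    · left
      apply hl.inj _ _ h3
      apply hf.injective
      rw [hq2]; ring
    · right
      apply hl.inj _ _ (by rw [h3, h2])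
      apply hf.injective
      rw [hq2]; ring
  · have h4 : lv w = lv x := by
      have : (lv w : ℝ) = lv x := by rw [hq1, h2]; ring
      exact_mod_cast this
    have h5 : f (h x) < f (h y) := hf h3
    have h6 : f (h x) ≤ f (h w) := by rw [hq2]; nlinarith
    have h7 : f (h w) ≤ f (h y) := by rw [hq2]; nlinarith
    rw [hf.le_iff_le] at h6 h7
    by_contra hcon
    push Not at hcon
    apply hl.vert x y w he.1 h2.symm h4
    · refine lt_of_le_of_ne h6 fun e => hcon.1 ?_
      exact hl.inj _ _ h4 e.symm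
    · refine lt_of_le_of_ne h7 fun e => hcon.2 ?_
      exact hl.inj _ _ (by rw [h4, h2]) e

theorem oe_edge (hl : IsLayout G lv h) {f : L → ℝ} (hf : StrictMono f) {x x' y y' : V}
    (he : OE G lv h x x') (he' : OE G lv h y y') (hne : ¬ (x = y ∧ x' = y')) (q : ℝ × ℝ)
    (hq : q ∈ segment ℝ (lpos lv h f x) (lpos lv h f x'))
    (hq' : q ∈ segment ℝ (lpos lv h f y) (lpos lv h f y')) :
    ∃ w, (w = x ∨ w = x') ∧ (w = y ∨ w = y') ∧ q = lpos lv h f w := by
  -- if one of the ends is the point, use `oe_vertex`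
  by_cases hend : ∃ w, (w = x ∨ w = x') ∧ q = lpos lv h f w
  · obtain ⟨w, hw, rfl⟩ := hend
    exact ⟨w, hw, oe_vertex hl hf he' hq', rfl⟩
  by_cases hend' : ∃ w, (w = y ∨ w = y') ∧ q = lpos lv h f w
  · obtain ⟨w, hw, rfl⟩ := hend'
    exact ⟨w, oe_vertex hl hf he hq, hw, rfl⟩
  exfalso
  push Not at hend hend'
  obtain ⟨t, h0, h1, hq1, hq2⟩ := mem_seg hq
  obtain ⟨s, g0, g1, gq1, gq2⟩ := mem_seg hq'
  have hqe : ∀ w : V, q.1 = lv w → q.2 = f (h w) → q = lpos lv h f w := by
    intro w a b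
    exact Prod.ext a b
  have t0 : t ≠ 0 := by
    rintro rfl
    exact hend x (Or.inl rfl) (hqe x (by rw [hq1]; ring) (by rw [hq2]; ring))
  have t1 : t ≠ 1 := by
    rintro rfl
    exact hend x' (Or.inr rfl) (hqe x' (by rw [hq1]; ring) (by rw [hq2]; ring))
  have s0 : s ≠ 0 := by
    rintro rfl
    exact hend' y (Or.inl rfl) (hqe y (by rw [gq1]; ring) (by rw [gq2]; ring))
  have s1 : s ≠ 1 := by
    rintro rfl
    exact hend' y' (Or.inr rfl) (hqe y' (by rw [gq1]; ring) (by rw [gq2]; ring))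
  have t0' : 0 < t := lt_of_le_of_ne h0 t0.symm
  have t1' : t < 1 := lt_of_le_of_ne h1 t1
  have s0' : 0 < s := lt_of_le_of_ne g0 s0.symm
  have s1' : s < 1 := lt_of_le_of_ne g1 s1
  rcases he.2 with h2 | ⟨h2, h3⟩ <;> rcases he'.2 with g2 | ⟨g2, g3⟩
  · -- both slanted
    rw [hq1, h2, g2] at gq1
    push_cast at gq1
    have e1 : (lv x : ℝ) + t = lv y + s := by linarith
    have e2 : lv y = lv x := by
      have a1 : (lv x : ℝ) < (lv y + 1 : ℤ) := by push_cast; linarith
      have a2 : (lv y : ℝ) < (lv x + 1 : ℤ) := by push_cast; linarith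
      have b1 : lv x < lv y + 1 := by exact_mod_cast a1
      have b2 : lv y < lv x + 1 := by exact_mod_cast a2
      omega
    have e3 : s = t := by rw [e2] at e1; linarith
    subst e3
    rw [hq2] at gq2
    rcases lt_trichotomy (h x) (h y) with h4 | h4 | h4
    · have h5 := hl.cross x x' y y' he.1 he'.1 h2 e2 (by rw [g2, e2]) h4
      have h6 : f (h x) < f (h y) := hf h4
      have h7 : f (h x') ≤ f (h y') := hf.monotone h5
      nlinarith [mul_pos (sub_pos.2 s1') (sub_pos.2 h6), mul_nonneg s0'.le (sub_nonneg.2 h7)]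
    · have hxy : x = y := hl.inj _ _ e2.symm h4
      subst hxy
      have h5 : f (h x') = f (h y') := by
        have : s * (f (h x') - f (h y')) = 0 := by linarith
        rcases mul_eq_zero.1 this with h6 | h6
        · exact absurd h6 s0
        · linarith
      exact hne ⟨rfl, hl.inj _ _ (by rw [h2, g2]) (hf.injective h5)⟩
    · have h5 := hl.cross y y' x x' he'.1 he.1 g2 e2.symm (by rw [h2, e2]) h4
      have h6 : f (h y) < f (h x) := hf h4
      have h7 : f (h y') ≤ f (h x') := hf.monotone h5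
      nlinarith [mul_pos (sub_pos.2 s1') (sub_pos.2 h6), mul_nonneg s0'.le (sub_nonneg.2 h7)]
  · -- slanted, vertical
    have a : (lv y : ℝ) = (1 - t) * (lv x : ℝ) + t * ((lv x + 1 : ℤ) : ℝ) := by
      rw [← h2, ← hq1, gq1, g2]; ring
    rcases seg_slant_level h0 h1 a with ⟨b, -⟩ | ⟨b, -⟩
    · exact t0 b
    · exact t1 b
  · have a : (lv x : ℝ) = (1 - s) * (lv y : ℝ) + s * ((lv y + 1 : ℤ) : ℝ) := by
      rw [← g2, ← gq1, hq1, h2]; ring
    rcases seg_slant_level g0 g1 a with ⟨b, -⟩ | ⟨b, -⟩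
    · exact s0 b
    · exact s1 b
  · -- both vertical
    have e2 : lv y = lv x := by
      have a1 : (lv y : ℝ) = lv x := by
        have b1 : q.1 = lv x := by rw [hq1, h2]; ring
        have b2 : q.1 = lv y := by rw [gq1, g2]; ring
        rw [← b1, ← b2]
      exact_mod_cast a1
    have f1 : f (h x) < f (h x') := hf h3
    have f2 : f (h y) < f (h y') := hf g3
    have k1 : f (h x) < q.2 := by rw [hq2]; nlinarith
    have k2 : q.2 < f (h x') := by rw [hq2]; nlinarith
    have k3 : f (h y) < q.2 := by rw [gq2]; nlinarith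
    have k4 : q.2 < f (h y') := by rw [gq2]; nlinarith
    have m1 : h x < h y' := hf.lt_iff_lt.1 (k1.trans k4)
    have m2 : h y < h x' := hf.lt_iff_lt.1 (k3.trans k2)
    have n1 : h x = h y := by
      rcases lt_trichotomy (h x) (h y) with h4 | h4 | h4
      · exact (hl.vert x x' y he.1 h2.symm e2 h4 m2).elim
      · exact h4
      · exact (hl.vert y y' x he'.1 g2.symm e2.symm h4 m1).elim
    have n2 : h x' = h y' := by
      rcases lt_trichotomy (h x') (h y') with h4 | h4 | h4
      · exact (hl.vert y y' x' he'.1 g2.symm (by rw [h2, e2]) (n1 ▸ h3) h4).elim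
      · exact h4
      · exact (hl.vert x x' y' he.1 h2.symm (by rw [g2, e2]) m1 h4).elim
    exact hne ⟨hl.inj _ _ e2.symm n1, hl.inj _ _ (by rw [h2, g2, e2]) n2⟩

/-- A weakly levelled layout gives a straight-line plane drawing. -/
theorem IsLayout.planar [Countable L] (hl : IsLayout G lv h) : Planar G := by
  obtain ⟨g⟩ := Order.embedding_from_countable_to_dense L ℝ
  have hf : StrictMono g := g.strictMono
  refine ⟨lpos lv h g, ⟨lpos_inj hl hf, ?_, ?_⟩⟩
  · intro u v w huv hw
    rcases hl.oe huv with he | he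
    · exact oe_vertex hl hf he hw
    · rw [segment_symm] at hw
      exact (oe_vertex hl hf he hw).symm
  · intro u v x y huv hxy hne q hq hq'
    rcases hl.oe huv with he | he <;> rcases hl.oe hxy with he' | he'
    · exact oe_edge hl hf he he' (fun a => hne (by rw [a.1, a.2])) q hq hq'
    · rw [segment_symm ℝ (lpos lv h g x)] at hq'
      obtain ⟨w, h1, h2, h3⟩ := oe_edge hl hf he he'
        (fun a => hne (by rw [a.1, a.2, Sym2.eq_swap])) q hq hq'
      exact ⟨w, h1, h2.symm, h3⟩
    · rw [segment_symm ℝ (lpos lv h g u)] at hq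
      obtain ⟨w, h1, h2, h3⟩ := oe_edge hl hf he he'
        (fun a => hne (by rw [a.1, a.2, Sym2.eq_swap])) q hq hq'
      exact ⟨w, h1.symm, h2, h3⟩
    · rw [segment_symm ℝ (lpos lv h g u)] at hq
      rw [segment_symm ℝ (lpos lv h g x)] at hq'
      obtain ⟨w, h1, h2, h3⟩ := oe_edge hl hf he he'
        (fun a => hne (by rw [a.1, a.2])) q hq hq'
      exact ⟨w, h1.symm, h2.symm, h3⟩

end Level

end Pool.Agent.R58
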