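import Pool.Agent.R58.SpeciesDefs

/-! Analysis of the radius of convergence of the history series. -/

namespace Pool.Agent.R58.Species

open Filter Topology

/-- the solution of `3 P - 1 - P ^ 2 = x` in `[1, 3/2]`. -/
noncomputable def psi (x : ℝ) : ℝ := (3 - Real.sqrt (5 - 4 * x)) / 2

/-- the products. -/
noncomputable def q : STree → ℝ → ℝ
  | .leaf, z => 1 + z
  | .node l r, z => psi (q l z) * psi (q r z)

theorem psi_le (x : ℝ) : psi x ≤ 3 / 2 := by
  have := Real.sqrt_nonneg (5 - 4 * x)
  unfold psi; linarith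

theorem psi_mono {x y : ℝ} (h : x ≤ y) : psi x ≤ psi y := by
  have := Real.sqrt_le_sqrt (show 5 - 4 * y ≤ 5 - 4 * x by linarith)
  unfold psi; linarith

theorem psi_strict {x y : ℝ} (h : x < y) (hx : x < 5 / 4) : psi x < psi y := by
  have := Real.sqrt_lt_sqrt_iff_of_pos (show 0 < 5 - 4 * x by linarith) (x := 5 - 4 * y)
  have h2 := this.2 (by linarith)
  unfold psi; linarith

theorem psi_one : psi 1 = 1 := by
  unfold psi
  norm_num

theorem psi_ge_one {x : ℝ} (h : 1 ≤ x) : 1 ≤ psi x := by
  have := psi_mono h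
  rwa [psi_one] at this

theorem psi_phi {x : ℝ} (h : x ≤ 5 / 4) : 3 * psi x - 1 - psi x ^ 2 = x := by
  have := Real.sq_sqrt (show 0 ≤ 5 - 4 * x by linarith)
  unfold psi; nlinarith

theorem le_psi {x : ℝ} (h : x ≤ 5 / 4) : x ≤ psi x := by
  have h1 := psi_phi h
  nlinarith [sq_nonneg (psi x - 1)]

theorem psi_gt_five {x : ℝ} (h : 5 / 4 ≤ x) : psi x = 3 / 2 := by
  unfold psi
  rw [Real.sqrt_eq_zero_of_nonpos (by linarith)]
  norm_num

theorem psi_cont : Continuous psi := by
  unfold psi
  fun_prop

theorem q_cont (S : STree) : Continuous (q S) := by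
  induction S with
  | leaf =>
    have : q .leaf = fun z => 1 + z := by
      funext z; rfl
    rw [this]; fun_prop
  | node l r hl hr =>
    have : q (.node l r) = fun z => psi (q l z) * psi (q r z) := by
      funext z; rfl
    rw [this]
    exact (psi_cont.comp hl).mul (psi_cont.comp hr)

theorem q_ge_one (S : STree) {z : ℝ} (hz : 0 ≤ z) : 1 ≤ q S z := by
  induction S with
  | leaf => unfold q; linarith
  | node l r hl hr =>
    have h1 := psi_ge_one hl
    have h2 := psi_ge_one hr
    rw [q]
    nlinarith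

theorem q_mono (S : STree) {z w : ℝ} (hz : 0 ≤ z) (h : z ≤ w) : q S z ≤ q S w := by
  induction S with
  | leaf => unfold q; linarith
  | node l r hl hr =>
    have h1 := psi_mono hl
    have h2 := psi_mono hr
    have h3 := psi_ge_one (q_ge_one l hz)
    have h4 := psi_ge_one (q_ge_one r hz)
    rw [q, q]
    nlinarith

theorem q_zero (S : STree) : q S 0 = 1 := by
  induction S with
  | leaf => unfold q; norm_num
  | node l r hl hr => rw [q, hl, hr, psi_one]; norm_num

theorem q_left {l r : STree} {z : ℝ} (hz : 0 ≤ z) (h : q (.node l r) z ≤ 5 / 4) :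
    q l z < 5 / 4 := by
  by_contra hc
  push Not at hc
  have h1 := psi_gt_five hc
  have h2 := psi_ge_one (q_ge_one r hz)
  rw [q, h1] at h
  linarith

theorem q_right {l r : STree} {z : ℝ} (hz : 0 ≤ z) (h : q (.node l r) z ≤ 5 / 4) :
    q r z < 5 / 4 := by
  by_contra hc
  push Not at hc
  have h1 := psi_gt_five hc
  have h2 := psi_ge_one (q_ge_one l hz)
  rw [q, h1] at h
  linarith

/-- `z * size S ≤ psi (q S z) - 1` where OK. -/
theorem size_le (S : STree) {z : ℝ} (hz : 0 ≤ z) (h : q S z ≤ 5 / 4) :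
    1 + size S * z ≤ q S z := by
  induction S with
  | leaf => unfold q size; simp
  | node l r hl hr =>
    have h1 := hl (q_left hz h).le
    have h2 := hr (q_right hz h).le
    have h3 := le_psi (q_left hz h).le
    have h4 := le_psi (q_right hz h).le
    have h5 : 0 ≤ (size l : ℝ) * z := by positivity
    have h6 : 0 ≤ (size r : ℝ) * z := by positivity
    rw [q, size]
    push_cast
    nlinarith [mul_nonneg (show (0:ℝ) ≤ psi (q l z) - 1 by linarith)
      (show (0:ℝ) ≤ psi (q r z) - 1 by linarith)]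

theorem size_pos (S : STree) : 1 ≤ size S := by
  induction S with
  | leaf => exact le_rfl
  | node l r hl hr => rw [size]; omega

/-- the truncated product inequality. -/
theorem trunc_mul (a b : ℕ → ℝ) (ha : ∀ n, 0 ≤ a n) (hb : ∀ n, 0 ≤ b n) (ha0 : a 0 = 0)
    (hb0 : b 0 = 0) {z : ℝ} (hz : 0 ≤ z) (N : ℕ) :
    ∑ n ∈ Finset.range (N + 1), (∑ p ∈ Finset.HasAntidiagonal.antidiagonal n, a p.1 * b p.2) * z ^ n ≤
      (∑ n ∈ Finset.range N, a n * z ^ n) * (∑ n ∈ Finset.range N, b n * z ^ n) := by
  classical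
  rw [Finset.sum_mul_sum, ← Finset.sum_product']
  set f : ℕ × ℕ → ℝ := fun p => a p.1 * z ^ p.1 * (b p.2 * z ^ p.2) with hf
  have hfn : ∀ p, 0 ≤ f p := fun p => by
    have := ha p.1
    have := hb p.2
    rw [hf]; positivity
  set s := (Finset.range (N + 1) ×ˢ Finset.range (N + 1)).filter (fun p => p.1 + p.2 < N + 1)
  have h1 : ∑ n ∈ Finset.range (N + 1),
      (∑ p ∈ Finset.HasAntidiagonal.antidiagonal n, a p.1 * b p.2) * z ^ n = ∑ p ∈ s, f p := by
    rw [← Finset.sum_fiberwise_of_maps_to (s := s) (t := Finset.range (N + 1))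
      (g := fun p => p.1 + p.2) (f := f)]
    · apply Finset.sum_congr rfl
      intro n hn
      rw [Finset.mem_range] at hn
      rw [Finset.sum_mul]
      have : s.filter (fun p => p.1 + p.2 = n) = Finset.HasAntidiagonal.antidiagonal n := by
        ext p
        simp only [s, Finset.mem_filter, Finset.mem_product, Finset.mem_range,
          Finset.HasAntidiagonal.mem_antidiagonal]
        omega
      rw [this]
      apply Finset.sum_congr rfl
      intro p hp
      rw [Finset.HasAntidiagonal.mem_antidiagonal] at hp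
      rw [hf, ← hp, pow_add]
      ring
    · intro p hp
      simp only [s, Finset.mem_filter] at hp
      exact Finset.mem_range.2 hp.2
  rw [h1, ← Finset.sum_filter_ne_zero]
  apply Finset.sum_le_sum_of_subset_of_nonneg
  · intro p hp
    simp only [s, Finset.mem_filter, Finset.mem_product, Finset.mem_range] at hp ⊢
    obtain ⟨⟨_, h2⟩, h3⟩ := hp
    have hp1 : p.1 ≠ 0 := by
      intro h0
      apply h3
      simp [hf, h0, ha0]
    have hp2 : p.2 ≠ 0 := by
      intro h0
      apply h3
      simp [hf, h0, hb0]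
    omega
  · intro p _ _
    exact hfn p

/-- the induction step in `N`. -/
theorem partial_step (S : STree) {z : ℝ} (hz : 0 ≤ z) (h : q S z ≤ 5 / 4)
    (hG : ∀ N, ∑ n ∈ Finset.range N, PowerSeries.coeff n (G S) * z ^ n ≤ q S z - 1) (N : ℕ) :
    ∑ n ∈ Finset.range N, hist S n * z ^ n ≤ psi (q S z) - 1 := by
  induction N with
  | zero =>
    have := psi_ge_one (q_ge_one S hz)
    simpa using this
  | succ N ih =>
    have h1 : ∑ n ∈ Finset.range (N + 1), hist S n * z ^ n =
        ∑ n ∈ Finset.range (N + 1), PowerSeries.coeff n (G S) * z ^ n +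
        ∑ n ∈ Finset.range (N + 1),
          (∑ p ∈ Finset.HasAntidiagonal.antidiagonal n, hist S p.1 * hist S p.2) * z ^ n := by
      rw [← Finset.sum_add_distrib]
      apply Finset.sum_congr rfl
      intro n _
      rw [hist_eq S n]; ring
    have h2 := trunc_mul (hist S) (hist S) (hist_nonneg S) (hist_nonneg S) (hist_zero S)
      (hist_zero S) hz N
    have h3 : 0 ≤ ∑ n ∈ Finset.range N, hist S n * z ^ n :=
      Finset.sum_nonneg (fun n _ => mul_nonneg (hist_nonneg S n) (pow_nonneg hz n))
    have h4 := psi_phi h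
    have h5 := hG (N + 1)
    rw [h1]
    nlinarith

/-- partial sums are bounded where OK. -/
theorem partial_le (S : STree) {z : ℝ} (hz : 0 ≤ z) (h : q S z ≤ 5 / 4) (N : ℕ) :
    ∑ n ∈ Finset.range N, hist S n * z ^ n ≤ psi (q S z) - 1 := by
  induction S generalizing N with
  | leaf =>
    apply partial_step _ hz h
    intro N
    rw [q]
    simp only [G, PowerSeries.coeff_X, ite_mul, one_mul, zero_mul]
    rw [Finset.sum_ite_eq']
    split_ifs <;> simp [hz]
  | node l r hl hr =>
    have hl' := hl (q_left hz h).le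
    have hr' := hr (q_right hz h).le
    apply partial_step _ hz h
    intro N
    have h1 : ∑ n ∈ Finset.range N, PowerSeries.coeff n (G (.node l r)) * z ^ n =
        ∑ n ∈ Finset.range N,
          (∑ p ∈ Finset.HasAntidiagonal.antidiagonal n, hist l p.1 * hist r p.2) * z ^ n +
        ∑ n ∈ Finset.range N, hist l n * z ^ n + ∑ n ∈ Finset.range N, hist r n * z ^ n := by
      rw [← Finset.sum_add_distrib, ← Finset.sum_add_distrib]
      apply Finset.sum_congr rfl
      intro n _
      rw [coeffG_node]; ring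
    rw [h1]
    have h2 : ∑ n ∈ Finset.range N,
        (∑ p ∈ Finset.HasAntidiagonal.antidiagonal n, hist l p.1 * hist r p.2) * z ^ n ≤
        (∑ n ∈ Finset.range N, hist l n * z ^ n) * (∑ n ∈ Finset.range N, hist r n * z ^ n) := by
      refine le_trans ?_ (trunc_mul (hist l) (hist r) (hist_nonneg l) (hist_nonneg r)
        (hist_zero l) (hist_zero r) hz N)
      rw [Finset.sum_range_succ]
      have : 0 ≤ (∑ p ∈ Finset.HasAntidiagonal.antidiagonal N, hist l p.1 * hist r p.2) * z ^ N :=
        mul_nonneg (Finset.sum_nonneg (fun p _ => mul_nonneg (hist_nonneg l _)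
          (hist_nonneg r _))) (pow_nonneg hz N)
      linarith
    have h3 := hl' N
    have h4 := hr' N
    have h5 : 0 ≤ ∑ n ∈ Finset.range N, hist l n * z ^ n :=
      Finset.sum_nonneg (fun n _ => mul_nonneg (hist_nonneg l n) (pow_nonneg hz n))
    have h6 : 0 ≤ ∑ n ∈ Finset.range N, hist r n * z ^ n :=
      Finset.sum_nonneg (fun n _ => mul_nonneg (hist_nonneg r n) (pow_nonneg hz n))
    rw [q]
    nlinarith

theorem term_le (S : STree) {z : ℝ} (hz : 0 ≤ z) (h : q S z ≤ 5 / 4) (n : ℕ) :
    hist S n * z ^ n ≤ 1 / 2 := by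
  have h1 := partial_le S hz h (n + 1)
  have h2 := psi_le (q S z)
  have h3 : hist S n * z ^ n ≤ ∑ m ∈ Finset.range (n + 1), hist S m * z ^ m :=
    Finset.single_le_sum (f := fun m => hist S m * z ^ m)
      (fun m _ => mul_nonneg (hist_nonneg S m) (pow_nonneg hz m)) (Finset.self_mem_range_succ n)
  linarith

/-- the sum of the series. -/
noncomputable def F (S : STree) (z : ℝ) : ℝ := ∑' n, hist S n * z ^ n

theorem summable_le (S : STree) {z w : ℝ} (hz : 0 ≤ z) (h : z ≤ w)
    (hw : Summable (fun n => hist S n * w ^ n)) : Summable (fun n => hist S n * z ^ n) :=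
  Summable.of_nonneg_of_le (fun n => mul_nonneg (hist_nonneg S n) (pow_nonneg hz n))
    (fun n => mul_le_mul_of_nonneg_left (pow_le_pow_left₀ hz h n) (hist_nonneg S n)) hw

theorem cauchy (S T : STree) {z : ℝ} (_ : 0 ≤ z)
    (hS : Summable (fun n => hist S n * z ^ n)) (hT : Summable (fun n => hist T n * z ^ n)) :
    HasSum (fun n => (∑ p ∈ Finset.HasAntidiagonal.antidiagonal n, hist S p.1 * hist T p.2) *
      z ^ n) (F S z * F T z) := by
  have hS' : Summable (fun n => ‖hist S n * z ^ n‖) := hS.norm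
  have hT' : Summable (fun n => ‖hist T n * z ^ n‖) := hT.norm
  have h1 := tsum_mul_tsum_eq_tsum_sum_antidiagonal_of_summable_norm hS' hT'
  have h2 := (summable_norm_sum_mul_antidiagonal_of_summable_norm hS' hT').of_norm
  have h3 : (fun n => ∑ p ∈ Finset.HasAntidiagonal.antidiagonal n,
      hist S p.1 * z ^ p.1 * (hist T p.2 * z ^ p.2)) = (fun n =>
      (∑ p ∈ Finset.HasAntidiagonal.antidiagonal n, hist S p.1 * hist T p.2) * z ^ n) := by
    funext n
    rw [Finset.sum_mul]
    apply Finset.sum_congr rfl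
    intro p hp
    rw [Finset.HasAntidiagonal.mem_antidiagonal] at hp
    rw [← hp, pow_add]
    ring
  rw [h3] at h1 h2
  unfold F
  rw [h1]
  exact h2.hasSum

/-- the sum of the inner series. -/
noncomputable def FG (S : STree) (z : ℝ) : ℝ := ∑' n, PowerSeries.coeff n (G S) * z ^ n

theorem summable_G (S : STree) {z : ℝ} (hz : 0 ≤ z)
    (hS : Summable (fun n => hist S n * z ^ n)) :
    Summable (fun n => PowerSeries.coeff n (G S) * z ^ n) :=
  Summable.of_nonneg_of_le (fun n => mul_nonneg (coeffG_nonneg S n) (pow_nonneg hz n))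
    (fun n => mul_le_mul_of_nonneg_right (hist_ge_G S n) (pow_nonneg hz n)) hS

theorem F_eq (S : STree) {z : ℝ} (hz : 0 ≤ z)
    (hS : Summable (fun n => hist S n * z ^ n)) : F S z = FG S z + F S z * F S z := by
  have h1 := (summable_G S hz hS).hasSum.add (cauchy S S hz hS hS)
  have h2 : (fun n => PowerSeries.coeff n (G S) * z ^ n +
      (∑ p ∈ Finset.HasAntidiagonal.antidiagonal n, hist S p.1 * hist S p.2) * z ^ n) =
      fun n => hist S n * z ^ n := by
    funext n
    rw [hist_eq S n]; ring
  rw [h2] at h1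
  exact h1.tsum_eq

theorem F_lt (S : STree) {z w : ℝ} (hz : 0 ≤ z) (h : z < w)
    (hw : Summable (fun n => hist S n * w ^ n)) : F S z < F S w := by
  refine Summable.tsum_lt_tsum (i := 1)
    (fun n => mul_le_mul_of_nonneg_left (pow_le_pow_left₀ hz h.le n) (hist_nonneg S n)) ?_
    (summable_le S hz h.le hw) hw
  have := hist_one S
  simp only [pow_one]
  nlinarith

theorem FG_le (S : STree) {z w : ℝ} (hz : 0 ≤ z) (h : z ≤ w)
    (hw : Summable (fun n => hist S n * w ^ n)) : FG S z ≤ FG S w := by
  refine Summable.tsum_le_tsum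
    (fun n => mul_le_mul_of_nonneg_left (pow_le_pow_left₀ hz h n) (coeffG_nonneg S n))
    (summable_G S hz (summable_le S hz h hw)) (summable_G S (hz.trans h) hw)

theorem F_half (S : STree) {z w : ℝ} (hz : 0 ≤ z) (h : z < w)
    (hw : Summable (fun n => hist S n * w ^ n)) : F S z ≤ 1 / 2 := by
  have h1 := F_lt S hz h hw
  have h2 := FG_le S hz h.le hw
  have h3 := F_eq S hz (summable_le S hz h.le hw)
  have h4 := F_eq S (hz.trans h.le) hw
  by_contra hc
  push Not at hc
  nlinarith

theorem psi_of_F {x y : ℝ} (h : x = y + x * x) (hx : x ≤ 1 / 2) :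
    y ≤ 1 / 4 ∧ psi (1 + y) = 1 + x := by
  constructor
  · nlinarith [sq_nonneg (1 - 2 * x)]
  · unfold psi
    have : 5 - 4 * (1 + y) = (1 - 2 * x) ^ 2 := by nlinarith
    rw [this, Real.sqrt_sq (by linarith)]
    ring

/-- below the radius of convergence all is OK. -/
theorem ok_of_summable (S : STree) {z w : ℝ} (hz : 0 ≤ z) (h : z < w)
    (hw : Summable (fun n => hist S n * w ^ n)) :
    q S z ≤ 5 / 4 ∧ psi (q S z) = 1 + F S z := by
  have hF := F_eq S hz (summable_le S hz h.le hw)
  have hh := F_half S hz h hw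
  have hp := psi_of_F hF hh
  have hq : q S z = 1 + FG S z := by
    induction S with
    | leaf =>
      have : FG .leaf z = z := by
        unfold FG
        simp only [G, PowerSeries.coeff_X, ite_mul, one_mul, zero_mul]
        rw [tsum_ite_eq]
        simp
      rw [this, q]
    | node l r hl hr =>
      have hw0 : 0 ≤ w := hz.trans h.le
      have sl : Summable (fun n => hist l n * w ^ n) :=
        Summable.of_nonneg_of_le (fun n => mul_nonneg (hist_nonneg l n) (pow_nonneg hw0 n))
          (fun n => mul_le_mul_of_nonneg_right (hist_ge_left l r n) (pow_nonneg hw0 n)) hw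
      have sr : Summable (fun n => hist r n * w ^ n) :=
        Summable.of_nonneg_of_le (fun n => mul_nonneg (hist_nonneg r n) (pow_nonneg hw0 n))
          (fun n => mul_le_mul_of_nonneg_right (hist_ge_right l r n) (pow_nonneg hw0 n)) hw
      have el := F_eq l hz (summable_le l hz h.le sl)
      have er := F_eq r hz (summable_le r hz h.le sr)
      have pl := psi_of_F el (F_half l hz h sl)
      have pr := psi_of_F er (F_half r hz h sr)
      have ql := hl sl el (F_half l hz h sl) pl
      have qr := hr sr er (F_half r hz h sr) pr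
      rw [q, ql, qr, pl.2, pr.2]
      have h1 := (cauchy l r hz (summable_le l hz h.le sl) (summable_le r hz h.le sr)).add
        ((summable_le l hz h.le sl).hasSum.add (summable_le r hz h.le sr).hasSum)
      have h2 : (fun n => (∑ p ∈ Finset.HasAntidiagonal.antidiagonal n, hist l p.1 * hist r p.2) *
          z ^ n + (hist l n * z ^ n + hist r n * z ^ n)) =
          fun n => PowerSeries.coeff n (G (.node l r)) * z ^ n := by
        funext n
        rw [coeffG_node]; ring
      rw [h2] at h1
      have h3 : FG (.node l r) z = F l z * F r z + (F l z + F r z) := h1.tsum_eq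
      rw [h3]; ring
  rw [hq]
  exact ⟨by linarith [hp.1], hp.2⟩

/-- The radius of convergence. -/
noncomputable def rad (S : STree) : ℝ := sSup {z : ℝ | 0 ≤ z ∧ q S z ≤ 5 / 4}

theorem ok_le {S : STree} {z : ℝ} (hz : 0 ≤ z) (h : q S z ≤ 5 / 4) : z ≤ 1 / 4 := by
  have h1 := size_le S hz h
  have h2 := size_pos S
  have h3 : (1 : ℝ) ≤ size S := by exact_mod_cast h2
  nlinarith

theorem bdd (S : STree) : BddAbove {z : ℝ | 0 ≤ z ∧ q S z ≤ 5 / 4} :=
  ⟨1 / 4, fun _ hz => ok_le hz.1 hz.2⟩

theorem rad_mem (S : STree) : 0 ≤ rad S ∧ q S (rad S) ≤ 5 / 4 := by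
  have hc : IsClosed {z : ℝ | 0 ≤ z ∧ q S z ≤ 5 / 4} :=
    (isClosed_le continuous_const continuous_id).inter
      (isClosed_le (q_cont S) continuous_const)
  exact hc.csSup_mem ⟨0, le_rfl, by rw [q_zero]; norm_num⟩ (bdd S)

theorem le_rad {S : STree} {z : ℝ} (hz : 0 ≤ z) (h : q S z ≤ 5 / 4) : z ≤ rad S :=
  le_csSup (bdd S) ⟨hz, h⟩

theorem ok_iff {S : STree} {z : ℝ} (hz : 0 ≤ z) : q S z ≤ 5 / 4 ↔ z ≤ rad S := by
  constructor
  · exact le_rad hz
  · intro h
    exact (q_mono S hz h).trans (rad_mem S).2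

/-- If strictly OK then slightly beyond is OK. -/
theorem lt_rad {S : STree} {z : ℝ} (hz : 0 ≤ z) (h : q S z < 5 / 4) : z < rad S := by
  have h1 : ∀ᶠ w in 𝓝 z, q S w < 5 / 4 :=
    (q_cont S).continuousAt.eventually_lt continuousAt_const h
  have h2 : ∀ᶠ w in 𝓝[>] z, q S w < 5 / 4 := h1.filter_mono nhdsWithin_le_nhds
  have h3 : ∀ᶠ w in 𝓝[>] z, z < w := self_mem_nhdsWithin
  obtain ⟨w, hw1, hw2⟩ := (h2.and h3).exists
  exact hw2.trans_le (le_rad (hz.trans hw2.le) hw1.le)

theorem rad_pos (S : STree) : 0 < rad S := by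
  apply lt_rad le_rfl
  rw [q_zero]; norm_num

theorem upper (S : STree) (n : ℕ) : hist S n * rad S ^ n ≤ 1 / 2 :=
  term_le S (rad_mem S).1 (rad_mem S).2 n

theorem lower (S : STree) {w : ℝ} (hw : rad S < w) :
    ∃ c : ℝ, 0 < c ∧ ∀ n, 1 ≤ n → c ≤ hist S n * w ^ n := by
  have h0 := rad_pos S
  have hw0 : 0 < w := h0.trans hw
  set v := (rad S + w) / 2 with hv
  have hv1 : rad S < v := by rw [hv]; linarith
  have hv2 : v < w := by rw [hv]; linarith
  have hv0 : 0 < v := h0.trans hv1
  have hns : ¬ Summable (fun n => hist S n * v ^ n) := by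
    intro hs
    have h1 := (ok_of_summable S (z := (rad S + v) / 2) (by linarith) (by linarith) hs).1
    have h2 := le_rad (by linarith) h1
    linarith
  have hex : ∃ n₀, 1 ≤ n₀ ∧ 1 ≤ hist S n₀ * w ^ n₀ := by
    by_contra hc
    push Not at hc
    apply hns
    have hg : Summable (fun n : ℕ => (v / w) ^ n) :=
      summable_geometric_of_lt_one (by positivity) ((div_lt_one hw0).2 hv2)
    refine Summable.of_nonneg_of_le
      (fun n => mul_nonneg (hist_nonneg S n) (pow_nonneg hv0.le n)) (fun n => ?_) hg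
    rcases Nat.eq_zero_or_pos n with h | h
    · subst h
      rw [hist_zero]; simp
    · have h1 := hc n h
      have h2 : hist S n * v ^ n = (hist S n * w ^ n) * (v / w) ^ n := by
        rw [div_pow v w n, mul_assoc, mul_div_cancel₀ _ (pow_ne_zero n hw0.ne')]
      rw [h2]
      have h3 : 0 ≤ (v / w) ^ n := by positivity
      nlinarith
  obtain ⟨n₀, hn₀, hh⟩ := hex
  refine ⟨(min w 1) ^ n₀, by positivity, fun n => ?_⟩
  induction n using Nat.strong_induction_on with
  | _ n ih =>
    intro hn
    have hm0 : 0 < min w 1 := by positivity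
    rcases le_or_gt n n₀ with h | h
    · have h1 : (min w 1) ^ n₀ ≤ (min w 1) ^ n :=
        pow_le_pow_of_le_one hm0.le (min_le_right _ _) h
      have h2 : (min w 1) ^ n ≤ w ^ n := pow_le_pow_left₀ hm0.le (min_le_left _ _) n
      have h3 := hist_pos S n hn
      have h4 : 0 < w ^ n := by positivity
      nlinarith
    · have h1 := ih (n - n₀) (by omega) (by omega)
      have h2 := hist_super S n₀ (n - n₀)
      rw [Nat.add_sub_cancel' h.le] at h2
      have h3 : w ^ n = w ^ n₀ * w ^ (n - n₀) := by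
        rw [← pow_add, Nat.add_sub_cancel' h.le]
      calc (min w 1) ^ n₀ ≤ hist S (n - n₀) * w ^ (n - n₀) := h1
        _ = 1 * (hist S (n - n₀) * w ^ (n - n₀)) := (one_mul _).symm
        _ ≤ (hist S n₀ * w ^ n₀) * (hist S (n - n₀) * w ^ (n - n₀)) := by
            apply mul_le_mul_of_nonneg_right hh
            exact mul_nonneg (hist_nonneg S _) (pow_nonneg hw0.le _)
        _ = (hist S n₀ * hist S (n - n₀)) * w ^ n := by rw [h3]; ring
        _ ≤ hist S n * w ^ n := mul_le_mul_of_nonneg_right h2 (pow_nonneg hw0.le _)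

/-- Comparison principle. -/
theorem eventually_le {S S' : STree} (h : rad S < rad S') :
    ∀ᶠ n in atTop, hist S' n ≤ hist S n := by
  set w := (rad S + rad S') / 2 with hw
  have h0 := rad_pos S
  obtain ⟨c, hc, hl⟩ := lower S (w := w) (by rw [hw]; linarith)
  have hw0 : 0 < w := by rw [hw]; linarith
  have hr' := rad_pos S'
  have h1 : Tendsto (fun n : ℕ => (w / rad S') ^ n) atTop (𝓝 0) :=
    tendsto_pow_atTop_nhds_zero_of_lt_one (by positivity)
      ((div_lt_one hr').2 (by rw [hw]; linarith))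
  have h2 : ∀ᶠ n : ℕ in atTop, (w / rad S') ^ n < 2 * c :=
    h1.eventually_lt_const (by linarith)
  filter_upwards [h2, eventually_ge_atTop 1] with n hn hn1
  have h3 := hl n hn1
  have h4 := upper S' n
  have h5 : 0 < rad S' ^ n := by positivity
  have h6 : 0 < w ^ n := by positivity
  rw [div_pow, div_lt_iff₀ h5] at hn
  by_contra hcon
  push Not at hcon
  have h7 : hist S n * w ^ n < hist S' n * w ^ n := mul_lt_mul_of_pos_right hcon h6
  have h8 : 0 ≤ hist S' n := hist_nonneg S' n
  have h9 : hist S' n * w ^ n ≤ hist S' n * (2 * c * rad S' ^ n) :=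
    mul_le_mul_of_nonneg_left hn.le h8
  nlinarith

theorem rad_lt {S S' : STree} (h : ∀ z, 0 < z → q S z ≤ 5 / 4 → q S' z < 5 / 4) :
    rad S < rad S' :=
  lt_rad (rad_mem S).1 (h _ (rad_pos S) (rad_mem S).2)

/-- The growth factor is the reciprocal of the radius. -/
theorem growth (S : STree) :
    Tendsto (fun n : ℕ => hist S n ^ (1 / (n : ℝ))) atTop (𝓝 (1 / rad S)) := by
  have h0 := rad_pos S
  rw [tendsto_order]
  constructor
  · intro a ha
    rcases le_or_gt a 0 with h | h
    · filter_upwards [eventually_ge_atTop 1] with n hn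
      have h1 := hist_pos S n hn
      exact h.trans_lt (Real.rpow_pos_of_pos (by linarith) _)
    · have h1 : rad S < 1 / a := by
        rw [lt_div_iff₀ h0] at ha
        rw [lt_div_iff₀ h]
        linarith
      obtain ⟨w, hw1, hw2⟩ := exists_between h1
      have hw0 : 0 < w := h0.trans hw1
      obtain ⟨c, hc, hl⟩ := lower S hw1
      have h2 : Tendsto (fun n : ℕ => c ^ (1 / (n : ℝ))) atTop (𝓝 1) := by
        have h3 : Tendsto (fun n : ℕ => 1 / (n : ℝ)) atTop (𝓝 0) :=
          tendsto_one_div_atTop_nhds_zero_nat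
        have h4 : ContinuousAt (fun x : ℝ => c ^ x) 0 :=
          Real.continuousAt_const_rpow hc.ne'
        have h5 := h4.tendsto.comp h3
        rw [Real.rpow_zero] at h5
        exact h5
      have h3 : a * w < 1 := by
        rw [lt_div_iff₀ h] at hw2
        linarith
      have h4 : ∀ᶠ n : ℕ in atTop, a * w < c ^ (1 / (n : ℝ)) :=
        h2.eventually_const_lt h3
      filter_upwards [h4, eventually_ge_atTop 1] with n hn hn1
      have hn0 : (n : ℝ) ≠ 0 := by positivity
      have h5 := hl n hn1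
      have h6 : c ^ (1 / (n : ℝ)) ≤ (hist S n * w ^ n) ^ (1 / (n : ℝ)) :=
        Real.rpow_le_rpow hc.le h5 (by positivity)
      rw [Real.mul_rpow (hist_nonneg S n) (by positivity), ← Real.rpow_natCast w n,
        ← Real.rpow_mul hw0.le, mul_one_div_cancel hn0, Real.rpow_one] at h6
      have h7 : a * w < hist S n ^ (1 / (n : ℝ)) * w := lt_of_lt_of_le hn h6
      exact lt_of_mul_lt_mul_right h7 hw0.le
  · intro b hb
    filter_upwards [eventually_ge_atTop 1] with n hn1
    have hn0 : (n : ℝ) ≠ 0 := by positivity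
    have h5 := upper S n
    have h6 : (hist S n * rad S ^ n) ^ (1 / (n : ℝ)) ≤ (1 / 2) ^ (1 / (n : ℝ)) :=
      Real.rpow_le_rpow (mul_nonneg (hist_nonneg S n) (by positivity)) h5 (by positivity)
    have h7 : ((1 : ℝ) / 2) ^ (1 / (n : ℝ)) ≤ 1 :=
      Real.rpow_le_one (by norm_num) (by norm_num) (by positivity)
    rw [Real.mul_rpow (hist_nonneg S n) (by positivity), ← Real.rpow_natCast (rad S) n,
      ← Real.rpow_mul h0.le, mul_one_div_cancel hn0, Real.rpow_one] at h6
    have h8 : hist S n ^ (1 / (n : ℝ)) * rad S ≤ 1 := h6.trans h7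
    calc hist S n ^ (1 / (n : ℝ)) ≤ 1 / rad S := by rwa [le_div_iff₀ h0]
      _ < b := hb

end Pool.Agent.R58.Species
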