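import Pool.Agent.R58.SpeciesOrd

/-! Comparison with caterpillars and balanced trees. -/

namespace Pool.Agent.R58.Species

open Filter Topology

/-- value `1 + H_S(z)` where OK. -/
noncomputable def P (S : STree) (z : ℝ) : ℝ := psi (q S z)

theorem q_node (l r : STree) (z : ℝ) : q (.node l r) z = P l z * P r z := rfl

theorem P_ge_one (S : STree) {z : ℝ} (hz : 0 ≤ z) : 1 ≤ P S z := psi_ge_one (q_ge_one S hz)

theorem P_pos (S : STree) {z : ℝ} (hz : 0 ≤ z) : 0 < P S z :=
  lt_of_lt_of_le one_pos (P_ge_one S hz)

theorem q_gt_one (S : STree) {z : ℝ} (hz : 0 < z) (h : q S z ≤ 5 / 4) : 1 < q S z := by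
  have h1 := size_le S hz.le h
  have h2 := size_pos S
  have h3 : (1 : ℝ) ≤ size S := by exact_mod_cast h2
  nlinarith

theorem P_gt_one (S : STree) {z : ℝ} (hz : 0 < z) (h : q S z ≤ 5 / 4) : 1 < P S z :=
  lt_of_lt_of_le (q_gt_one S hz h) (le_psi h)

theorem q_lt_left {l r : STree} {z : ℝ} (hz : 0 < z) (h : q (.node l r) z ≤ 5 / 4) :
    q l z < q (.node l r) z := by
  have h1 := le_psi (q_left hz.le h).le
  have h2 := P_gt_one r hz (q_right hz.le h).le
  have h3 := P_pos l hz.le
  rw [q_node]
  unfold P at *
  nlinarith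

theorem q_cat_succ (k : ℕ) (z : ℝ) (hk : 1 ≤ k) :
    q (caterpillar (k + 1)) z = P (caterpillar k) z * P .leaf z := by
  obtain ⟨j, rfl⟩ := Nat.exists_eq_add_of_le hk
  rw [Nat.add_comm 1 j]
  rfl

theorem size_cat (k : ℕ) (hk : 1 ≤ k) : size (caterpillar k) = k := by
  induction k, hk using Nat.le_induction with
  | base => rfl
  | succ k hk ih =>
    obtain ⟨j, rfl⟩ := Nat.exists_eq_add_of_le hk
    rw [Nat.add_comm 1 j] at ih ⊢
    rw [caterpillar, size, ih]; rfl

theorem q_cat_lt {z : ℝ} (hz : 0 < z) (k : ℕ) (hk : 1 ≤ k)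
    (h : q (caterpillar (k + 1)) z ≤ 5 / 4) :
    q (caterpillar k) z < q (caterpillar (k + 1)) z := by
  obtain ⟨j, rfl⟩ := Nat.exists_eq_add_of_le hk
  rw [Nat.add_comm 1 j] at h ⊢
  exact q_lt_left hz h

theorem q_cat_mono {z : ℝ} (hz : 0 < z) (K : ℕ) (h : q (caterpillar K) z ≤ 5 / 4) (j : ℕ)
    (hj : 1 ≤ j) (hjK : j ≤ K) : q (caterpillar j) z ≤ q (caterpillar K) z ∧
      (j < K → q (caterpillar j) z < q (caterpillar K) z) := by
  induction K, hjK using Nat.le_induction with
  | base => exact ⟨le_rfl, fun h => absurd h (lt_irrefl _)⟩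
  | succ K hK ih =>
    have h1 := q_cat_lt hz K (hj.trans hK) h
    have h2 := ih (h1.le.trans h)
    exact ⟨(h2.1.trans_lt h1).le, fun _ => h2.1.trans_lt h1⟩

theorem cat_logconv {z : ℝ} (hz : 0 < z) (K : ℕ) (h : q (caterpillar K) z ≤ 5 / 4) (k : ℕ)
    (hk : 2 ≤ k) (hkK : k + 1 ≤ K) :
    P (caterpillar k) z ^ 2 < P (caterpillar (k - 1)) z * P (caterpillar (k + 1)) z := by
  induction k, hk using Nat.le_induction with
  | base =>
    have h3 := (q_cat_mono hz K h 3 (by norm_num) hkK).1.trans h
    have e : q (caterpillar 3) z = psi (psi (1 + z) * psi (1 + z)) * psi (1 + z) := rfl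
    have := base_case hz (by rw [e] at h3; linarith)
    have e1 : P (caterpillar 2) z = psi (psi (1 + z) * psi (1 + z)) := rfl
    have e2 : P (caterpillar (2 - 1)) z = psi (1 + z) := rfl
    have e3 : P (caterpillar (2 + 1)) z = psi (psi (psi (1 + z) * psi (1 + z)) * psi (1 + z)) := rfl
    rw [e1, e2, e3, mul_comm (psi (psi (1 + z) * psi (1 + z))) (psi (1 + z))]
    exact this
  | succ k hk ih =>
    have ih' := ih (by omega)
    obtain ⟨j, rfl⟩ := Nat.exists_eq_add_of_le (show 1 ≤ k by omega)
    rw [Nat.add_comm 1 j] at *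
    rw [Nat.add_sub_cancel] at ih' ⊢
    have ok1 := (q_cat_mono hz K h (j + 1) (by omega) (by omega)).1.trans h
    have ok2 := (q_cat_mono hz K h (j + 1 + 1) (by omega) (by omega)).1.trans h
    have ok3 := (q_cat_mono hz K h (j + 1 + 1 + 1) (by omega) (by omega)).1.trans h
    have l1 := q_cat_lt hz (j + 1) (by omega) ok2
    have l2 := q_cat_lt hz (j + 1 + 1) (by omega) ok3
    apply key' (q_ge_one _ hz.le) ok1 (q_ge_one _ hz.le) ok2 (q_ge_one _ hz.le) ok3
      (l1.trans l2).ne
    have e1 := q_cat_succ j z (by omega)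
    have e2 := q_cat_succ (j + 1) z (by omega)
    have e3 := q_cat_succ (j + 1 + 1) z (by omega)
    rw [e1, e2, e3]
    have p := P_pos .leaf hz.le
    have : (P (caterpillar (j + 1)) z * P .leaf z) ^ 2 =
      P .leaf z ^ 2 * P (caterpillar (j + 1)) z ^ 2 := by ring
    rw [this]
    calc P .leaf z ^ 2 * P (caterpillar (j + 1)) z ^ 2
        ≤ P .leaf z ^ 2 * (P (caterpillar j) z * P (caterpillar (j + 1 + 1)) z) :=
          mul_le_mul_of_nonneg_left ih'.le (by positivity)
      _ = _ := by ring

theorem cat_prod_aux {z : ℝ} (hz : 0 < z) (K : ℕ) (h : q (caterpillar K) z ≤ 5 / 4) (i : ℕ)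
    (hi : 2 ≤ i) : ∀ j, i ≤ j → i + j ≤ K →
    P (caterpillar i) z * P (caterpillar j) z <
      P (caterpillar 1) z * P (caterpillar (i + j - 1)) z := by
  have lc := logconv (fun k => P (caterpillar k) z) K (fun k => P_pos _ hz.le)
    (cat_logconv hz K h)
  induction i, hi using Nat.le_induction with
  | base =>
    intro j hj hjK
    have := lc 2 j le_rfl hj (by omega)
    have e : 2 + j - 1 = j + 1 := by omega
    rw [e]
    exact this
  | succ i hi ih =>
    intro j hj hjK
    have h1 := lc (i + 1) j (by omega) hj (by omega)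
    have h2 := ih (j + 1) (by omega) (by omega)
    have e : i + (j + 1) - 1 = i + 1 + j - 1 := by omega
    rw [e] at h2
    simp only [Nat.add_sub_cancel] at h1
    exact h1.trans h2

theorem cat_prod {z : ℝ} (hz : 0 < z) (K : ℕ) (h : q (caterpillar K) z ≤ 5 / 4) (i j : ℕ)
    (hi : 2 ≤ i) (hj : 2 ≤ j) (hK : i + j ≤ K) :
    P (caterpillar i) z * P (caterpillar j) z <
      P (caterpillar 1) z * P (caterpillar (i + j - 1)) z := by
  rcases le_total i j with h1 | h1
  · exact cat_prod_aux hz K h i hi j h1 hK
  · have := cat_prod_aux hz K h j hj i h1 (by omega)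
    rw [Nat.add_comm i j, mul_comm (P (caterpillar i) z)]
    exact this

theorem H_comm (l r : STree) : H (.node l r) = H (.node r l) := by
  rw [H, H]
  congr 1
  ring

theorem H_congr {l r l' r' : STree} (h1 : H l = H l') (h2 : H r = H r') :
    H (.node l r) = H (.node l' r') := by
  rw [H, H, h1, h2]

theorem size_eq_one {S : STree} (h : size S = 1) : S = .leaf := by
  cases S with
  | leaf => rfl
  | node l r =>
    rw [size] at h
    have := size_pos l
    have := size_pos r
    omega

theorem P_le_of_q {S T : STree} {z : ℝ} (h : q S z ≤ q T z) : P S z ≤ P T z := psi_mono h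

/-- Caterpillars are extremal. -/
theorem cat_max (S : STree) {z : ℝ} (hz : 0 < z) (h : q (caterpillar (size S)) z ≤ 5 / 4) :
    (H S = H (caterpillar (size S)) ∧ q S z = q (caterpillar (size S)) z) ∨
      q S z < q (caterpillar (size S)) z := by
  induction S with
  | leaf => exact Or.inl ⟨rfl, rfl⟩
  | node l r hl hr =>
    rw [size] at h ⊢
    have sl := size_pos l
    have sr := size_pos r
    obtain ⟨a, ha⟩ : ∃ a, a = size l := ⟨_, rfl⟩
    obtain ⟨b, hb⟩ : ∃ b, b = size r := ⟨_, rfl⟩
    rw [← ha] at sl hl
    rw [← hb] at sr hr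
    rw [← ha, ← hb] at h ⊢
    have ma := (q_cat_mono hz _ h a sl (by omega)).2 (by omega)
    have mb := (q_cat_mono hz _ h b sr (by omega)).2 (by omega)
    have hl' := hl (ma.le.trans h)
    have hr' := hr (mb.le.trans h)
    have ql : q l z ≤ q (caterpillar a) z := by
      rcases hl' with h1 | h1
      · exact h1.2.le
      · exact h1.le
    have qr : q r z ≤ q (caterpillar b) z := by
      rcases hr' with h1 | h1
      · exact h1.2.le
      · exact h1.le
    have pl : P l z ≤ P (caterpillar a) z := psi_mono ql
    have pr : P r z ≤ P (caterpillar b) z := psi_mono qr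
    have hk : q (caterpillar (a + b)) z = P (caterpillar (a + b - 1)) z * P .leaf z := by
      have := q_cat_succ (a + b - 1) z (by omega)
      rwa [Nat.sub_add_cancel (by omega)] at this
    have p1 := P_pos (caterpillar a) hz.le
    have p2 := P_pos (caterpillar b) hz.le
    have p3 := P_pos l hz.le
    have p4 := P_pos r hz.le
    have p5 := P_pos .leaf hz.le
    rcases Nat.lt_or_ge a 2 with ha2 | ha2
    · have ha1 : a = 1 := by omega
      have hlleaf : l = .leaf := size_eq_one (by omega)
      have e : a + b - 1 = b := by omega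
      rw [e] at hk
      rcases hr' with h1 | h1
      · left
        constructor
        · rw [H_comm, hlleaf]
          have e2 : a + b = (b - 1) + 2 := by omega
          rw [e2, caterpillar]
          apply H_congr _ rfl
          rw [h1.1]
          congr 2
          omega
        · rw [hk, q_node, hlleaf, mul_comm]
          unfold P
          rw [h1.2]
      · right
        rw [hk, q_node, hlleaf, mul_comm]
        apply mul_lt_mul_of_pos_right _ p5
        exact psi_strict h1 (h1.trans_le (mb.le.trans h))
    rcases Nat.lt_or_ge b 2 with hb2 | hb2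
    · have hb1 : b = 1 := by omega
      have hrleaf : r = .leaf := size_eq_one (by omega)
      have e : a + b - 1 = a := by omega
      rw [e] at hk
      rcases hl' with h1 | h1
      · left
        constructor
        · rw [hrleaf]
          have e2 : a + b = (a - 1) + 2 := by omega
          rw [e2, caterpillar]
          apply H_congr _ rfl
          rw [h1.1]
          congr 2
          omega
        · rw [hk, q_node, hrleaf]
          unfold P
          rw [h1.2]
      · right
        rw [hk, q_node, hrleaf]
        apply mul_lt_mul_of_pos_right _ p5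
        exact psi_strict h1 (h1.trans_le (ma.le.trans h))
    · right
      have := cat_prod hz (a + b) h a b ha2 hb2 le_rfl
      rw [hk, q_node]
      calc P l z * P r z ≤ P (caterpillar a) z * P (caterpillar b) z :=
            mul_le_mul pl pr p4.le p1.le
        _ < P (caterpillar 1) z * P (caterpillar (a + b - 1)) z := this
        _ = _ := by rw [mul_comm]; rfl

/-- The balanced tree with `k` leaves. -/
def bal (k : ℕ) : STree :=
  if h : k < 2 then .leaf else .node (bal ((k + 1) / 2)) (bal (k / 2))
termination_by k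
decreasing_by all_goals omega

theorem bal_one : bal 1 = .leaf := by
  rw [bal]; simp

theorem bal_eq (k : ℕ) (hk : 2 ≤ k) : bal k = .node (bal ((k + 1) / 2)) (bal (k / 2)) := by
  conv_lhs => rw [bal]
  rw [dif_neg (by omega)]

theorem q_bal (k : ℕ) (hk : 2 ≤ k) (z : ℝ) :
    q (bal k) z = P (bal ((k + 1) / 2)) z * P (bal (k / 2)) z := by
  rw [bal_eq k hk]; rfl

theorem size_bal (k : ℕ) (hk : 1 ≤ k) : size (bal k) = k := by
  induction k using Nat.strong_induction_on with
  | _ k ih =>
    rcases Nat.lt_or_ge k 2 with h | h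
    · have : k = 1 := by omega
      rw [this, bal_one]; rfl
    · rw [bal_eq k h, size, ih _ (by omega) (by omega), ih _ (by omega) (by omega)]
      omega

theorem balanced_bal (k : ℕ) : Balanced (bal k) := by
  induction k using Nat.strong_induction_on with
  | _ k ih =>
    rcases Nat.lt_or_ge k 2 with h | h
    · rw [bal, dif_pos h]; trivial
    · rw [bal_eq k h, Balanced, size_bal _ (by omega), size_bal _ (by omega)]
      exact ⟨by omega, by omega, ih _ (by omega), ih _ (by omega)⟩

theorem balanced_unique (T : STree) (h : Balanced T) :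
    H T = H (bal (size T)) ∧ ∀ z, q T z = q (bal (size T)) z := by
  induction T with
  | leaf =>
    rw [size, bal_one]
    exact ⟨rfl, fun _ => rfl⟩
  | node l r hl hr =>
    rw [Balanced] at h
    obtain ⟨h1, h2, h3, h4⟩ := h
    have il := hl h3
    have ir := hr h4
    have sl := size_pos l
    have sr := size_pos r
    rw [size]
    have hk : 2 ≤ size l + size r := by omega
    rcases le_total (size r) (size l) with h | h
    · have e1 : (size l + size r + 1) / 2 = size l := by omega
      have e2 : (size l + size r) / 2 = size r := by omega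
      constructor
      · rw [bal_eq _ hk, e1, e2]
        exact H_congr il.1 ir.1
      · intro z
        rw [q_bal _ hk, e1, e2, q_node]
        unfold P
        rw [il.2, ir.2]
    · have e1 : (size l + size r + 1) / 2 = size r := by omega
      have e2 : (size l + size r) / 2 = size l := by omega
      constructor
      · rw [bal_eq _ hk, e1, e2, H_comm]
        exact H_congr ir.1 il.1
      · intro z
        rw [q_bal _ hk, e1, e2, q_node, mul_comm]
        unfold P
        rw [il.2, ir.2]

theorem q_bal_lt {z : ℝ} (hz : 0 < z) (k : ℕ) (hk : 1 ≤ k) (h : q (bal (k + 1)) z ≤ 5 / 4) :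
    q (bal k) z < q (bal (k + 1)) z := by
  induction k using Nat.strong_induction_on with
  | _ k ih =>
    rcases Nat.lt_or_ge k 2 with h2 | h2
    · have : k = 1 := by omega
      subst this
      have e : bal (1 + 1) = .node (bal 1) (bal 1) := by
        rw [bal_eq _ (by norm_num)]
      rw [e] at h ⊢
      exact q_lt_left hz h
    · have hok := h
      rw [q_bal (k + 1) (by omega)] at h ⊢
      rw [q_bal k h2]
      have e1 : (k + 1 + 1) / 2 = k / 2 + 1 := by omega
      rw [e1] at h ⊢
      have hc : q (bal (k / 2 + 1)) z < 5 / 4 := by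
        rw [bal_eq (k + 1) (by omega), e1] at hok
        exact q_left hz.le hok
      have h3 := ih (k / 2) (by omega) (by omega) hc.le
      have h4 : P (bal (k / 2)) z < P (bal (k / 2 + 1)) z := psi_strict h3 (h3.trans hc)
      have h5 := P_pos (bal ((k + 1) / 2)) hz.le
      nlinarith

theorem q_bal_mono {z : ℝ} (hz : 0 < z) (K : ℕ) (h : q (bal K) z ≤ 5 / 4) (j : ℕ)
    (hj : 1 ≤ j) (hjK : j ≤ K) : q (bal j) z ≤ q (bal K) z ∧
      (j < K → q (bal j) z < q (bal K) z) := by
  induction K, hjK using Nat.le_induction with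
  | base => exact ⟨le_rfl, fun h => absurd h (lt_irrefl _)⟩
  | succ K hK ih =>
    have h1 := q_bal_lt hz K (hj.trans hK) h
    have h2 := ih (h1.le.trans h)
    exact ⟨(h2.1.trans_lt h1).le, fun _ => h2.1.trans_lt h1⟩

theorem bal_logconv {z : ℝ} (hz : 0 < z) (K : ℕ) (h : q (bal K) z ≤ 5 / 4) (k : ℕ)
    (hk : 2 ≤ k) (hkK : k + 1 ≤ K) :
    P (bal k) z ^ 2 < P (bal (k - 1)) z * P (bal (k + 1)) z := by
  induction k using Nat.strong_induction_on with
  | _ k ih =>
    have okm : ∀ j, 1 ≤ j → j ≤ K → q (bal j) z ≤ 5 / 4 := fun j h1 h2 =>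
      (q_bal_mono hz K h j h1 h2).1.trans h
    have l1 := q_bal_lt hz (k - 1) (by omega) (okm (k - 1 + 1) (by omega) (by omega))
    have l2 := q_bal_lt hz k (by omega) (okm (k + 1) (by omega) (by omega))
    rw [Nat.sub_add_cancel (by omega)] at l1
    have main : q (bal k) z ^ 2 ≤ q (bal (k - 1)) z * q (bal (k + 1)) z →
        P (bal k) z ^ 2 < P (bal (k - 1)) z * P (bal (k + 1)) z := fun hh =>
      key' (q_ge_one _ hz.le) (okm _ (by omega) (by omega)) (q_ge_one _ hz.le)
        (okm _ (by omega) (by omega)) (q_ge_one _ hz.le) (okm _ (by omega) (by omega))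
        (l1.trans l2).ne hh
    rcases Nat.even_or_odd' k with ⟨j, hj | hj⟩
    · rcases Nat.lt_or_ge j 2 with hj2 | hj2
      · have hk2 : k = 2 := by omega
        subst hk2
        have e1 : P (bal (2 - 1)) z = psi (1 + z) := by
          rw [show 2 - 1 = 1 by norm_num, bal_one]; rfl
        have e2 : P (bal 2) z = psi (psi (1 + z) * psi (1 + z)) := by
          unfold P
          rw [q_bal 2 le_rfl]
          norm_num [bal_one]
          rfl
        have e3 : q (bal (2 + 1)) z = psi (psi (1 + z) * psi (1 + z)) * psi (1 + z) := by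
          rw [q_bal 3 (by norm_num), show (3 + 1) / 2 = 2 by norm_num,
            show 3 / 2 = 1 by norm_num, e2, bal_one]
          rfl
        have h3 := okm 3 (by norm_num) hkK
        have e3' : P (bal (2 + 1)) z = psi (psi (psi (1 + z) * psi (1 + z)) * psi (1 + z)) := by
          unfold P; rw [e3]
        rw [e1, e2, e3', mul_comm (psi (psi (1 + z) * psi (1 + z))) (psi (1 + z))]
        apply base_case hz
        rw [e3] at h3
        linarith
      · apply main
        have i1 : (k + 1) / 2 = j := by omega
        have i2 : k / 2 = j := by omega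
        have i3 : (k - 1 + 1) / 2 = j := by omega
        have i4 : (k - 1) / 2 = j - 1 := by omega
        have i5 : (k + 1 + 1) / 2 = j + 1 := by omega
        rw [q_bal k hk, q_bal (k - 1) (by omega), q_bal (k + 1) (by omega), i1, i2, i3, i4, i5]
        have h5 := ih j (by omega) hj2 (by omega)
        have p := P_pos (bal j) hz.le
        have h6 : P (bal j) z ^ 2 * P (bal j) z ^ 2 ≤
            P (bal j) z ^ 2 * (P (bal (j - 1)) z * P (bal (j + 1)) z) :=
          mul_le_mul_of_nonneg_left h5.le (by positivity)
        nlinarith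
    · apply main
      have i1 : (k + 1) / 2 = j + 1 := by omega
      have i2 : k / 2 = j := by omega
      have i3 : (k - 1 + 1) / 2 = j := by omega
      have i4 : (k - 1) / 2 = j := by omega
      have i5 : (k + 1 + 1) / 2 = j + 1 := by omega
      rw [q_bal k hk, q_bal (k - 1) (by omega), q_bal (k + 1) (by omega), i1, i2, i3, i4, i5]
      apply le_of_eq
      ring

theorem bal_prod {z : ℝ} (hz : 0 < z) (K : ℕ) (h : q (bal K) z ≤ 5 / 4) (d : ℕ) :
    ∀ a b, 1 ≤ a → a ≤ b → b ≤ K → b - a = d →
    P (bal ((a + b + 1) / 2)) z * P (bal ((a + b) / 2)) z ≤ P (bal a) z * P (bal b) z ∧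
    (a + 2 ≤ b → P (bal ((a + b + 1) / 2)) z * P (bal ((a + b) / 2)) z <
      P (bal a) z * P (bal b) z) := by
  have lc := logconv (fun k => P (bal k) z) K (fun k => P_pos _ hz.le) (bal_logconv hz K h)
  induction d using Nat.strong_induction_on with
  | _ d ih =>
    intro a b ha hab hb hd
    rcases Nat.lt_or_ge b (a + 2) with h2 | h2
    · have e1 : (a + b + 1) / 2 = b := by omega
      have e2 : (a + b) / 2 = a := by omega
      rw [e1, e2, mul_comm]
      exact ⟨le_rfl, fun h => absurd h (by omega)⟩
    · have h3 := ih (d - 2) (by omega) (a + 1) (b - 1) (by omega) (by omega) (by omega) (by omega)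
      have h4 := lc (a + 1) (b - 1) (by omega) (by omega) (by omega)
      simp only [Nat.add_sub_cancel] at h4
      rw [Nat.sub_add_cancel (by omega)] at h4
      have e : a + 1 + (b - 1) = a + b := by omega
      rw [e] at h3
      exact ⟨(h3.1.trans_lt h4).le, fun _ => h3.1.trans_lt h4⟩

/-- Balanced trees are extremal. -/
theorem bal_min (S : STree) {z : ℝ} (hz : 0 < z) (h : q S z ≤ 5 / 4) :
    (H S = H (bal (size S)) ∧ q S z = q (bal (size S)) z) ∨
      q (bal (size S)) z < q S z := by
  induction S with
  | leaf =>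
    rw [size, bal_one]
    exact Or.inl ⟨rfl, rfl⟩
  | node l r hl hr =>
    have okl := q_left hz.le h
    have okr := q_right hz.le h
    have hl' := hl okl.le
    have hr' := hr okr.le
    rw [size]
    have sl := size_pos l
    have sr := size_pos r
    obtain ⟨a, ha⟩ : ∃ a, a = size l := ⟨_, rfl⟩
    obtain ⟨b, hb⟩ : ∃ b, b = size r := ⟨_, rfl⟩
    rw [← ha] at hl' sl ⊢
    rw [← hb] at hr' sr ⊢
    have ql : q (bal a) z ≤ q l z := by
      rcases hl' with h1 | h1
      · exact h1.2.ge
      · exact h1.le
    have qr : q (bal b) z ≤ q r z := by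
      rcases hr' with h1 | h1
      · exact h1.2.ge
      · exact h1.le
    have pl : P (bal a) z ≤ P l z := psi_mono ql
    have pr : P (bal b) z ≤ P r z := psi_mono qr
    have p1 := P_pos (bal a) hz.le
    have p2 := P_pos (bal b) hz.le
    have p3 := P_pos l hz.le
    have p4 := P_pos r hz.le
    have hprod : P (bal ((a + b + 1) / 2)) z * P (bal ((a + b) / 2)) z ≤
        P (bal a) z * P (bal b) z ∧ (a + 2 ≤ b ∨ b + 2 ≤ a →
        P (bal ((a + b + 1) / 2)) z * P (bal ((a + b) / 2)) z <
        P (bal a) z * P (bal b) z) := by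
      rcases le_total a b with hab | hab
      · have := bal_prod hz b (qr.trans okr.le) (b - a) a b sl hab le_rfl rfl
        exact ⟨this.1, fun h => this.2 (by omega)⟩
      · have := bal_prod hz a (ql.trans okl.le) (a - b) b a sr hab le_rfl rfl
        rw [Nat.add_comm b a, mul_comm (P (bal b) z)] at this
        exact ⟨this.1, fun h => this.2 (by omega)⟩
    rw [q_bal (a + b) (by omega), q_node]
    by_cases hfar : a + 2 ≤ b ∨ b + 2 ≤ a
    · right
      exact (hprod.2 hfar).trans_le (mul_le_mul pl pr p2.le p3.le)
    rcases hl' with h1 | h1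
    · rcases hr' with h2 | h2
      · left
        have hnear : ((a + b + 1) / 2 = a ∧ (a + b) / 2 = b) ∨
            ((a + b + 1) / 2 = b ∧ (a + b) / 2 = a) := by omega
        have eP1 : P l z = P (bal a) z := by unfold P; rw [h1.2]
        have eP2 : P r z = P (bal b) z := by unfold P; rw [h2.2]
        rcases hnear with ⟨e1, e2⟩ | ⟨e1, e2⟩
        · rw [bal_eq (a + b) (by omega), e1, e2, eP1, eP2]
          exact ⟨H_congr h1.1 h2.1, rfl⟩
        · rw [bal_eq (a + b) (by omega), e1, e2, eP1, eP2, H_comm]
          exact ⟨H_congr h2.1 h1.1, mul_comm _ _⟩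
      · right
        have : P (bal b) z < P r z := psi_strict h2 (h2.trans okr)
        calc _ ≤ P (bal a) z * P (bal b) z := hprod.1
          _ < P (bal a) z * P r z := mul_lt_mul_of_pos_left this p1
          _ ≤ P l z * P r z := mul_le_mul_of_nonneg_right pl p4.le
    · right
      have : P (bal a) z < P l z := psi_strict h1 (h1.trans okl)
      calc _ ≤ P (bal a) z * P (bal b) z := hprod.1
        _ < P l z * P (bal b) z := mul_lt_mul_of_pos_right this p2
        _ ≤ P l z * P r z := mul_le_mul_of_nonneg_left pr p3.le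

theorem finite_size (k : ℕ) : {S : STree | size S = k}.Finite := by
  induction k using Nat.strong_induction_on with
  | _ k ih =>
    have : {S : STree | size S = k} ⊆ {.leaf} ∪ ⋃ a ∈ Finset.range k, ⋃ b ∈ Finset.range k,
        Set.image2 STree.node {S | size S = a} {S | size S = b} := by
      intro S hS
      cases S with
      | leaf => exact Or.inl rfl
      | node l r =>
        right
        have hS' : size l + size r = k := hS
        have sl := size_pos l
        have sr := size_pos r
        simp only [Set.mem_iUnion, Finset.mem_range]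
        exact ⟨size l, by omega, size r, by omega, l, rfl, r, rfl, rfl⟩
    refine Set.Finite.subset ?_ this
    apply Set.Finite.union (Set.finite_singleton _)
    apply Set.Finite.biUnion (Finset.finite_toSet _)
    intro a ha
    apply Set.Finite.biUnion (Finset.finite_toSet _)
    intro b hb
    exact (ih a (Finset.mem_range.1 ha)).image2 _ (ih b (Finset.mem_range.1 hb))

theorem eventually_cat (S : STree) :
    ∀ᶠ n in atTop, hist S n ≤ hist (caterpillar (size S)) n := by
  by_cases h : H S = H (caterpillar (size S))
  · apply Eventually.of_forall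
    intro n
    unfold hist
    rw [h]
  · apply eventually_le
    apply rad_lt
    intro z hz hok
    rcases cat_max S hz hok with h1 | h1
    · exact absurd h1.1 h
    · exact h1.trans_le hok

theorem eventually_bal (S : STree) :
    ∀ᶠ n in atTop, hist (bal (size S)) n ≤ hist S n := by
  by_cases h : H S = H (bal (size S))
  · apply Eventually.of_forall
    intro n
    unfold hist
    rw [h]
  · apply eventually_le
    apply rad_lt
    intro z hz hok
    rcases bal_min S hz hok with h1 | h1
    · exact absurd h1.1 h
    · exact h1.trans_le hok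

theorem main_order (k : ℕ) : ∀ᶠ n in atTop, ∀ S, size S = k →
    (∀ T, Balanced T → size T = k → hist T n ≤ hist S n) ∧ hist S n ≤ hist (caterpillar k) n := by
  have h := (Filter.eventually_all_finite (finite_size k) (l := atTop)
    (p := fun S n => hist (bal (size S)) n ≤ hist S n ∧
      hist S n ≤ hist (caterpillar (size S)) n)).2
    (fun S _ => (eventually_bal S).and (eventually_cat S))
  filter_upwards [h] with n hn S hS
  have h1 := hn S hS
  rw [hS] at h1
  refine ⟨fun T hT hTk => ?_, h1.2⟩
  have h2 := (balanced_unique T hT).1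
  rw [hTk] at h2
  have h3 : hist T n = hist (bal k) n := by unfold hist; rw [h2]
  rw [h3]
  exact h1.1

end Pool.Agent.R58.Species
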