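import Mathlib

/-! Species trees and generating functions of duplication-loss histories. -/

namespace Pool.Agent.R58.Species

/-- Rooted full binary trees (species trees); a leaf, or an internal node with two children. -/
inductive STree : Type
  | leaf : STree
  | node : STree → STree → STree

/-- The number of leaves. -/
def size : STree → ℕ
  | .leaf => 1
  | .node l r => size l + size r

/-- A species tree is balanced if at every internal node the leaf counts of the two subtrees
differ by at most one. -/
def Balanced : STree → Prop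
  | .leaf => True
  | .node l r => size l ≤ size r + 1 ∧ size r ≤ size l + 1 ∧ Balanced l ∧ Balanced r

/-- The caterpillar with `k` leaves (`k ≥ 1`; the value at `0` is a leaf, too). -/
def caterpillar : ℕ → STree
  | 0 => .leaf
  | 1 => .leaf
  | (k + 2) => .node (caterpillar (k + 1)) .leaf

/-- The power series `B(z) = (1 - sqrt (1 - 4 z)) / 2 = ∑_{n ≥ 1} Catalan(n-1) z^n`. -/
noncomputable def B : PowerSeries ℝ :=
  PowerSeries.mk (fun n => if n = 0 then 0 else (catalan (n - 1) : ℝ))

/-- The generating function `H_u` at the root of a species tree. -/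
noncomputable def H : STree → PowerSeries ℝ
  | .leaf => B
  | .node l r => PowerSeries.subst (H l * H r + H l + H r) B

/-- The number of DL-histories with `n` genes. -/
noncomputable def hist (S : STree) (n : ℕ) : ℝ := PowerSeries.coeff n (H S)

/-- The inner series: `H = G + H^2`. -/
noncomputable def G : STree → PowerSeries ℝ
  | .leaf => PowerSeries.X
  | .node l r => H l * H r + H l + H r

theorem B_cat : B = PowerSeries.X *
    PowerSeries.map (Nat.castRingHom ℝ) PowerSeries.catalanSeries := by
  ext n
  rcases n with _ | n
  · simp [B]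
  · rw [PowerSeries.coeff_succ_X_mul]
    simp [B]

theorem B_eq : B = PowerSeries.X + B * B := by
  have h := congrArg (PowerSeries.map (Nat.castRingHom ℝ))
    PowerSeries.catalanSeries_sq_mul_X_add_one
  simp only [map_add, map_mul, map_pow, map_one, PowerSeries.map_X] at h
  rw [B_cat]
  set C := PowerSeries.map (Nat.castRingHom ℝ) PowerSeries.catalanSeries
  linear_combination -(PowerSeries.X) * h

theorem constB : PowerSeries.constantCoeff B = 0 := by
  rw [← PowerSeries.coeff_zero_eq_constantCoeff_apply]
  simp [B]

theorem constH (S : STree) : PowerSeries.constantCoeff (H S) = 0 := by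
  induction S with
  | leaf => exact constB
  | node l r hl hr =>
    rw [H]
    apply PowerSeries.constantCoeff_subst_eq_zero
    · change PowerSeries.constantCoeff _ = 0
      simp [hl, hr]
    · exact constB

theorem H_eq (S : STree) : H S = G S + H S * H S := by
  cases S with
  | leaf => exact B_eq
  | node l r =>
    have hs : PowerSeries.HasSubst (H l * H r + H l + H r) := by
      apply PowerSeries.HasSubst.of_constantCoeff_zero'
      simp [constH]
    have h := congrArg (PowerSeries.subst (H l * H r + H l + H r)) B_eq
    rw [PowerSeries.subst_add hs, PowerSeries.subst_mul hs, PowerSeries.subst_X hs] at h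
    exact h

theorem hist_zero (S : STree) : hist S 0 = 0 := by
  rw [hist, PowerSeries.coeff_zero_eq_constantCoeff_apply, constH]

theorem coeffG_nonneg_leaf (n : ℕ) : 0 ≤ PowerSeries.coeff n (G .leaf) := by
  rw [G, PowerSeries.coeff_X]
  split_ifs <;> norm_num

/-- nonnegativity transfers from `G` to `H`. -/
theorem nonneg_of_G (S : STree) (hG : ∀ n, 0 ≤ PowerSeries.coeff n (G S)) (n : ℕ) :
    0 ≤ hist S n := by
  induction n using Nat.strong_induction_on with
  | _ n ih =>
    rw [hist, H_eq S, map_add, PowerSeries.coeff_mul]
    apply add_nonneg (hG n)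
    apply Finset.sum_nonneg
    rintro ⟨i, j⟩ hij
    rw [Finset.HasAntidiagonal.mem_antidiagonal] at hij
    simp only at hij ⊢
    rcases Nat.eq_zero_or_pos i with hi | hi
    · subst hi
      have : PowerSeries.coeff 0 (H S) = 0 := hist_zero S
      rw [this]; simp
    rcases Nat.eq_zero_or_pos j with hj | hj
    · subst hj
      have : PowerSeries.coeff 0 (H S) = 0 := hist_zero S
      rw [this]; simp
    exact mul_nonneg (ih i (by omega)) (ih j (by omega))

theorem hist_nonneg (S : STree) (n : ℕ) : 0 ≤ hist S n := by
  induction S generalizing n with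
  | leaf => exact nonneg_of_G _ coeffG_nonneg_leaf n
  | node l r hl hr =>
    apply nonneg_of_G
    intro m
    rw [G, map_add, map_add, PowerSeries.coeff_mul]
    have h1 := hl m
    have h2 := hr m
    rw [hist] at h1 h2
    have h3 : 0 ≤ ∑ p ∈ Finset.HasAntidiagonal.antidiagonal m, PowerSeries.coeff p.1 (H l) *
        PowerSeries.coeff p.2 (H r) :=
      Finset.sum_nonneg (fun p _ => mul_nonneg (hl p.1) (hr p.2))
    linarith

theorem coeffG_nonneg (S : STree) (n : ℕ) : 0 ≤ PowerSeries.coeff n (G S) := by
  cases S with
  | leaf => exact coeffG_nonneg_leaf n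
  | node l r =>
    rw [G, map_add, map_add, PowerSeries.coeff_mul]
    have h1 := hist_nonneg l n
    have h2 := hist_nonneg r n
    rw [hist] at h1 h2
    have h3 : 0 ≤ ∑ p ∈ Finset.HasAntidiagonal.antidiagonal n, PowerSeries.coeff p.1 (H l) *
        PowerSeries.coeff p.2 (H r) :=
      Finset.sum_nonneg (fun p _ => mul_nonneg (hist_nonneg l p.1) (hist_nonneg r p.2))
    linarith

theorem hist_eq (S : STree) (n : ℕ) : hist S n = PowerSeries.coeff n (G S) +
    ∑ p ∈ Finset.HasAntidiagonal.antidiagonal n, hist S p.1 * hist S p.2 := by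
  conv_lhs => rw [hist, H_eq S, map_add, PowerSeries.coeff_mul]
  rfl

theorem hist_ge_G (S : STree) (n : ℕ) : PowerSeries.coeff n (G S) ≤ hist S n := by
  rw [hist_eq]
  have : 0 ≤ ∑ p ∈ Finset.HasAntidiagonal.antidiagonal n, hist S p.1 * hist S p.2 :=
    Finset.sum_nonneg (fun p _ => mul_nonneg (hist_nonneg S p.1) (hist_nonneg S p.2))
  linarith

theorem coeffG_node (l r : STree) (n : ℕ) : PowerSeries.coeff n (G (.node l r)) =
    (∑ p ∈ Finset.HasAntidiagonal.antidiagonal n, hist l p.1 * hist r p.2) + hist l n + hist r n := by
  rw [G, map_add, map_add, PowerSeries.coeff_mul]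
  rfl

theorem hist_ge_left (l r : STree) (n : ℕ) : hist l n ≤ hist (.node l r) n := by
  have h := hist_ge_G (.node l r) n
  rw [coeffG_node] at h
  have h2 := hist_nonneg r n
  have h3 : 0 ≤ ∑ p ∈ Finset.HasAntidiagonal.antidiagonal n, hist l p.1 * hist r p.2 :=
    Finset.sum_nonneg (fun p _ => mul_nonneg (hist_nonneg l p.1) (hist_nonneg r p.2))
  linarith

theorem hist_ge_right (l r : STree) (n : ℕ) : hist r n ≤ hist (.node l r) n := by
  have h := hist_ge_G (.node l r) n
  rw [coeffG_node] at h
  have h2 := hist_nonneg l n
  have h3 : 0 ≤ ∑ p ∈ Finset.HasAntidiagonal.antidiagonal n, hist l p.1 * hist r p.2 :=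
    Finset.sum_nonneg (fun p _ => mul_nonneg (hist_nonneg l p.1) (hist_nonneg r p.2))
  linarith

theorem hist_one (S : STree) : 1 ≤ hist S 1 := by
  induction S with
  | leaf =>
    have h := hist_ge_G .leaf 1
    rw [G, PowerSeries.coeff_X] at h
    simpa using h
  | node l r hl hr => exact hl.trans (hist_ge_left l r 1)

theorem hist_super (S : STree) (m n : ℕ) : hist S m * hist S n ≤ hist S (m + n) := by
  rw [hist_eq S (m + n)]
  have h1 : hist S m * hist S n ≤
      ∑ p ∈ Finset.HasAntidiagonal.antidiagonal (m + n), hist S p.1 * hist S p.2 :=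
    Finset.single_le_sum (f := fun p : ℕ × ℕ => hist S p.1 * hist S p.2)
      (fun p _ => mul_nonneg (hist_nonneg S p.1) (hist_nonneg S p.2))
      (show (m, n) ∈ Finset.HasAntidiagonal.antidiagonal (m + n) by simp)
  have h2 := coeffG_nonneg S (m + n)
  linarith

theorem hist_pos (S : STree) (n : ℕ) (hn : 1 ≤ n) : 1 ≤ hist S n := by
  induction n, hn using Nat.le_induction with
  | base => exact hist_one S
  | succ n hn ih =>
    have h := hist_super S n 1
    have h1 := hist_one S
    nlinarith

end Pool.Agent.R58.Species
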