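import Pool.Agent.R58.SpeciesCmp

/-! Growth factors of caterpillars and balanced trees. -/

namespace Pool.Agent.R58.Species

open Filter Topology

theorem size_le_P (S : STree) {z : ℝ} (hz : 0 ≤ z) (h : q S z ≤ 5 / 4) :
    1 + size S * z ≤ P S z := (size_le S hz h).trans (le_psi h)

theorem cat_down {z : ℝ} (hz : 0 < z) (K : ℕ) (h : q (caterpillar K) z ≤ 5 / 4) (n i : ℕ)
    (hi : 1 ≤ i) (hiK : i + n = K) : (n : ℝ) * (P (caterpillar i) z - 1) ≤ 1 := by
  induction n generalizing i with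
  | zero => simp
  | succ n ih =>
    have h1 := ih (i + 1) (by omega) (by omega)
    have ok1 := (q_cat_mono hz K h (i + 1) (by omega) (by omega)).1.trans h
    have h2 : 3 * P (caterpillar (i + 1)) z - 1 - P (caterpillar (i + 1)) z ^ 2 =
        q (caterpillar (i + 1)) z := psi_phi ok1
    rw [q_cat_succ i z hi] at h2
    have h4 := P_gt_one (caterpillar i) hz ((q_cat_mono hz K h i hi (by omega)).1.trans h)
    have h5 := P_ge_one .leaf hz.le
    have h6 := P_ge_one (caterpillar (i + 1)) hz.le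
    have h7 : P (caterpillar (i + 1)) z ≤ 3 / 2 := psi_le _
    obtain ⟨t, ht⟩ : ∃ t, P (caterpillar (i + 1)) z = 1 + t := ⟨_, (add_sub_cancel 1 _).symm⟩
    obtain ⟨s, hs⟩ : ∃ s, P (caterpillar i) z = 1 + s := ⟨_, (add_sub_cancel 1 _).symm⟩
    rw [ht] at h1 h2 h6 h7
    rw [hs] at h2 h4 ⊢
    have hn : (0 : ℝ) ≤ n := Nat.cast_nonneg n
    have h8 : s ≤ t * (1 - t) := by nlinarith
    push_cast
    have h9 : ((n : ℝ) + 1) * s ≤ ((n : ℝ) + 1) * (t * (1 - t)) :=
      mul_le_mul_of_nonneg_left h8 (by linarith)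
    have h10 : (n : ℝ) * t * (1 - t) ≤ 1 * (1 - t) :=
      mul_le_mul_of_nonneg_right (by linarith) (by linarith)
    nlinarith

theorem cat_rad (k i : ℕ) (hi : 1 ≤ i) (hik : i ≤ k) :
    ((i * (k - i) : ℕ) : ℝ) ≤ 1 / rad (caterpillar k) := by
  have h0 := rad_pos (caterpillar k)
  have hok := (rad_mem (caterpillar k)).2
  have h1 := cat_down h0 k hok (k - i) i hi (by omega)
  have h2 := size_le_P (caterpillar i) h0.le
    ((q_cat_mono h0 k hok i hi hik).1.trans hok)
  rw [size_cat i hi] at h2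
  rw [le_div_iff₀ h0]
  push_cast
  have hn : (0 : ℝ) ≤ ((k - i : ℕ) : ℝ) := Nat.cast_nonneg _
  nlinarith [mul_le_mul_of_nonneg_left h2 hn]

theorem cat_superlinear :
    Tendsto (fun k : ℕ => (1 / rad (caterpillar k)) / (k : ℝ)) atTop atTop := by
  have h1 : Tendsto (fun k : ℕ => ((k : ℝ) - 1) / 4) atTop atTop := by
    apply Tendsto.atTop_div_const (by norm_num)
    exact tendsto_atTop_add_const_right _ _ tendsto_natCast_atTop_atTop
  apply tendsto_atTop_mono' atTop _ h1
  filter_upwards [eventually_ge_atTop 2] with k hk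
  have h2 := cat_rad k (k / 2) (by omega) (by omega)
  have hk0 : (0 : ℝ) < k := by positivity
  rw [le_div_iff₀ hk0]
  refine le_trans ?_ h2
  have h3 : k * k - k ≤ 4 * (k / 2 * (k - k / 2)) := by
    rcases Nat.even_or_odd' k with ⟨j, hj | hj⟩
    · have e1 : k / 2 = j := by omega
      have e2 : k - k / 2 = j := by omega
      rw [e2, e1, hj]
      have : 2 * j * (2 * j) = 4 * (j * j) := by ring
      omega
    · have e1 : k / 2 = j := by omega
      have e2 : k - k / 2 = j + 1 := by omega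
      rw [e2, e1, hj]
      have : (2 * j + 1) * (2 * j + 1) = 4 * (j * (j + 1)) + 1 := by ring
      omega
  have h4 : (((k * k - k : ℕ)) : ℝ) ≤ ((4 * (k / 2 * (k - k / 2)) : ℕ) : ℝ) := by
    exact_mod_cast h3
  rw [Nat.cast_sub (Nat.le_mul_self k)] at h4
  push_cast at h4 ⊢
  nlinarith

theorem psi_upper {g : ℝ} (hg : 0 ≤ g) (hg' : g ≤ 1 / 4) : psi (1 + g) ≤ 1 + g + 4 * g ^ 2 := by
  have h1 := psi_phi (show 1 + g ≤ 5 / 4 by linarith)
  have h2 := psi_le (1 + g)
  have h3 := psi_ge_one (show 1 ≤ 1 + g by linarith)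
  obtain ⟨x, hx⟩ : ∃ x, psi (1 + g) = 1 + x := ⟨_, (add_sub_cancel 1 _).symm⟩
  rw [hx] at h1 h2 h3 ⊢
  have h4 : x = g + x ^ 2 := by nlinarith
  have h5 : x ≤ 2 * g := by nlinarith
  have h6 : x ^ 2 ≤ (2 * g) ^ 2 := pow_le_pow_left₀ (by linarith) h5 2
  nlinarith

theorem bal_upper {z : ℝ} (hz : 0 ≤ z) (k : ℕ) (hk : 1 ≤ k) (h : k * z ≤ 1 / 100) :
    q (bal k) z ≤ 5 / 4 ∧ P (bal k) z ≤ 1 + k * z + 20 * (k * z) ^ 2 := by
  induction k using Nat.strong_induction_on with
  | _ k ih =>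
    rcases Nat.lt_or_ge k 2 with h2 | h2
    · have hk1 : k = 1 := by omega
      subst hk1
      rw [bal_one]
      simp only [Nat.cast_one, one_mul] at h ⊢
      have e : q .leaf z = 1 + z := rfl
      refine ⟨by rw [e]; linarith, ?_⟩
      have := psi_upper hz (by linarith)
      unfold P
      rw [e]
      nlinarith
    · obtain ⟨a, ha⟩ : ∃ a, a = (k + 1) / 2 := ⟨_, rfl⟩
      obtain ⟨b, hb⟩ : ∃ b, b = k / 2 := ⟨_, rfl⟩
      have hab : a + b = k := by omega
      have ha1 : 1 ≤ a := by omega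
      have hb1 : 1 ≤ b := by omega
      have hsq : 9 * (a * a + b * b) ≤ 5 * (k * k) := by
        rcases Nat.even_or_odd' k with ⟨j, hj | hj⟩
        · have e1 : a = j := by omega
          have e2 : b = j := by omega
          rw [e1, e2, hj]
          nlinarith
        · have e1 : a = j + 1 := by omega
          have e2 : b = j := by omega
          have : 1 ≤ j := by omega
          rw [e1, e2, hj]
          nlinarith
      have hkR : (k : ℝ) = a + b := by exact_mod_cast hab.symm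
      have hsqR : 9 * ((a : ℝ) * a + b * b) ≤ 5 * (k * k) := by exact_mod_cast hsq
      have haR : (1 : ℝ) ≤ a := by exact_mod_cast ha1
      have hbR : (1 : ℝ) ≤ b := by exact_mod_cast hb1
      have iha := (ih a (by omega) ha1 (by nlinarith)).2
      have ihb := (ih b (by omega) hb1 (by nlinarith)).2
      have pa := P_ge_one (bal a) hz
      have pb := P_ge_one (bal b) hz
      have hq : q (bal k) z = P (bal a) z * P (bal b) z := by
        rw [q_bal k h2, ← ha, ← hb]
      obtain ⟨u, hu⟩ : ∃ u, u = (a : ℝ) * z := ⟨_, rfl⟩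
      obtain ⟨v, hv⟩ : ∃ v, v = (b : ℝ) * z := ⟨_, rfl⟩
      obtain ⟨x, hx⟩ : ∃ x, P (bal a) z = 1 + x := ⟨_, (add_sub_cancel 1 _).symm⟩
      obtain ⟨y, hy⟩ : ∃ y, P (bal b) z = 1 + y := ⟨_, (add_sub_cancel 1 _).symm⟩
      have hkz : (k : ℝ) * z = u + v := by rw [hkR, hu, hv]; ring
      have huv : 9 * (u ^ 2 + v ^ 2) ≤ 5 * (u + v) ^ 2 := by
        rw [← hkz, hu, hv]
        have := mul_le_mul_of_nonneg_right hsqR (mul_nonneg hz hz)
        nlinarith
      rw [hkz] at h ⊢
      rw [← hu] at iha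
      rw [← hv] at ihb
      rw [hx] at iha pa hq
      rw [hy] at ihb pb hq
      have hu0 : 0 ≤ u := by rw [hu]; positivity
      have hv0 : 0 ≤ v := by rw [hv]; positivity
      obtain ⟨t, ht⟩ : ∃ t, t = u + v := ⟨_, rfl⟩
      have ht0 : 0 ≤ t := by linarith
      rw [← ht] at h huv ⊢
      have hx1 : x ≤ u + 20 * u ^ 2 := by linarith
      have hy1 : y ≤ v + 20 * v ^ 2 := by linarith
      have hx0 : 0 ≤ x := by linarith
      have hy0 : 0 ≤ y := by linarith
      have hu1 : u ≤ 1 / 100 := by linarith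
      have hv1 : v ≤ 1 / 100 := by linarith
      have hu2 : u ^ 2 ≤ 1 / 100 * u := by rw [sq]; exact mul_le_mul_of_nonneg_right hu1 hu0
      have hv2 : v ^ 2 ≤ 1 / 100 * v := by rw [sq]; exact mul_le_mul_of_nonneg_right hv1 hv0
      have ht2 : t ^ 2 ≤ 1 / 100 * t := by rw [sq]; exact mul_le_mul_of_nonneg_right h ht0
      have hx2 : x ≤ 6 / 5 * u := by linarith
      have hy2 : y ≤ 6 / 5 * v := by linarith
      have hxy : x * y ≤ (6 / 5 * u) * (6 / 5 * v) := mul_le_mul hx2 hy2 hy0 (by linarith)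
      obtain ⟨g, hg⟩ : ∃ g, g = x + y + x * y := ⟨_, rfl⟩
      have hqg : q (bal k) z = 1 + g := by rw [hq, hg]; ring
      have hg0 : 0 ≤ g := by rw [hg]; positivity
      have huv2 : u * v ≤ t ^ 2 / 4 := by
        have : 0 ≤ (u - v) ^ 2 := sq_nonneg _
        have e : t ^ 2 / 4 - u * v = (u - v) ^ 2 / 4 := by rw [ht]; ring
        linarith
      have hg1 : g ≤ t + 12 * t ^ 2 := by
        have e : (6 / 5 * u) * (6 / 5 * v) = 36 / 25 * (u * v) := by ring
        rw [e] at hxy
        have : 0 ≤ t ^ 2 := sq_nonneg t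
        rw [hg]
        linarith
      have hg2 : g ≤ 28 / 25 * t := by linarith
      have hg3 : g ^ 2 ≤ (28 / 25 * t) ^ 2 := pow_le_pow_left₀ hg0 hg2 2
      refine ⟨by rw [hqg]; linarith, ?_⟩
      have := psi_upper hg0 (by linarith)
      have e2 : (28 / 25 * t) ^ 2 = 784 / 625 * t ^ 2 := by ring
      rw [e2] at hg3
      have : 0 ≤ t ^ 2 := sq_nonneg t
      have e3 : P (bal k) z = psi (1 + g) := by unfold P; rw [hqg]
      rw [e3]
      have hg4 : g ≤ t + 574 / 50 * t ^ 2 := by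
        have e : (6 / 5 * u) * (6 / 5 * v) = 36 / 25 * (u * v) := by ring
        rw [e] at hxy
        rw [hg]
        linarith
      linarith

theorem growth_bounds (k : ℕ) (hk : 1 ≤ k) (T : STree) (hT : Balanced T) (hs : size T = k) :
    2 * (k : ℝ) ≤ 1 / rad T ∧ 1 / rad T ≤ 100 * k := by
  have h0 := rad_pos T
  have hk0 : (0 : ℝ) < k := by positivity
  constructor
  · have h1 := size_le_P T h0.le (rad_mem T).2
    have h2 : P T (rad T) ≤ 3 / 2 := psi_le _
    rw [hs] at h1
    rw [le_div_iff₀ h0]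
    linarith
  · have h1 := (bal_upper (z := 1 / (100 * k)) (by positivity) k hk (by field_simp; exact le_rfl)).1
    have h2 := (balanced_unique T hT).2
    rw [hs] at h2
    rw [← h2] at h1
    have h3 := le_rad (by positivity) h1
    rw [div_le_iff₀ h0]
    rw [div_le_iff₀ (by positivity)] at h3
    linarith

end Pool.Agent.R58.Species
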