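import Pool.Agent.R58.SpeciesAn

/-! Comparison of the history series of species trees. -/

namespace Pool.Agent.R58.Species

open Filter Topology

theorem key {A B C : ℝ} (hA : 1 ≤ A) (hA' : A ≤ 3 / 2) (hB' : B ≤ 3 / 2) (hB : 1 ≤ B)
    (hC : 1 ≤ C) (hC' : C ≤ 3 / 2) (hne : A ≠ C) (h : A * C ≤ B ^ 2) :
    (3 * A - 1 - A ^ 2) * (3 * C - 1 - C ^ 2) < (3 * B - 1 - B ^ 2) ^ 2 := by
  obtain ⟨t, ht, ht2⟩ : ∃ t : ℝ, t = Real.sqrt (A * C) ∧ t ^ 2 = A * C :=
    ⟨_, rfl, Real.sq_sqrt (by nlinarith)⟩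
  have hAC : 1 ≤ A * C := by nlinarith
  have ht1 : 1 ≤ t := by
    rw [ht]
    exact Real.one_le_sqrt.2 hAC
  have htB : t ≤ B := by
    rw [ht]
    exact Real.sqrt_le_iff.2 ⟨by linarith, h⟩
  clear ht
  have hs : 2 * t < A + C := by
    have h1 : 0 < (A - C) ^ 2 := by
      have : A - C ≠ 0 := sub_ne_zero.2 hne
      positivity
    nlinarith
  have hs2 : A + C ≤ 1 + t ^ 2 := by rw [ht2]; nlinarith
  have e : (3 * t - 1 - t ^ 2) ^ 2 - (3 * A - 1 - A ^ 2) * (3 * C - 1 - C ^ 2) =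
      (A + C - 2 * t) * (3 * (1 + t ^ 2) - (A + C) - 2 * t) := by
    linear_combination (t ^ 2 + A * C + 7 - 3 * (A + C)) * ht2
  have h2 : 0 < (A + C - 2 * t) * (3 * (1 + t ^ 2) - (A + C) - 2 * t) := by
    apply mul_pos (by linarith)
    have : t ≤ t ^ 2 := by nlinarith
    linarith
  have h3 : 3 * t - 1 - t ^ 2 ≤ 3 * B - 1 - B ^ 2 := by
    have : 0 ≤ (B - t) * (3 - B - t) := mul_nonneg (by linarith) (by linarith)
    linarith
  have h4 : 0 ≤ 3 * t - 1 - t ^ 2 := by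
    have : 0 ≤ (t - 1) * (3 / 2 - t) := mul_nonneg (by linarith) (by linarith)
    linarith
  have h5 : (3 * t - 1 - t ^ 2) ^ 2 ≤ (3 * B - 1 - B ^ 2) ^ 2 := pow_le_pow_left₀ h4 h3 2
  linarith

/-- Contrapositive form, in terms of `psi`. -/
theorem key' {a b c : ℝ} (ha : 1 ≤ a) (ha' : a ≤ 5 / 4) (hb : 1 ≤ b) (hb' : b ≤ 5 / 4)
    (hc : 1 ≤ c) (hc' : c ≤ 5 / 4) (hne : a ≠ c) (h : b ^ 2 ≤ a * c) :
    psi b ^ 2 < psi a * psi c := by
  by_contra hcon
  push Not at hcon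
  have hne' : psi a ≠ psi c := by
    intro he
    apply hne
    rw [← psi_phi ha', ← psi_phi hc', he]
  have h1 := key (psi_ge_one ha) (psi_le a) (psi_le b) (psi_ge_one hb) (psi_ge_one hc)
    (psi_le c) hne' hcon
  rw [psi_phi ha', psi_phi hb', psi_phi hc'] at h1
  linarith

/-- Strict log-convexity gives rearrangement. -/
theorem logconv (x : ℕ → ℝ) (K : ℕ) (hpos : ∀ k, 0 < x k)
    (h : ∀ k, 2 ≤ k → k + 1 ≤ K → x k ^ 2 < x (k - 1) * x (k + 1)) (i j : ℕ) (hi : 2 ≤ i)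
    (hij : i ≤ j) (hj : j + 1 ≤ K) : x i * x j < x (i - 1) * x (j + 1) := by
  induction j, hij using Nat.le_induction with
  | base =>
    have := h i hi hj
    nlinarith
  | succ j hij ih =>
    have h1 := ih (by omega)
    have h2 := h (j + 1) (by omega) hj
    rw [Nat.add_sub_cancel] at h2
    have p1 := hpos i
    have p2 := hpos j
    have p3 := hpos (j + 1)
    have p4 := hpos (i - 1)
    have p5 := hpos (j + 1 + 1)
    have h3 : x i * x (j + 1) * x j < x (i - 1) * x (j + 1 + 1) * x j := by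
      calc x i * x (j + 1) * x j = (x i * x j) * x (j + 1) := by ring
        _ < (x (i - 1) * x (j + 1)) * x (j + 1) := mul_lt_mul_of_pos_right h1 p3
        _ = x (i - 1) * x (j + 1) ^ 2 := by ring
        _ < x (i - 1) * (x j * x (j + 1 + 1)) := mul_lt_mul_of_pos_left h2 p4
        _ = x (i - 1) * x (j + 1 + 1) * x j := by ring
    exact lt_of_mul_lt_mul_right h3 p2.le

/-- The base case of both log-convexity statements. -/
theorem base_case {z : ℝ} (hz : 0 < z) (h : psi (1 + z) * psi (psi (1 + z) * psi (1 + z)) ≤ 5 / 4) :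
    psi (psi (1 + z) * psi (1 + z)) ^ 2 <
      psi (1 + z) * psi (psi (1 + z) * psi (psi (1 + z) * psi (1 + z))) := by
  set a := psi (1 + z) with ha
  set x := psi (a * a) with hx
  have ha1 : 1 ≤ a := psi_ge_one (by linarith)
  have haa : 1 ≤ a * a := by nlinarith
  have hx1 : 1 ≤ x := psi_ge_one haa
  have hz5 : 1 + z ≤ 5 / 4 := by
    by_contra hc
    push Not at hc
    have : a = 3 / 2 := psi_gt_five hc.le
    rw [this] at h
    nlinarith
  have haa5 : a * a ≤ 5 / 4 := by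
    by_contra hc
    push Not at hc
    have : x = 3 / 2 := psi_gt_five hc.le
    rw [this] at h
    nlinarith
  have hp1 : 3 * a - 1 - a ^ 2 = 1 + z := psi_phi hz5
  have hp2 : 3 * x - 1 - x ^ 2 = a * a := psi_phi haa5
  have haz : 1 + z ≤ a := le_psi hz5
  have hxa : a * a ≤ x := le_psi haa5
  obtain ⟨b, hb⟩ : ∃ b, a = 1 + b := ⟨a - 1, by ring⟩
  have hb0 : 0 < b := by linarith
  have hb1 : b ≤ 1 / 10 := by
    have h3 : a * (a * a) ≤ 5 / 4 := by nlinarith
    by_contra hc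
    push Not at hc
    rw [hb] at h3
    nlinarith [mul_pos hb0 hb0, mul_pos (mul_pos hb0 hb0) hb0]
  have hxb : 1 + 2 * b + 4 * b ^ 2 ≤ x := by
    by_contra hc
    push Not at hc
    have hx32 := psi_le (a * a)
    rw [← hx] at hx32
    have hb2 : b ^ 2 ≤ 1 / 100 := by nlinarith
    have h4 : 3 * x - 1 - x ^ 2 < 3 * (1 + 2 * b + 4 * b ^ 2) - 1 - (1 + 2 * b + 4 * b ^ 2) ^ 2 := by
      have : 0 < (1 + 2 * b + 4 * b ^ 2 - x) * (3 - (1 + 2 * b + 4 * b ^ 2) - x) :=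
        mul_pos (by linarith) (by linarith)
      nlinarith
    rw [hp2, hb] at h4
    have p3 : 0 ≤ b ^ 3 := by positivity
    have p4 : 0 ≤ b ^ 4 := by positivity
    have p2 : 0 ≤ b ^ 2 := by positivity
    have e : 3 * (1 + 2 * b + 4 * b ^ 2) - 1 - (1 + 2 * b + 4 * b ^ 2) ^ 2 =
        1 + 2 * b - 16 * b ^ 3 - 16 * b ^ 4 := by ring
    rw [e] at h4
    nlinarith
  have hz' : 1 + z = 1 + b - b ^ 2 := by rw [← hp1, hb]; ring
  have h6 : (1 + b) ^ 3 ≤ (1 + b - b ^ 2) * x := by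
    have h7 : 0 < 1 + b - b ^ 2 := by nlinarith
    have h8 : (1 + b - b ^ 2) * (1 + 2 * b + 4 * b ^ 2) ≤ (1 + b - b ^ 2) * x :=
      mul_le_mul_of_nonneg_left hxb h7.le
    have h9 : (1 + b) ^ 3 ≤ (1 + b - b ^ 2) * (1 + 2 * b + 4 * b ^ 2) := by
      have e : (1 + b - b ^ 2) * (1 + 2 * b + 4 * b ^ 2) - (1 + b) ^ 3 =
          b ^ 2 * (2 + b - 4 * b ^ 2) := by ring
      have : 0 ≤ b ^ 2 * (2 + b - 4 * b ^ 2) := mul_nonneg (by positivity) (by nlinarith)
      linarith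
    linarith
  have h10 : (a * a) ^ 2 ≤ (1 + z) * (a * x) := by
    rw [hz', hb]
    have := mul_le_mul_of_nonneg_left h6 (show (0 : ℝ) ≤ 1 + b by linarith)
    linarith
  have h11 : 1 ≤ a * x := by nlinarith
  have h12 : 1 + z ≠ a * x := by
    have h13 : 1 < x := by nlinarith
    have h14 : a * 1 < a * x := mul_lt_mul_of_pos_left h13 (by linarith)
    intro he
    linarith
  exact key' (by linarith) hz5 haa haa5 h11 h h12 h10

end Pool.Agent.R58.Species
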